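import Pool.Agent.V8H95.LE.Zd
import Pool.Agent.V8H95.BK.All2

/-!
The golden rule length at the band edges.
-/

set_option autoImplicit false
set_option linter.unusedSectionVars false
set_option linter.unusedVariables false

open Complex MeasureTheory
open scoped BigOperators ComplexConjugate

namespace Pool.Agent.V8H95.LE

open Pool.Agent.H4R2.AE Pool.Agent.V8H99.AD Pool.Agent.V8H95.MF Pool.Agent.V8H95.BW
open Pool.Agent.V8H95.EF Pool.Agent.V8H95.NE
open Pool.Agent.V8H95.BK (box_massE sgz sgz_norm HF_sgz bm_sgz local_all2)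

theorem bm_mono {d : ℕ} (u : (Fin d → ℤ) → ℂ) (x₀ : Fin d → ℤ) (r s : ℕ) (h : r ≤ s) :
    bm u x₀ r ≤ bm u x₀ s := by
  unfold bm
  apply Finset.sum_le_sum_of_subset_of_nonneg
  · intro x hx
    rw [mem_bx] at hx ⊢
    omega
  · intro x _ _
    positivity

/-- both band edges -/
theorem local_lu (d : ℕ) (hd : 4 ≤ d) (N P B : ℕ) (a : ℝ) (ha : 0 < a) (ha1 : a ≤ 1) :
    ∃ k lam0 : ℝ, 0 < k ∧ k ≤ 1 / 2 ∧ 0 < lam0 ∧
    ∀ (μ : Measure ℝ) [IsProbabilityMeasure μ], μ (Set.Icc (-1) 1)ᶜ = 0 →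
    ∀ lam : ℝ, 0 < lam → lam ≤ lam0 → ∀ W : ℕ,
    1 / lam ^ (ql d B + 2) ≤ (W : ℝ) → (W : ℝ) ≤ 1 / lam ^ N →
    ∃ e₀ e₁ : ℝ, |e₀| ≤ 3 * lam ∧ |e₁ - 4 * d| ≤ 3 * lam ∧
    ∃ G : Set ((Fin d → ℤ) → ℝ), MeasurableSet G ∧
      1 - lam ^ P ≤ (Measure.infinitePi fun _ : Fin d → ℤ => μ).real G ∧
      ∀ ω ∈ G, ∀ (x₀ : Fin d → ℤ), nz x₀ ≤ W → ∀ (ψ : (Fin d → ℤ) → ℂ) (E : ℝ),
        (∀ x, nz (x - x₀) ≤ W → HF lam ω ψ x = (E : ℂ) * ψ x) → ∀ R : ℕ,
        ((E ≤ k → (R : ℝ) ≤ lam ^ (a - 2) / (max (lam ^ B) (√(E - e₀))) ^ (d - 3) →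
          bm ψ x₀ R ≤ lam ^ (a / 64) * bm ψ x₀ (W + 1)) ∧
        (4 * d - k ≤ E → (R : ℝ) ≤ lam ^ (a - 2) / (max (lam ^ B) (√(e₁ - E))) ^ (d - 3) →
          bm ψ x₀ R ≤ lam ^ (a / 64) * bm ψ x₀ (W + 1))) := by
  obtain ⟨k, lam0, hk, hk1, hlam0, H⟩ := local_l d hd N (P + 1) B a ha ha1
  refine ⟨k, min lam0 (1 / 2), hk, hk1, by positivity, ?_⟩
  intro μ _ hμ lam hlam hlamm W hW1 hW2
  have hl0 : lam ≤ lam0 := hlamm.trans (min_le_left _ _)
  have hl2 : lam ≤ 1 / 2 := hlamm.trans (min_le_right _ _)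
  obtain ⟨c0, hc0, G, hGm, hGP, hG⟩ := H μ hμ lam hlam hl0 W hW1 hW2
  have hprob : IsProbabilityMeasure (μ.map (fun t : ℝ => -t)) :=
    Measure.isProbabilityMeasure_map (by fun_prop)
  have hμ' : (μ.map (fun t : ℝ => -t)) (Set.Icc (-1) 1)ᶜ = 0 := by
    rw [Measure.map_apply (by fun_prop) measurableSet_Icc.compl]
    have e : (fun t : ℝ => -t) ⁻¹' (Set.Icc (-1 : ℝ) 1)ᶜ = (Set.Icc (-1 : ℝ) 1)ᶜ := by
      ext t
      simp only [Set.mem_preimage, Set.mem_compl_iff, Set.mem_Icc, not_and_or]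
      constructor
      · rintro (h | h)
        · right; intro h2; apply h; linarith
        · left; intro h2; apply h; linarith
      · rintro (h | h)
        · right; intro h2; apply h; linarith
        · left; intro h2; apply h; linarith
    rw [e]
    exact hμ
  obtain ⟨c1, hc1, G', hG'm, hG'P, hG'⟩ := H (μ.map (fun t : ℝ => -t)) hμ' lam hlam hl0 W hW1 hW2
  have hmeas : Measurable (fun (ω : (Fin d → ℤ) → ℝ) (i : Fin d → ℤ) => -(ω i)) := by fun_prop
  have hmap : (Measure.infinitePi fun _ : Fin d → ℤ => μ).map (fun ω i => -(ω i)) =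
      Measure.infinitePi (fun _ : Fin d → ℤ => μ.map (fun t : ℝ => -t)) :=
    Measure.infinitePi_map_pi (μ := fun _ : Fin d → ℤ => μ)
      (f := fun (_ : Fin d → ℤ) (t : ℝ) => -t) (fun _ => by fun_prop)
  have hreal : (Measure.infinitePi fun _ : Fin d → ℤ => μ).real
      ((fun (ω : (Fin d → ℤ) → ℝ) (i : Fin d → ℤ) => -(ω i)) ⁻¹' G') =
      (Measure.infinitePi (fun _ : Fin d → ℤ => μ.map (fun t : ℝ => -t))).real G' := by
    rw [← hmap, map_measureReal_apply hmeas hG'm]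
  refine ⟨c0, 4 * d - c1, hc0, ?_, G ∩ ((fun (ω : (Fin d → ℤ) → ℝ) (i : Fin d → ℤ) => -(ω i)) ⁻¹' G'),
    hGm.inter (hmeas hG'm), ?_, ?_⟩
  · rw [show 4 * (d : ℝ) - c1 - 4 * d = -c1 by ring, abs_neg]
    exact hc1
  · have h1 := probReal_add_probReal_compl (μ := Measure.infinitePi fun _ : Fin d → ℤ => μ) hGm
    have h2 := probReal_add_probReal_compl (μ := Measure.infinitePi fun _ : Fin d → ℤ => μ)
      (hmeas hG'm)
    have h3 := probReal_add_probReal_compl (μ := Measure.infinitePi fun _ : Fin d → ℤ => μ)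
      (hGm.inter (hmeas hG'm))
    rw [Set.compl_inter] at h3
    have h4 := measureReal_union_le (μ := Measure.infinitePi fun _ : Fin d → ℤ => μ) Gᶜ
      ((fun (ω : (Fin d → ℤ) → ℝ) (i : Fin d → ℤ) => -(ω i)) ⁻¹' G')ᶜ
    have h5 : 2 * lam ^ (P + 1) ≤ lam ^ P := by
      rw [pow_succ]
      have : 0 < lam ^ P := by positivity
      nlinarith
    rw [hreal] at h2
    linarith
  intro ω hω x₀ hx₀ ψ E hψ R
  constructor
  · intro hE hR
    exact hG ω hω.1 x₀ hx₀ ψ E hE hψ R hR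
  · intro hE hR
    have h1 := hG' _ hω.2 x₀ hx₀ (fun y => sgz y * ψ y) (4 * d - E) (by linarith) (by
      intro x hx
      refine (HF_sgz lam ω ψ x).trans ?_
      rw [hψ x hx]
      push_cast
      ring) R (by
      have e : 4 * (d : ℝ) - E - c1 = 4 * d - c1 - E := by ring
      rw [e]
      exact hR)
    rw [bm_sgz, bm_sgz] at h1
    exact h1

/-- **all energies, the length at the band edges** -/
theorem local_all3 (d : ℕ) (hd : 3 ≤ d) (N P B : ℕ) (a : ℝ) (ha : 0 < a) (ha1 : a ≤ 1) :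
    ∃ k lam0 : ℝ, 0 < k ∧ 0 < lam0 ∧
    ∀ (μ : Measure ℝ) [IsProbabilityMeasure μ], μ (Set.Icc (-1) 1)ᶜ = 0 →
    ∀ lam : ℝ, 0 < lam → lam ≤ lam0 → ∀ W : ℕ,
    1 / lam ^ (2 * d + 4 + B * d * (d - 3)) ≤ (W : ℝ) → (W : ℝ) ≤ 1 / lam ^ N →
    ∃ e₀ e₁ : ℝ, |e₀| ≤ 3 * lam ∧ |e₁ - 4 * d| ≤ 3 * lam ∧
    ∃ G : Set ((Fin d → ℤ) → ℝ), MeasurableSet G ∧
      1 - lam ^ P ≤ (Measure.infinitePi fun _ : Fin d → ℤ => μ).real G ∧
      ∀ ω ∈ G, ∀ (x₀ : Fin d → ℤ), nz x₀ ≤ W → ∀ (ψ : (Fin d → ℤ) → ℂ) (E : ℝ),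
        (∀ j : ℕ, 1 ≤ j → j < d → lam ^ (a / 128) ≤ |E - 4 * j|) →
        (∀ x, nz (x - x₀) ≤ W → HF lam ω ψ x = (E : ℂ) * ψ x) → ∀ κ : ℝ,
        κ = max (lam ^ B) (√(min |E - e₀| |E - e₁|)) →
        bm ψ x₀ ⌊lam ^ (a - 2) * (max 1 (k / κ)) ^ (d - 3)⌋₊ ≤
          lam ^ (a / 64) * bm ψ x₀ (W + 1) := by
  rcases Nat.lt_or_ge d 4 with hd4 | hd4
  · have hd3 : d = 3 := by omega
    subst hd3
    obtain ⟨lam0, hlam0, H⟩ := local_all2 3 le_rfl N P a ha ha1
    refine ⟨1, min lam0 1, one_pos, by positivity, ?_⟩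
    intro μ _ hμ lam hlam hlamm W hW1 hW2
    have hl0 : lam ≤ lam0 := hlamm.trans (min_le_left _ _)
    have hl1 : lam ≤ 1 := hlamm.trans (min_le_right _ _)
    obtain ⟨G, hGm, hGP, hG⟩ := H μ hμ lam hlam hl0 W (by
      refine le_trans ?_ hW1
      apply one_div_le_one_div_of_le (by positivity)
      exact pow_le_pow_of_le_one hlam.le hl1 (by norm_num)) hW2
    refine ⟨0, 4 * (3 : ℕ), by rw [abs_zero]; positivity, by rw [sub_self, abs_zero]; positivity,
      G, hGm, hGP, ?_⟩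
    intro ω hω x₀ hx₀ ψ E hE hψ κ hκ
    have h1 := hG ω hω x₀ hx₀ ψ E hE hψ
    rw [show 3 - 3 = 0 by norm_num, pow_zero, mul_one]
    exact h1
  obtain ⟨k, lam1, hk, hk1, hlam1, H1⟩ := local_lu d hd4 N (P + 1) B a ha ha1
  obtain ⟨lam2, hlam2, H2⟩ := local_all2 d hd N (P + 1) a ha ha1
  refine ⟨k / 2, min (min lam1 lam2) (min (1 / 12) (k / 12)), by positivity, by positivity, ?_⟩
  intro μ _ hμ lam hlam hlamm W hW1 hW2
  have hl1 : lam ≤ lam1 := hlamm.trans ((min_le_left _ _).trans (min_le_left _ _))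
  have hl2 : lam ≤ lam2 := hlamm.trans ((min_le_left _ _).trans (min_le_right _ _))
  have hl3 : lam ≤ 1 / 12 := hlamm.trans ((min_le_right _ _).trans (min_le_left _ _))
  have hl4 : lam ≤ k / 12 := hlamm.trans ((min_le_right _ _).trans (min_le_right _ _))
  have hll : lam ≤ 1 := by linarith
  have hq : 2 * d + 4 + B * d * (d - 3) = ql d B + 2 := by
    unfold ql
    obtain ⟨m, rfl⟩ : ∃ m, d = m + 3 := ⟨d - 3, by omega⟩
    rw [Nat.add_sub_cancel]
    ring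
  rw [hq] at hW1
  obtain ⟨e₀, e₁, he₀, he₁, G, hGm, hGP, hG⟩ := H1 μ hμ lam hlam hl1 W hW1 hW2
  obtain ⟨G', hG'm, hG'P, hG'⟩ := H2 μ hμ lam hlam hl2 W (by
      refine le_trans ?_ hW1
      apply one_div_le_one_div_of_le (by positivity)
      exact pow_le_pow_of_le_one hlam.le hll (by omega)) hW2
  refine ⟨e₀, e₁, he₀, he₁, G ∩ G', hGm.inter hG'm, ?_, ?_⟩
  · have h1 := probReal_add_probReal_compl (μ := Measure.infinitePi fun _ : Fin d → ℤ => μ) hGm
    have h2 := probReal_add_probReal_compl (μ := Measure.infinitePi fun _ : Fin d → ℤ => μ) hG'm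
    have h3 := probReal_add_probReal_compl (μ := Measure.infinitePi fun _ : Fin d → ℤ => μ)
      (hGm.inter hG'm)
    rw [Set.compl_inter] at h3
    have h4 := measureReal_union_le (μ := Measure.infinitePi fun _ : Fin d → ℤ => μ) Gᶜ G'ᶜ
    have h5 : 2 * lam ^ (P + 1) ≤ lam ^ P := by
      rw [pow_succ]
      have : 0 < lam ^ P := by positivity
      nlinarith
    linarith
  intro ω hω x₀ hx₀ ψ E hE hψ κ hκ
  have hdr : (4 : ℝ) ≤ d := by exact_mod_cast hd4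
  have a0 := abs_le.1 he₀
  have a1 := abs_le.1 he₁
  have hB0 : 0 < lam ^ B := by positivity
  have hB1 : lam ^ B ≤ 1 := pow_le_one₀ hlam.le hll
  have hκ0 : 0 < κ := by
    rw [hκ]
    exact lt_of_lt_of_le hB0 (le_max_left _ _)
  have hfl : ∀ t : ℝ, 0 ≤ t → (⌊t⌋₊ : ℝ) ≤ t := fun t ht => Nat.floor_le ht
  have hr0 : 0 ≤ lam ^ (a - 2) * (max 1 (k / 2 / κ)) ^ (d - 3) := by positivity
  -- the comparison near the edges
  have hcmp : ∀ s : ℝ, 0 < s → s ≤ 1 → s ≤ κ →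
      lam ^ (a - 2) * (max 1 (k / 2 / κ)) ^ (d - 3) ≤ lam ^ (a - 2) / s ^ (d - 3) := by
    intro s hs hs1 hsκ
    have h1 : max 1 (k / 2 / κ) ≤ 1 / s := by
      apply max_le
      · rw [le_div_iff₀ hs]
        linarith
      · calc k / 2 / κ ≤ 1 / κ := by
              have : k / 2 ≤ 1 := by linarith
              gcongr
          _ ≤ 1 / s := by gcongr
    calc lam ^ (a - 2) * (max 1 (k / 2 / κ)) ^ (d - 3) ≤ lam ^ (a - 2) * (1 / s) ^ (d - 3) := by
          gcongr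
      _ = _ := by
          rw [one_div, inv_pow]
          rfl
  rcases le_or_gt E k with hEk | hEk
  · refine (hG ω hω.1 x₀ hx₀ ψ E hψ _).1 hEk ?_
    refine (hfl _ hr0).trans ?_
    apply hcmp _ (lt_of_lt_of_le hB0 (le_max_left _ _))
    · apply max_le hB1
      rw [Real.sqrt_le_one]
      linarith
    · rw [hκ]
      apply max_le_max le_rfl
      apply Real.sqrt_le_sqrt
      apply le_min
      · exact le_abs_self _
      · refine le_trans ?_ (neg_le_abs _)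
        linarith
  · rcases le_or_gt (4 * d - k) E with hEk2 | hEk2
    · refine (hG ω hω.1 x₀ hx₀ ψ E hψ _).2 hEk2 ?_
      refine (hfl _ hr0).trans ?_
      apply hcmp _ (lt_of_lt_of_le hB0 (le_max_left _ _))
      · apply max_le hB1
        rw [Real.sqrt_le_one]
        linarith
      · rw [hκ]
        apply max_le_max le_rfl
        apply Real.sqrt_le_sqrt
        apply le_min
        · refine le_trans ?_ (le_abs_self _)
          linarith
        · refine le_trans ?_ (neg_le_abs _)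
          linarith
    · have h1 := hG' ω hω.2 x₀ hx₀ ψ E hE hψ
      have h2 : k / 2 ≤ κ := by
        rw [hκ]
        refine le_trans ?_ (le_max_right _ _)
        apply Real.le_sqrt_of_sq_le
        apply le_min
        · refine le_trans ?_ (le_abs_self _)
          nlinarith
        · refine le_trans ?_ (neg_le_abs _)
          nlinarith
      have h3 : max 1 (k / 2 / κ) = 1 := by
        apply max_eq_left
        rw [div_le_one hκ0]
        exact h2
      rw [h3, one_pow, mul_one]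
      exact h1

end Pool.Agent.V8H95.LE
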