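import Pool.Agent.V8H95.LE.Spe
import Pool.Agent.V8H95.ND.Par4
import Pool.Agent.V8H95.NM.Par4

/-!
The descent in the imaginary part of the energy at low energies, `d ≥ 4`.
-/

set_option autoImplicit false
set_option linter.unusedSectionVars false
set_option linter.unusedVariables false

open Complex MeasureTheory
open scoped BigOperators ComplexConjugate

namespace Pool.Agent.V8H95.LE

open Pool.Agent.H4R2.AE Pool.Agent.V8H99.AD Pool.Agent.V8H95.MF Pool.Agent.V8H95.BW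
open Pool.Agent.V8H95.EF
open Pool.Agent.V8H95.NM hiding spec ze ze_im ze_pos XX_trans_int interp center RCb VarAt
open Pool.Agent.V8H95.ND (MX spec DD ze ze_im ze_pos XX_trans_int interp center RCb VarAt)

/-- the levels of the local density of states -/
noncomputable def lv (d : ℕ) (κ ρ Γ : ℝ) (j : ℕ) : ℝ := κ ^ (d - 2) + κ ^ 2 * ρ ^ j * Γ

theorem lv_pos {d : ℕ} {κ ρ Γ : ℝ} (hκ : 0 < κ) (hρ : 0 < ρ) (hΓ : 0 < Γ) (j : ℕ) :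
    0 < lv d κ ρ Γ j := by
  unfold lv
  positivity

theorem lv_anti {d : ℕ} {κ ρ Γ : ℝ} (hκ : 0 < κ) (hρ : 0 < ρ) (hρ1 : ρ ≤ 1) (hΓ : 0 < Γ) (i j : ℕ)
    (hij : i ≤ j) : lv d κ ρ Γ j ≤ lv d κ ρ Γ i := by
  unfold lv
  have : ρ ^ j ≤ ρ ^ i := pow_le_pow_of_le_one hρ.le hρ1 hij
  gcongr

theorem lv_rho {d : ℕ} {κ ρ Γ : ℝ} (hκ : 0 < κ) (hρ : 0 < ρ) (hρ1 : ρ ≤ 1) (hΓ : 0 < Γ) (j : ℕ) :
    lv d κ ρ Γ j ≤ lv d κ ρ Γ (j + 1) / ρ := by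
  unfold lv
  rw [le_div_iff₀ hρ]
  have h1 : κ ^ (d - 2) * ρ ≤ κ ^ (d - 2) := by
    have : 0 < κ ^ (d - 2) := by positivity
    nlinarith
  calc (κ ^ (d - 2) + κ ^ 2 * ρ ^ j * Γ) * ρ = κ ^ (d - 2) * ρ + κ ^ 2 * ρ ^ (j + 1) * Γ := by ring
    _ ≤ _ := by linarith

theorem lv_ge {d : ℕ} {κ ρ Γ : ℝ} (hκ : 0 < κ) (hρ : 0 < ρ) (hΓ : 0 < Γ) (j : ℕ) :
    κ ^ (d - 2) ≤ lv d κ ρ Γ j := by
  unfold lv
  have : 0 < κ ^ 2 * ρ ^ j * Γ := by positivity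
  linarith

theorem lv_le {d : ℕ} (hd : 4 ≤ d) {κ ρ Γ : ℝ} (hκ : 0 < κ) (hκ1 : κ ≤ 1) (hρ : 0 < ρ)
    (hρ1 : ρ ≤ 1) (hΓ : 1 ≤ Γ) (hk : 2 * κ * Γ ≤ 1) (j : ℕ) : lv d κ ρ Γ j ≤ κ := by
  unfold lv
  have h1 : κ ^ (d - 2) ≤ κ ^ 2 := pow_le_pow_of_le_one hκ.le hκ1 (by omega)
  have h2 : ρ ^ j ≤ 1 := pow_le_one₀ hρ.le hρ1
  calc κ ^ (d - 2) + κ ^ 2 * ρ ^ j * Γ ≤ κ ^ 2 * Γ + κ ^ 2 * 1 * Γ := by
        have : κ ^ 2 ≤ κ ^ 2 * Γ := by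
          have : 0 < κ ^ 2 := by positivity
          nlinarith
        gcongr
        linarith
    _ = κ * (2 * κ * Γ) := by ring
    _ ≤ κ * 1 := by gcongr
    _ = κ := mul_one κ

/-- the hypotheses of the descent -/
structure Bl {d L : ℕ} [NeZero L] (μ : Measure ℝ) (Cg Cs A : ℝ) (g0 bq J n0 : ℕ)
    (lam c0 θ mg κ ρ Λ ϑ δ T' s : ℝ) (G : Set (T d L → ℝ)) : Prop where
  d4 : 4 ≤ d
  mx : MX d ≤ A
  lam0 : 0 ≤ lam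
  lam1 : lam ≤ 1
  meas : MeasurableSet G
  good : ∀ V ∈ G, ∃ ψ : T d L → ℝ, Gd lam c0 θ mg V ψ
  th0 : 0 < θ
  thv : θ ≤ ϑ
  hv : ϑ ≤ 1 / 3000
  hvd : ϑ * (1000 * (d : ℝ)) ≤ 1
  k0 : 0 < κ
  k1 : A * κ ≤ 1
  nk : (1 / 2 : ℝ) ^ n0 ≤ κ
  kn : 2 * κ * (n0 + 1) ≤ 1
  r0 : 0 < ρ
  r1 : ρ ≤ 1
  L1 : 1 ≤ Λ
  hJ : bq * J ≤ g0
  hb : 1 ≤ bq
  m0 : 0 ≤ mg
  hm : mg ≤ θ * κ ^ 2
  c : |c0| ≤ 3
  pG : (Measure.pi fun _ : T d L => μ).real Gᶜ * (100 * ((d : ℝ) + 1)) ≤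
    θ * (κ ^ 2 * ρ ^ J) ^ 2 * κ ^ 2
  yL : κ ≤ κ ^ 2 * ρ ^ J * L
  kL : 2 ≤ κ * L
  hδ : (Measure.pi fun _ : T d L => μ).real Gᶜ +
    (J + 1) * (L : ℝ) ^ d * K0 g0 / Λ ^ (3 * 2 ^ bq) ≤ δ
  H0 : (Measure.pi fun _ : T d L => μ).real Gᶜ ≤ κ ^ (12 * 2 ^ g0)
  H1 : lam * (Cg * (n0 + 1) + 2 / ρ * ((J + 2) * (Λ * (A * κ) / ρ))) ≤ 1 / 4
  HT : 4 * lam ^ 2 / (κ ^ 2 * ρ ^ J) * ((L : ℝ) ^ d / (κ ^ 2 * ρ ^ J) ^ 2 *
    (Λ * (A * κ) / ρ ^ 2 * K0 g0 / Λ ^ (3 * 2 ^ bq))) +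
    4 * (L : ℝ) ^ d / (κ ^ 2 * ρ ^ J) ^ 2 * δ ≤ T'
  Hs0 : 0 ≤ s
  Hs : ∀ j, j + 1 ≤ J → 4 * lam ^ 2 * (Λ * (A * lv d κ ρ (n0 + 1) j) / ρ ^ 2) /
    (κ ^ 2 * ρ ^ (j + 1)) ≤ s
  H2 : s + DD d * T' ≤ ϑ ^ 2
  H3 : ∀ j, j + 1 ≤ J → Cs * (2 * K0 g0) * (lam ^ 2 * (A * lv d κ ρ (n0 + 1) j) /
    (ρ ^ 5 * (κ ^ 2 * ρ ^ (j + 1)))) ≤ 1 / 2
  H4a : Cs * ((L : ℝ) ^ d / (κ ^ 2 * ρ ^ J) ^ 2) ^ (2 ^ g0) *
    (Measure.pi fun _ : T d L => μ).real Gᶜ ≤ 1 / 4 * (A * κ ^ (d - 2)) ^ (2 * 2 ^ g0)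
  H4b : (L : ℝ) ^ d / (κ ^ 2 * ρ ^ J) ^ 2 ≤ (A * κ ^ (d - 2)) ^ 2 * Λ ^ (2 ^ bq)
  H4c : Cs * ((J + 1) * (L : ℝ) ^ d * K0 g0) ≤ 1 / 4 * Λ ^ (2 ^ (bq - 1))

/-- the constant of the off-diagonal bound -/
def GGb (d : ℕ) (Cg : ℝ) : Prop := ∀ (L : ℕ) [NeZero L] (lam c0 η m : ℝ) (V ψ : T d L → ℝ),
    Gd lam c0 η m V ψ → ∀ (κ : ℝ), 0 < κ → ∀ n0 : ℕ, (1 / 2 : ℝ) ^ n0 ≤ κ →
    ∀ ρ : ℝ, 0 < ρ → ρ ≤ 1 → ∀ (j : ℕ) (B : ℝ),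
    (∀ (i : ℕ), i ≤ j → ∀ x, XX lam (zz c0 (κ ^ 2) (κ ^ 2 * ρ ^ i)) x V ≤ B) → ∀ x y,
    ‖GG lam (zz c0 (κ ^ 2) (κ ^ 2 * ρ ^ j)) x y V‖ ≤ Cg * (n0 + 1) + 2 / ρ * ((j + 1) * B)

/-- the constant of the initial bound -/
def INb (d : ℕ) (A : ℝ) : Prop := ∀ (L : ℕ) [NeZero L] (lam c0 η m : ℝ) (V ψ : T d L → ℝ),
    Gd lam c0 η m V ψ → ∀ (x : T d L) (κ : ℝ), 0 < κ → ∀ n0 : ℕ, (1 / 2 : ℝ) ^ n0 ≤ κ →
    XX lam (zz c0 (κ ^ 2) (κ ^ 2)) x V ≤ A * (κ ^ 2 * (n0 + 1))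

theorem consts_exist (d : ℕ) (hd : 4 ≤ d) (g0 : ℕ) : ∃ Cg Cs A : ℝ, 1 ≤ Cg ∧ 1 ≤ Cs ∧
    10000 ≤ A ∧ MX d ≤ A ∧ GGb d Cg ∧ INb d A ∧ RCb d Cs g0 := by
  obtain ⟨Cg, hCg, h1⟩ := GG_bound d hd
  obtain ⟨Ci, hCi, h2⟩ := XX_ini d hd
  obtain ⟨-, Cs, -, -, hCs, -, -, -, -, hRC⟩ := ND.consts_exist d (by omega) g0
  refine ⟨Cg, Cs, max (max 10000 (MX d)) Ci, hCg, hCs,
    (le_max_left _ _).trans (le_max_left _ _), (le_max_right _ _).trans (le_max_left _ _), h1, ?_,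
    hRC⟩
  intro L _ lam c0 η m V ψ h x κ hκ n0 hn0
  refine (h2 L lam c0 η m V ψ h x κ hκ n0 hn0).trans ?_
  gcongr
  exact le_max_right _ _

section
variable {d L : ℕ} [NeZero L] {μ : Measure ℝ} [IsProbabilityMeasure μ] {Cg Cs A : ℝ}
  {g0 bq J n0 : ℕ} {lam c0 θ mg κ ρ Λ ϑ δ T' s : ℝ} {G : Set (T d L → ℝ)}

/-- the good potentials at scale `j` -/
def Oj (lam c0 κ ρ : ℝ) (B : ℕ → ℝ) (G : Set (T d L → ℝ)) (j : ℕ) : Set (T d L → ℝ) :=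
  {V | V ∈ G ∧ ∀ i ∈ Finset.range (j + 1), ∀ x, XX lam (ze c0 κ ρ i) x V ≤ B i}

theorem Oj_meas (hκ : 0 < κ) (hρ : 0 < ρ) (B : ℕ → ℝ) (hG : MeasurableSet G) (j : ℕ) :
    MeasurableSet (Oj lam c0 κ ρ B G j) := by
  have e : Oj lam c0 κ ρ B G j = G ∩ ⋂ i ∈ Finset.range (j + 1), ⋂ x : T d L,
      {V | XX lam (ze c0 κ ρ i) x V ≤ B i} := by
    ext V
    simp only [Oj, Set.mem_inter_iff, Set.mem_iInter]
    exact Iff.rfl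
  rw [e]
  refine hG.inter (Finset.measurableSet_biInter _ fun i _ => MeasurableSet.iInter fun x => ?_)
  exact measurableSet_le (XX_cont lam (ze_pos hκ hρ i).ne' x).measurable measurable_const

/-- the probability of the bad potentials -/
theorem Oj_prob (l : ℕ → ℝ) (hl : ∀ i, 0 < l i) (hκ : 0 < κ) (hρ : 0 < ρ) (hΛ : 1 ≤ Λ) (hG : MeasurableSet G)
    (j : ℕ) (hj : j ≤ J)
    (hI : ∀ i ≤ j, ∫ V, XX lam (ze c0 κ ρ i) 0 V ^ (3 * 2 ^ (g0 - bq * i))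
      ∂(Measure.pi fun _ : T d L => μ) ≤ K0 g0 * l i ^ (3 * 2 ^ (g0 - bq * i))) :
    (Measure.pi fun _ : T d L => μ).real (Oj lam c0 κ ρ (fun i => Λ * l i) G j)ᶜ ≤
      (Measure.pi fun _ : T d L => μ).real Gᶜ +
        (J + 1) * (L : ℝ) ^ d * K0 g0 / Λ ^ (3 * 2 ^ (g0 - bq * j)) := by
  set P : Measure (T d L → ℝ) := Measure.pi fun _ : T d L => μ with hP
  set O := Oj lam c0 κ ρ (fun i => Λ * l i) G j with hO
  have hOm : MeasurableSet O := Oj_meas hκ hρ _ hG j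
  have hΛ0 : 0 < Λ := by linarith
  have hB : ∀ i, 0 < Λ * l i := fun i => by
    have := hl i
    positivity
  have hK := K0_ge g0
  have hpt : ∀ V : T d L → ℝ, Oᶜ.indicator (fun _ => (1 : ℝ)) V ≤
      Gᶜ.indicator (fun _ => (1 : ℝ)) V + ∑ i ∈ Finset.range (j + 1), ∑ x : T d L,
        (1 / (Λ * l i) ^ (3 * 2 ^ (g0 - bq * i))) * XX lam (ze c0 κ ρ i) x V ^ (3 * 2 ^ (g0 - bq * i)) := by
    intro V
    have hX : ∀ i (x : T d L), 0 ≤ XX lam (ze c0 κ ρ i) x V :=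
      fun i x => XX_nonneg lam (ze_pos hκ hρ i) x V
    have hterm : ∀ i (x : T d L), 0 ≤ (1 / (Λ * l i) ^ (3 * 2 ^ (g0 - bq * i))) *
        XX lam (ze c0 κ ρ i) x V ^ (3 * 2 ^ (g0 - bq * i)) := fun i x => by
      have := hX i x
      have := hB i
      positivity
    have hs : 0 ≤ ∑ i ∈ Finset.range (j + 1), ∑ x : T d L,
        (1 / (Λ * l i) ^ (3 * 2 ^ (g0 - bq * i))) * XX lam (ze c0 κ ρ i) x V ^ (3 * 2 ^ (g0 - bq * i)) :=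
      Finset.sum_nonneg fun i _ => Finset.sum_nonneg fun x _ => hterm i x
    by_cases hV : V ∈ O
    · rw [Set.indicator_of_notMem (by simpa using hV)]
      have : 0 ≤ Gᶜ.indicator (fun _ => (1 : ℝ)) V := Set.indicator_nonneg (fun _ _ => zero_le_one) V
      linarith
    · rw [Set.indicator_of_mem (show V ∈ Oᶜ from hV)]
      by_cases hVG : V ∈ G
      · have h1 : ∃ i ∈ Finset.range (j + 1), ∃ x, Λ * l i < XX lam (ze c0 κ ρ i) x V := by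
          by_contra hcon
          push Not at hcon
          exact hV ⟨hVG, hcon⟩
        obtain ⟨i, hi, x, hx⟩ := h1
        have h2 : 1 ≤ (1 / (Λ * l i) ^ (3 * 2 ^ (g0 - bq * i))) *
            XX lam (ze c0 κ ρ i) x V ^ (3 * 2 ^ (g0 - bq * i)) := by
          have hBi := hB i
          rw [one_div, inv_mul_eq_div, one_le_div (by positivity)]
          exact pow_le_pow_left₀ hBi.le hx.le _
        have h3 : (1 / (Λ * l i) ^ (3 * 2 ^ (g0 - bq * i))) *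
            XX lam (ze c0 κ ρ i) x V ^ (3 * 2 ^ (g0 - bq * i)) ≤ ∑ x : T d L,
            (1 / (Λ * l i) ^ (3 * 2 ^ (g0 - bq * i))) *
              XX lam (ze c0 κ ρ i) x V ^ (3 * 2 ^ (g0 - bq * i)) :=
          Finset.single_le_sum (f := fun x => (1 / (Λ * l i) ^ (3 * 2 ^ (g0 - bq * i))) *
            XX lam (ze c0 κ ρ i) x V ^ (3 * 2 ^ (g0 - bq * i))) (fun x _ => hterm i x)
            (Finset.mem_univ x)
        have h4 : ∑ x : T d L, (1 / (Λ * l i) ^ (3 * 2 ^ (g0 - bq * i))) *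
              XX lam (ze c0 κ ρ i) x V ^ (3 * 2 ^ (g0 - bq * i)) ≤
            ∑ i ∈ Finset.range (j + 1), ∑ x : T d L,
            (1 / (Λ * l i) ^ (3 * 2 ^ (g0 - bq * i))) *
              XX lam (ze c0 κ ρ i) x V ^ (3 * 2 ^ (g0 - bq * i)) :=
          Finset.single_le_sum (f := fun i => ∑ x : T d L,
            (1 / (Λ * l i) ^ (3 * 2 ^ (g0 - bq * i))) *
              XX lam (ze c0 κ ρ i) x V ^ (3 * 2 ^ (g0 - bq * i)))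
            (fun i _ => Finset.sum_nonneg fun x _ => hterm i x) hi
        have : 0 ≤ Gᶜ.indicator (fun _ => (1 : ℝ)) V :=
          Set.indicator_nonneg (fun _ _ => zero_le_one) V
        linarith
      · rw [Set.indicator_of_mem (show V ∈ Gᶜ from hVG)]
        linarith
  have i1 : Integrable (Oᶜ.indicator fun _ : T d L → ℝ => (1 : ℝ)) P :=
    (integrable_const _).indicator hOm.compl
  have i2 : Integrable (Gᶜ.indicator fun _ : T d L → ℝ => (1 : ℝ)) P :=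
    (integrable_const _).indicator hG.compl
  have i3 : ∀ i (x : T d L), Integrable (fun V => (1 / (Λ * l i) ^ (3 * 2 ^ (g0 - bq * i))) *
      XX lam (ze c0 κ ρ i) x V ^ (3 * 2 ^ (g0 - bq * i))) P := fun i x =>
    (XX_pow_int μ lam (ze_pos hκ hρ i) x _).const_mul _
  have i4 : ∀ i, Integrable (fun V => ∑ x : T d L, (1 / (Λ * l i) ^ (3 * 2 ^ (g0 - bq * i))) *
      XX lam (ze c0 κ ρ i) x V ^ (3 * 2 ^ (g0 - bq * i))) P := fun i =>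
    integrable_finsetSum _ fun x _ => i3 i x
  have i5 : Integrable (fun V => ∑ i ∈ Finset.range (j + 1), ∑ x : T d L,
      (1 / (Λ * l i) ^ (3 * 2 ^ (g0 - bq * i))) *
      XX lam (ze c0 κ ρ i) x V ^ (3 * 2 ^ (g0 - bq * i))) P := integrable_finsetSum _ fun i _ => i4 i
  have h1 := integral_mono i1 (i2.add i5) hpt
  have e1 : ∀ S : Set (T d L → ℝ), MeasurableSet S →
      ∫ V, S.indicator (fun _ => (1 : ℝ)) V ∂P = P.real S := by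
    intro S hS
    rw [integral_indicator hS, setIntegral_const, smul_eq_mul, mul_one]
  have e2 := integral_add i2 i5
  rw [e1 _ hOm.compl] at h1
  refine h1.trans (le_trans (le_of_eq e2) ?_)
  rw [e1 _ hG.compl, integral_finsetSum _ fun i _ => i4 i]
  have h2 : ∀ i ∈ Finset.range (j + 1), ∫ V, (∑ x : T d L,
      (1 / (Λ * l i) ^ (3 * 2 ^ (g0 - bq * i))) *
      XX lam (ze c0 κ ρ i) x V ^ (3 * 2 ^ (g0 - bq * i))) ∂P ≤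
      (L : ℝ) ^ d * (K0 g0 / Λ ^ (3 * 2 ^ (g0 - bq * j))) := by
    intro i hi
    have hij : i ≤ j := by have := Finset.mem_range.1 hi; omega
    rw [integral_finsetSum _ fun x _ => i3 i x]
    have h3 : ∀ x : T d L, ∫ V, (1 / (Λ * l i) ^ (3 * 2 ^ (g0 - bq * i))) *
        XX lam (ze c0 κ ρ i) x V ^ (3 * 2 ^ (g0 - bq * i)) ∂P ≤ K0 g0 / Λ ^ (3 * 2 ^ (g0 - bq * j)) := by
      intro x
      rw [integral_const_mul, XX_trans_int lam (ze_pos hκ hρ i).ne']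
      have hli := hl i
      calc 1 / (Λ * l i) ^ (3 * 2 ^ (g0 - bq * i)) *
            ∫ V, XX lam (ze c0 κ ρ i) 0 V ^ (3 * 2 ^ (g0 - bq * i)) ∂P ≤
          1 / (Λ * l i) ^ (3 * 2 ^ (g0 - bq * i)) *
            (K0 g0 * l i ^ (3 * 2 ^ (g0 - bq * i))) := by
            gcongr
            exact hI i hij
        _ = K0 g0 / Λ ^ (3 * 2 ^ (g0 - bq * i)) := by
            rw [mul_pow]
            field_simp
        _ ≤ _ := by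
            have hbi : bq * i ≤ bq * j := Nat.mul_le_mul_left _ hij
            have : 2 ^ (g0 - bq * j) ≤ 2 ^ (g0 - bq * i) :=
              Nat.pow_le_pow_right (by norm_num) (by omega)
            gcongr
    refine (Finset.sum_le_sum fun x _ => h3 x).trans (le_of_eq ?_)
    rw [Finset.sum_const, Finset.card_univ, nsmul_eq_mul, card_TdL]
  have h4 := Finset.sum_le_sum h2
  rw [Finset.sum_const, Finset.card_range, nsmul_eq_mul] at h4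
  have h5 : ((j + 1 : ℕ) : ℝ) * ((L : ℝ) ^ d * (K0 g0 / Λ ^ (3 * 2 ^ (g0 - bq * j)))) ≤
      (J + 1) * (L : ℝ) ^ d * K0 g0 / Λ ^ (3 * 2 ^ (g0 - bq * j)) := by
    have h6 : ((j + 1 : ℕ) : ℝ) ≤ (J : ℝ) + 1 := by exact_mod_cast Nat.succ_le_succ hj
    have hL := L_pos (L := L)
    calc ((j + 1 : ℕ) : ℝ) * ((L : ℝ) ^ d * (K0 g0 / Λ ^ (3 * 2 ^ (g0 - bq * j)))) ≤
        ((J : ℝ) + 1) * ((L : ℝ) ^ d * (K0 g0 / Λ ^ (3 * 2 ^ (g0 - bq * j)))) := by gcongr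
      _ = _ := by ring
  linarith

end

end Pool.Agent.V8H95.LE
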