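import Pool.Agent.V8H95.LE.Boot

/-!
The descent in the imaginary part of the energy at low energies: the induction.
-/

set_option autoImplicit false
set_option linter.unusedSectionVars false
set_option linter.unusedVariables false

open Complex MeasureTheory
open scoped BigOperators ComplexConjugate

namespace Pool.Agent.V8H95.LE

open Pool.Agent.H4R2.AE Pool.Agent.V8H99.AD Pool.Agent.V8H95.MF Pool.Agent.V8H95.BW
open Pool.Agent.V8H95.EF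
open Pool.Agent.V8H95.NM hiding spec ze ze_im ze_pos XX_trans_int interp center RCb VarAt
open Pool.Agent.V8H95.ND (MX spec DD ze ze_im ze_pos XX_trans_int interp center RCb VarAt)

section
variable {d L : ℕ} [NeZero L] {μ : Measure ℝ} [IsProbabilityMeasure μ] {Cg Cs A : ℝ}
  {g0 bq J n0 : ℕ} {lam c0 θ mg κ ρ Λ ϑ δ T' s : ℝ} {G : Set (T d L → ℝ)}

theorem kap_le (h : Bl μ Cg Cs A g0 bq J n0 lam c0 θ mg κ ρ Λ ϑ δ T' s G) (hA : 10000 ≤ A) :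
    κ ≤ 1 / 10000 := by
  have h1 := h.k0
  have h2 := h.k1
  rw [le_div_iff₀ (by norm_num)]
  nlinarith

/-- the first scale -/
theorem base (h : Bl μ Cg Cs A g0 bq J n0 lam c0 θ mg κ ρ Λ ϑ δ T' s G) (hA : 10000 ≤ A) (hIN : INb d A) :
    ∫ V, XX lam (ze c0 κ ρ 0) 0 V ^ (3 * 2 ^ g0) ∂(Measure.pi fun _ : T d L => μ) ≤
      K0 g0 * (A * lv d κ ρ (n0 + 1) 0) ^ (3 * 2 ^ g0) := by
  set P : Measure (T d L → ℝ) := Measure.pi fun _ : T d L => μ with hP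
  set n : ℕ := 3 * 2 ^ g0 with hn
  have hκ := h.k0
  have hz := ze_pos (c0 := c0) hκ h.r0 0
  have hzi : (ze c0 κ ρ 0).im = κ ^ 2 := by rw [ze_im, pow_zero, mul_one]
  have hΓ : (1 : ℝ) ≤ (n0 : ℝ) + 1 := by
    have : (0 : ℝ) ≤ (n0 : ℝ) := Nat.cast_nonneg n0
    linarith
  have hlv := lv_pos (d := d) hκ h.r0 (by linarith : (0 : ℝ) < (n0 : ℝ) + 1) 0
  have hA0 : 0 < A := by linarith
  obtain ⟨b, hb⟩ : ∃ b, b = A * lv d κ ρ (n0 + 1) 0 := ⟨_, rfl⟩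
  have hb0 : 0 < b := by rw [hb]; positivity
  have hκb : κ ^ 2 ≤ b := by
    rw [hb]
    unfold lv
    rw [pow_zero, mul_one]
    have h1 : 0 < κ ^ (d - 2) := by positivity
    have h2 : 0 < κ ^ 2 := by positivity
    have h3 : κ ^ 2 ≤ κ ^ 2 * ((n0 : ℝ) + 1) := by nlinarith
    nlinarith
  rw [← hb]
  have i1 : Integrable (Gᶜ.indicator fun _ : T d L → ℝ => (1 / κ ^ 2) ^ n) P :=
    (integrable_const _).indicator h.meas.compl
  have hpt : ∀ V : T d L → ℝ, XX lam (ze c0 κ ρ 0) 0 V ^ n ≤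
      b ^ n + Gᶜ.indicator (fun _ => (1 / κ ^ 2) ^ n) V := by
    intro V
    have hx := XX_nonneg lam hz 0 V
    by_cases hV : V ∈ G
    · rw [Set.indicator_of_notMem (by simpa using hV), add_zero]
      obtain ⟨ψ, hψ⟩ := h.good V hV
      apply pow_le_pow_left₀ hx
      have h1 := hIN L lam c0 θ mg V ψ hψ 0 κ hκ n0 h.nk
      unfold ze
      rw [pow_zero, mul_one]
      refine h1.trans ?_
      rw [hb]
      unfold lv
      rw [pow_zero, mul_one]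
      have h2 : 0 < κ ^ (d - 2) := by positivity
      gcongr
      linarith
    · rw [Set.indicator_of_mem (show V ∈ Gᶜ from hV)]
      have h1 := pow_le_pow_left₀ hx (XX_le lam hz 0 V) n
      rw [hzi] at h1
      have : 0 ≤ b ^ n := by positivity
      linarith
  have h1 := integral_mono (XX_pow_int μ lam hz 0 n) ((integrable_const _).add i1) hpt
  have e1 := integral_add (integrable_const (μ := P) (b ^ n)) i1
  refine h1.trans (le_trans (le_of_eq e1) ?_)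
  rw [integral_indicator h.meas.compl, setIntegral_const, smul_eq_mul]
  have e2 : ∫ _V, b ^ n ∂P = b ^ n := by simp
  rw [e2]
  have h2 : P.real Gᶜ * (1 / κ ^ 2) ^ n ≤ b ^ n := by
    have h3 := h.H0
    rw [← hP] at h3
    have e3 : κ ^ (12 * 2 ^ g0) = (κ ^ 2) ^ n * (κ ^ 2) ^ n := by
      rw [← pow_mul, ← pow_add]
      congr 1
      rw [hn]
      ring
    rw [e3] at h3
    calc P.real Gᶜ * (1 / κ ^ 2) ^ n ≤ ((κ ^ 2) ^ n * (κ ^ 2) ^ n) * (1 / κ ^ 2) ^ n := by gcongr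
      _ = (κ ^ 2) ^ n := by rw [one_div, inv_pow]; field_simp
      _ ≤ b ^ n := by gcongr
  have h3 := K0_ge g0
  have h4 : 0 ≤ b ^ n := by positivity
  nlinarith

/-- facts on the levels -/
theorem lv_fact (h : Bl μ Cg Cs A g0 bq J n0 lam c0 θ mg κ ρ Λ ϑ δ T' s G) (hA : 10000 ≤ A)
    (j : ℕ) : 0 < A * lv d κ ρ (n0 + 1) j ∧ A * lv d κ ρ (n0 + 1) j ≤ A * κ ∧
      A * κ ^ (d - 2) ≤ A * lv d κ ρ (n0 + 1) j := by
  have hκ := h.k0
  have hΓ : (1 : ℝ) ≤ (n0 : ℝ) + 1 := by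
    have : (0 : ℝ) ≤ (n0 : ℝ) := Nat.cast_nonneg n0
    linarith
  have hA0 : 0 < A := by linarith
  have h1 := lv_pos (d := d) hκ h.r0 (by linarith : (0 : ℝ) < (n0 : ℝ) + 1) j
  have h2 := lv_le h.d4 hκ (by have := kap_le h hA; linarith) h.r0 h.r1 hΓ h.kn j
  have h3 := lv_ge (d := d) hκ h.r0 (by linarith : (0 : ℝ) < (n0 : ℝ) + 1) j
  refine ⟨by positivity, by gcongr, by gcongr⟩

theorem eta_le (h : Bl μ Cg Cs A g0 bq J n0 lam c0 θ mg κ ρ Λ ϑ δ T' s G) (j : ℕ) (hj : j ≤ J) :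
    κ ^ 2 * ρ ^ J ≤ (ze c0 κ ρ j).im := by
  rw [ze_im]
  have := h.k0
  have := h.r0
  have : ρ ^ J ≤ ρ ^ j := pow_le_pow_of_le_one h.r0.le h.r1 hj
  gcongr

/-- the good event works at the next scale -/
theorem om_next (h : Bl μ Cg Cs A g0 bq J n0 lam c0 θ mg κ ρ Λ ϑ δ T' s G) (hA : 10000 ≤ A)
    (hGG : GGb d Cg) (j : ℕ) (hj : j + 1 ≤ J) (V : T d L → ℝ)
    (hV : V ∈ Oj lam c0 κ ρ (fun i => Λ * (A * lv d κ ρ (n0 + 1) i)) G j) :
    Om lam (ze c0 κ ρ (j + 1)) V ∧ (∀ x, |V x| ≤ 1) ∧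
    (∀ y, lam * ‖GG lam (ze c0 κ ρ (j + 1)) y y V‖ ≤ 1 / 4) ∧
    ∀ y, XX lam (ze c0 κ ρ (j + 1)) y V ≤ Λ * (A * lv d κ ρ (n0 + 1) j) / ρ := by
  obtain ⟨hVG, hVO⟩ := hV
  obtain ⟨ψ, hψ⟩ := h.good V hVG
  have hκ := h.k0
  have hρ := h.r0
  have hΛ := h.L1
  have hA0 : 0 < A := by linarith
  have hB : Λ * (A * κ) ≤ Λ * (A * κ) / ρ := by
    rw [le_div_iff₀ hρ]
    have : 0 ≤ Λ * (A * κ) := by positivity
    nlinarith [h.r1]
  have hlast : ∀ w, XX lam (ze c0 κ ρ (j + 1)) w V ≤ Λ * (A * lv d κ ρ (n0 + 1) j) / ρ := by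
    intro w
    have h2 := XX_mono lam c0 (κ ^ 2) w V (κ ^ 2 * ρ ^ j) (κ ^ 2 * ρ ^ (j + 1)) (by positivity)
      (by
        have : ρ ^ (j + 1) ≤ ρ ^ j := pow_le_pow_of_le_one hρ.le h.r1 (by omega)
        gcongr)
    refine h2.trans ?_
    have e1 : κ ^ 2 * ρ ^ j / (κ ^ 2 * ρ ^ (j + 1)) = 1 / ρ := by
      field_simp
      ring
    rw [e1]
    have h3 := hVO j (Finset.mem_range.2 (by omega)) w
    calc 1 / ρ * XX lam (zz c0 (κ ^ 2) (κ ^ 2 * ρ ^ j)) w V ≤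
        1 / ρ * (Λ * (A * lv d κ ρ (n0 + 1) j)) := by
          gcongr
          exact h3
      _ = _ := by ring
  have hall : ∀ (i : ℕ), i ≤ j + 1 → ∀ w,
      XX lam (zz c0 (κ ^ 2) (κ ^ 2 * ρ ^ i)) w V ≤ Λ * (A * κ) / ρ := by
    intro i hi w
    rcases Nat.lt_or_ge i (j + 1) with hlt | hge
    · refine ((hVO i (Finset.mem_range.2 hlt) w).trans ?_).trans hB
      have := (lv_fact h hA i).2.1
      show Λ * (A * lv d κ ρ (n0 + 1) i) ≤ Λ * (A * κ)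
      gcongr
    · have hi' : i = j + 1 := le_antisymm hi hge
      subst hi'
      refine (hlast w).trans ?_
      have := (lv_fact h hA j).2.1
      gcongr
  have hG4 : ∀ x y, lam * ‖GG lam (ze c0 κ ρ (j + 1)) x y V‖ ≤ 1 / 4 := by
    intro x y
    have h1 := hGG L lam c0 θ mg V ψ hψ κ hκ n0 h.nk ρ hρ h.r1 (j + 1) (Λ * (A * κ) / ρ) hall x y
    refine le_trans ?_ h.H1
    have hlam := h.lam0
    apply mul_le_mul_of_nonneg_left _ hlam
    refine h1.trans ?_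
    have h4 : ((j + 1 : ℕ) : ℝ) + 1 ≤ (J : ℝ) + 2 := by
      have : ((j + 1 : ℕ) : ℝ) ≤ J := by exact_mod_cast hj
      linarith
    gcongr
  refine ⟨⟨hψ.hV, fun x y => ?_⟩, hψ.hV, fun y => hG4 y y, hlast⟩
  have := hG4 x y
  linarith

/-- moments at the next scale -/
theorem next_mom (h : Bl μ Cg Cs A g0 bq J n0 lam c0 θ mg κ ρ Λ ϑ δ T' s G) (hA : 10000 ≤ A) (j : ℕ)
    (n : ℕ) (K c : ℝ)
    (hI : ∫ V, XX lam (ze c0 κ ρ j) 0 V ^ n ∂(Measure.pi fun _ : T d L => μ) ≤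
      K * c ^ n) :
    ∫ V, XX lam (ze c0 κ ρ (j + 1)) 0 V ^ n ∂(Measure.pi fun _ : T d L => μ) ≤
      (1 / ρ) ^ n * (K * c ^ n) := by
  have hκ := h.k0
  have hρ := h.r0
  have hz := ze_pos (c0 := c0) hκ hρ j
  have hz' := ze_pos (c0 := c0) hκ hρ (j + 1)
  calc ∫ V, XX lam (ze c0 κ ρ (j + 1)) 0 V ^ n ∂(Measure.pi fun _ : T d L => μ) ≤
      ∫ V, (1 / ρ) ^ n * XX lam (ze c0 κ ρ j) 0 V ^ n ∂(Measure.pi fun _ : T d L => μ) := by
        refine integral_mono (XX_pow_int μ lam hz' 0 n) ((XX_pow_int μ lam hz 0 n).const_mul _)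
          fun V => ?_
        show XX lam (ze c0 κ ρ (j + 1)) 0 V ^ n ≤ (1 / ρ) ^ n * XX lam (ze c0 κ ρ j) 0 V ^ n
        rw [← mul_pow]
        apply pow_le_pow_left₀ (XX_nonneg lam hz' 0 V)
        have h2 := XX_mono lam c0 (κ ^ 2) (0 : T d L) V (κ ^ 2 * ρ ^ j) (κ ^ 2 * ρ ^ (j + 1))
          (by positivity) (by
            have : ρ ^ (j + 1) ≤ ρ ^ j := pow_le_pow_of_le_one hρ.le h.r1 (by omega)
            gcongr)
        have e1 : κ ^ 2 * ρ ^ j / (κ ^ 2 * ρ ^ (j + 1)) = 1 / ρ := by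
          field_simp
          ring
        rw [e1] at h2
        exact h2
    _ = (1 / ρ) ^ n * ∫ V, XX lam (ze c0 κ ρ j) 0 V ^ n ∂(Measure.pi fun _ : T d L => μ) :=
        integral_const_mul _ _
    _ ≤ _ := by gcongr

/-- the variance at the next scale -/
theorem next_var (h : Bl μ Cg Cs A g0 bq J n0 lam c0 θ mg κ ρ Λ ϑ δ T' s G) (hA : 10000 ≤ A)
    (hGG : GGb d Cg) (j : ℕ) (hj : j + 1 ≤ J)
    (hI : ∀ i ≤ j, ∫ V, XX lam (ze c0 κ ρ i) 0 V ^ (3 * 2 ^ (g0 - bq * i))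
      ∂(Measure.pi fun _ : T d L => μ) ≤
      K0 g0 * (A * lv d κ ρ (n0 + 1) i) ^ (3 * 2 ^ (g0 - bq * i))) :
    VarAt d L μ lam (ze c0 κ ρ (j + 1)) s T' := by
  intro u
  set P : Measure (T d L → ℝ) := Measure.pi fun _ : T d L => μ with hP
  have hκ := h.k0
  have hρ := h.r0
  have hΛ := h.L1
  have hΛ0 : 0 < Λ := by linarith
  have hA0 : 0 < A := by linarith
  have hK := K0_ge g0
  obtain ⟨hb0, hb1, hb2⟩ := lv_fact h hA j
  have hz' := ze_pos (c0 := c0) hκ hρ (j + 1)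
  have hL := L_pos (L := L)
  set z := ze c0 κ ρ (j + 1) with hz
  set η := κ ^ 2 * ρ ^ J with hη
  have hη0 : 0 < η := by positivity
  have hηz : η ≤ z.im := eta_le h (j + 1) hj
  set O := Oj lam c0 κ ρ (fun i => Λ * (A * lv d κ ρ (n0 + 1) i)) G j with hO
  have hOm : MeasurableSet O := Oj_meas hκ hρ _ h.meas j
  have hbj : bq * j + bq ≤ bq * J := by
    have := Nat.mul_le_mul_left bq hj
    rwa [Nat.mul_add, Nat.mul_one] at this
  have hJ0 := h.hJ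
  have hbg : 2 ^ bq ≤ 2 ^ (g0 - bq * j) := Nat.pow_le_pow_right (by norm_num) (by omega)
  have hOp : P.real Oᶜ ≤ δ := by
    refine (Oj_prob (J := J) (fun i => A * lv d κ ρ (n0 + 1) i) (fun i => (lv_fact h hA i).1) hκ hρ hΛ
      h.meas j (by omega) hI).trans (le_trans ?_ h.hδ)
    have h3 : 0 < (J + 1) * (L : ℝ) ^ d * K0 g0 := by positivity
    have h4 : Λ ^ (3 * 2 ^ bq) ≤ Λ ^ (3 * 2 ^ (g0 - bq * j)) := pow_le_pow_right₀ hΛ (by omega)
    have h5 : (J + 1) * (L : ℝ) ^ d * K0 g0 / Λ ^ (3 * 2 ^ (g0 - bq * j)) ≤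
        (J + 1) * (L : ℝ) ^ d * K0 g0 / Λ ^ (3 * 2 ^ bq) := by gcongr
    linarith
  set n : ℕ := 3 * 2 ^ (g0 - bq * j) with hn
  obtain ⟨p, hp⟩ : ∃ p : ℕ, n = p + 1 := ⟨n - 1, by
    have : 0 < n := by positivity
    omega⟩
  have hmom := next_mom h hA j n (K0 g0) (A * lv d κ ρ (n0 + 1) j) (hI j le_rfl)
  obtain ⟨b, hb⟩ : ∃ b, b = A * lv d κ ρ (n0 + 1) j := ⟨_, rfl⟩
  rw [← hb] at hmom hb0 hb1 hb2
  set B := Λ * b / ρ ^ 2 with hB
  have hB0 : 0 < B := by positivity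
  have key := var_u μ lam h.lam0 hz' O hOm (fun V hV => (om_next h hA hGG j hj V hV).1) u B hB0 p
  rw [← hp, ← hP] at key
  refine key.trans ?_
  have hW : 1 / B ^ p * ∫ V, XX lam z 0 V ^ n ∂P ≤ B * K0 g0 / Λ ^ (3 * 2 ^ bq) := by
    have h1 : 1 / B ^ p * ∫ V, XX lam z 0 V ^ n ∂P ≤
        1 / B ^ p * ((1 / ρ) ^ n * (K0 g0 * b ^ n)) := by gcongr
    refine h1.trans ?_
    have h2 : 1 / B ^ p * ((1 / ρ) ^ n * (K0 g0 * b ^ n)) = B * K0 g0 * (ρ / Λ) ^ n := by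
      have e1 : 1 / B ^ p = B * (1 / B ^ n) := by
        rw [hp, pow_succ]
        field_simp
      rw [e1, hB, div_pow, div_pow, mul_pow, div_pow, one_pow]
      field_simp
      ring
    rw [h2]
    have h3 : (ρ / Λ) ^ n ≤ 1 / Λ ^ (3 * 2 ^ bq) := by
      rw [div_pow]
      have h5 : Λ ^ (3 * 2 ^ bq) ≤ Λ ^ n := pow_le_pow_right₀ hΛ (by omega)
      have h6 : ρ ^ n ≤ 1 := pow_le_one₀ hρ.le h.r1
      calc ρ ^ n / Λ ^ n ≤ 1 / Λ ^ n := by gcongr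
        _ ≤ _ := by gcongr
    calc B * K0 g0 * (ρ / Λ) ^ n ≤ B * K0 g0 * (1 / Λ ^ (3 * 2 ^ bq)) := by gcongr
      _ = _ := by ring
  set W := B * K0 g0 / Λ ^ (3 * 2 ^ bq) with hWd
  have hW0 : 0 ≤ W := by positivity
  set X := ∫ V, ‖GT lam V z u‖ ^ 2 ∂P with hX
  have hX0 : 0 ≤ X := integral_nonneg fun V => by positivity
  have hpO : 0 ≤ P.real Oᶜ := measureReal_nonneg
  have hHT : 4 * lam ^ 2 / η * ((L : ℝ) ^ d / η ^ 2 * W) + 4 * (L : ℝ) ^ d / η ^ 2 * δ ≤ T' := by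
    refine le_trans ?_ h.HT
    rw [← hη, hWd, hB]
    gcongr
  have hHs := h.Hs j hj
  rw [← hb, ← hB] at hHs
  have hzim : z.im = κ ^ 2 * ρ ^ (j + 1) := ze_im _ _ _ _
  rw [← hzim] at hHs
  have a1 : 4 * lam ^ 2 / z.im * (B * X + (L : ℝ) ^ d * (‖u‖ / z.im) ^ 2 *
      (1 / B ^ p * ∫ V, XX lam z 0 V ^ n ∂P)) ≤
      s * X + 4 * lam ^ 2 / η * ((L : ℝ) ^ d * (‖u‖ / η) ^ 2 * W) := by
    have h0 : 0 ≤ 1 / B ^ p * ∫ V, XX lam z 0 V ^ n ∂P := by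
      have : 0 ≤ ∫ V, XX lam z 0 V ^ n ∂P :=
        integral_nonneg fun V => pow_nonneg (XX_nonneg lam hz' 0 V) _
      positivity
    have g1 : 4 * lam ^ 2 / z.im * (B * X) ≤ s * X := by
      calc 4 * lam ^ 2 / z.im * (B * X) = 4 * lam ^ 2 * B / z.im * X := by ring
        _ ≤ s * X := by gcongr
    have g2 : 4 * lam ^ 2 / z.im * ((L : ℝ) ^ d * (‖u‖ / z.im) ^ 2 *
        (1 / B ^ p * ∫ V, XX lam z 0 V ^ n ∂P)) ≤
        4 * lam ^ 2 / η * ((L : ℝ) ^ d * (‖u‖ / η) ^ 2 * W) := by gcongr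
    rw [mul_add]
    exact add_le_add g1 g2
  have a2 : (L : ℝ) ^ d * (2 * (‖u‖ / z.im)) ^ 2 * P.real Oᶜ ≤
      (L : ℝ) ^ d * (2 * (‖u‖ / η)) ^ 2 * δ := by
    gcongr
  calc _ ≤ s * X + 4 * lam ^ 2 / η * ((L : ℝ) ^ d * (‖u‖ / η) ^ 2 * W) +
        (L : ℝ) ^ d * (2 * (‖u‖ / η)) ^ 2 * δ := add_le_add a1 a2
    _ = s * X + (4 * lam ^ 2 / η * ((L : ℝ) ^ d / η ^ 2 * W) +
        4 * (L : ℝ) ^ d / η ^ 2 * δ) * ‖u‖ ^ 2 := by
        field_simp
        ring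
    _ ≤ _ := by gcongr

/-- the assumptions for the mean at the next scale -/
theorem next_cx (h : Bl μ Cg Cs A g0 bq J n0 lam c0 θ mg κ ρ Λ ϑ δ T' s G) (hA : 10000 ≤ A) (j : ℕ)
    (hj : j ≤ J) (hvar : VarAt d L μ lam (ze c0 κ ρ j) s T') :
    Cx μ lam c0 θ mg G (ze c0 κ ρ j) (κ ^ 2) (κ ^ 2 * ρ ^ j) (s + DD d * T') := by
  set P : Measure (T d L → ℝ) := Measure.pi fun _ : T d L => μ with hP
  have hκ := h.k0
  have hρ := h.r0
  have hA0 : 0 < A := by linarith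
  have hΛ := h.L1
  have hK := K0_ge g0
  have hκ4 := kap_le h hA
  have hz' := ze_pos (c0 := c0) hκ hρ j
  have hL3 : 0 < (L : ℝ) ^ d := L_pos'
  set z := ze c0 κ ρ j with hz
  have hη0 : 0 < κ ^ 2 * ρ ^ J := by positivity
  have hηz : κ ^ 2 * ρ ^ J ≤ κ ^ 2 * ρ ^ j := by
    have := eta_le h j hj
    rwa [ze_im] at this
  have hη1 : κ ^ 2 * ρ ^ j ≤ κ ^ 2 := by
    have : ρ ^ j ≤ 1 := pow_le_one₀ hρ.le h.r1
    nlinarith [sq_nonneg κ]
  have hκ1 : κ ^ 2 ≤ 1 := by nlinarith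
  have hθ1 : θ ≤ 1 / 3000 := h.thv.trans h.hv
  have hpG := h.pG
  rw [← hP] at hpG
  have hpG0 : 0 ≤ P.real Gᶜ := measureReal_nonneg
  have hGP : 1 / 2 ≤ P.real G := by
    have h1 : P.real Gᶜ = 1 - P.real G := probReal_compl_eq_one_sub h.meas
    have h20 : P.real Gᶜ * 400 ≤ P.real Gᶜ * (100 * ((d : ℝ) + 1)) := by
      have : (3 : ℝ) ≤ d := by exact_mod_cast (by have := h.d4; omega : 3 ≤ d)
      gcongr
      linarith
    have h2 : P.real Gᶜ * 400 ≤ 1 := by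
      refine (h20.trans hpG).trans ?_
      have h3 : (κ ^ 2 * ρ ^ J) ^ 2 ≤ 1 := pow_le_one₀ hη0.le (by linarith)
      have := h.th0
      calc θ * (κ ^ 2 * ρ ^ J) ^ 2 * κ ^ 2 ≤ 1 * 1 * 1 := by
            gcongr
            linarith
        _ = 1 := by norm_num
    linarith
  have hs0 : 0 ≤ s := h.Hs0
  have hδ0 : 0 ≤ δ := by
    refine le_trans ?_ h.hδ
    have : 0 ≤ (J + 1 : ℝ) * (L : ℝ) ^ d * K0 g0 / Λ ^ (3 * 2 ^ bq) := by positivity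
    linarith
  have hT0 : 0 ≤ T' := by
    refine le_trans ?_ h.HT
    positivity
  have hDD : 0 < DD d := by unfold DD; positivity
  have hDl : ∀ k : T d L, 1 / DD d ≤ Dk μ lam z k := by
    intro k
    have hzn : ‖z‖ ≤ 5 := by
      have h1 := Complex.norm_le_abs_re_add_abs_im z
      have h2 : z.re = c0 + κ ^ 2 := zz_re _ _ _
      rw [h2, hz, ze_im, ← hz] at h1
      have h3 : |c0 + κ ^ 2| ≤ 4 := by
        refine (abs_add_le _ _).trans ?_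
        rw [abs_of_nonneg (sq_nonneg κ)]
        linarith [h.c]
      rw [abs_of_pos (by positivity : (0 : ℝ) < κ ^ 2 * ρ ^ j)] at h1
      linarith
    have h1 := Dk_lower μ lam h.lam0 h.lam1 hz'.ne' k G h.meas (fun V hV x => by
      obtain ⟨ψ, hψ⟩ := h.good V hV
      exact hψ.hV x) hGP (4 * d + 6) (by linarith)
    exact h1
  refine
    { lam0 := h.lam0
      meas := h.meas
      good := h.good
      th0 := h.th0
      th1 := by linarith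
      e0 := by positivity
      e1 := hκ1
      re := zz_re _ _ _
      y0 := by positivity
      y1 := hη1
      im := by rw [ze_im, abs_of_pos (by positivity)]
      s0 := by positivity
      s1 := ?_
      hs := ?_
      m0 := h.m0
      hm := h.hm
      pos := fun k => lt_of_lt_of_le (by positivity) (hDl k)
      pG := ?_ }
  · refine h.H2.trans ?_
    have := h.hv
    have h0 : 0 ≤ ϑ := h.th0.le.trans h.thv
    nlinarith
  · intro k
    have h1 := hvar (pw k)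
    rw [mean_pw μ lam hz'.ne', sk_eq μ lam hz'.ne', D_eq μ lam hz'.ne', pw_norm] at h1
    have h2 : (L : ℝ) ^ d * sk μ lam z k ≤ (L : ℝ) ^ d * (s * Dk μ lam z k + T') := by
      refine h1.trans (le_of_eq (by ring))
    have h3 := le_of_mul_le_mul_left h2 hL3
    have h4 := hDl k
    have h5 : T' ≤ DD d * T' * Dk μ lam z k := by
      calc T' = DD d * T' * (1 / DD d) := by field_simp
        _ ≤ _ := by gcongr
    calc sk μ lam z k ≤ s * Dk μ lam z k + T' := h3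
      _ ≤ s * Dk μ lam z k + DD d * T' * Dk μ lam z k := by gcongr
      _ = _ := by ring
  · calc P.real Gᶜ * (100 * ((d : ℝ) + 1)) ≤ θ * (κ ^ 2 * ρ ^ J) ^ 2 * κ ^ 2 := hpG
      _ ≤ _ := by
          have := h.th0
          gcongr

/-- the induction step for the moments -/
theorem next_I (h : Bl μ Cg Cs A g0 bq J n0 lam c0 θ mg κ ρ Λ ϑ δ T' s G) (hA : 10000 ≤ A)
    (hCs : 1 ≤ Cs) (hGG : GGb d Cg) (hRC : RCb d Cs g0) (j : ℕ) (hj : j + 1 ≤ J)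
    (hI : ∀ i ≤ j, ∫ V, XX lam (ze c0 κ ρ i) 0 V ^ (3 * 2 ^ (g0 - bq * i))
      ∂(Measure.pi fun _ : T d L => μ) ≤
      K0 g0 * (A * lv d κ ρ (n0 + 1) i) ^ (3 * 2 ^ (g0 - bq * i))) :
    ∫ V, XX lam (ze c0 κ ρ (j + 1)) 0 V ^ (3 * 2 ^ (g0 - bq * (j + 1)))
      ∂(Measure.pi fun _ : T d L => μ) ≤
      K0 g0 * (A * lv d κ ρ (n0 + 1) (j + 1)) ^ (3 * 2 ^ (g0 - bq * (j + 1))) := by
  set P : Measure (T d L → ℝ) := Measure.pi fun _ : T d L => μ with hP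
  have hκ := h.k0
  have hρ := h.r0
  have hΛ := h.L1
  have hA0 : 0 < A := by linarith
  obtain ⟨ub0, ub1, ub2⟩ := lv_fact h hA j
  obtain ⟨hc0, hc1, hc2⟩ := lv_fact h hA (j + 1)
  have hbc : A * lv d κ ρ (n0 + 1) j ≤ A * lv d κ ρ (n0 + 1) (j + 1) / ρ := by
    have h1 := lv_rho (d := d) hκ hρ h.r1 (by positivity : (0 : ℝ) < (n0 : ℝ) + 1) j
    calc A * lv d κ ρ (n0 + 1) j ≤ A * (lv d κ ρ (n0 + 1) (j + 1) / ρ) := by gcongr
      _ = _ := by ring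
  have hK := K0_ge g0
  have hκ4 := kap_le h hA
  have hz' := ze_pos (c0 := c0) hκ hρ (j + 1)
  have hL := L_pos (L := L)
  have hL1 : (1 : ℝ) ≤ L := L_one
  have hvar := next_var h hA hGG j hj hI
  have hcx := next_cx h hA (j + 1) hj hvar
  have hκ2 : κ ^ 2 ≤ 1 := by nlinarith
  -- the mean
  have hmean : ∫ V, XX lam (ze c0 κ ρ (j + 1)) 0 V ∂P ≤ A * lv d κ ρ (n0 + 1) (j + 1) := by
    have h1 := mean_l h.d4 hcx ϑ h.thv h.hvd (by linarith [h.thv, h.hv]) h.H2 (by nlinarith) κ hκ rfl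
      (by linarith) (by
      refine h.yL.trans ?_
      have := eta_le h (j + 1) hj
      rw [ze_im] at this
      gcongr) h.kL n0 h.nk
    refine h1.trans ?_
    have := h.mx
    unfold lv
    gcongr
  -- the centred moment
  set z := ze c0 κ ρ (j + 1) with hz
  set η := κ ^ 2 * ρ ^ J with hη
  have hη0 : 0 < η := by positivity
  have hηz : η ≤ z.im := eta_le h (j + 1) hj
  set O := Oj lam c0 κ ρ (fun i => Λ * (A * lv d κ ρ (n0 + 1) i)) G j with hO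
  have hOm : MeasurableSet O := Oj_meas hκ hρ _ h.meas j
  have hbj : bq * j + bq ≤ bq * J := by
    have := Nat.mul_le_mul_left bq hj
    rwa [Nat.mul_add, Nat.mul_one] at this
  have hbj1 : bq * (j + 1) = bq * j + bq := by ring
  have hJ0 := h.hJ
  have hb1 := h.hb
  have hOp := Oj_prob (J := J) (fun i => A * lv d κ ρ (n0 + 1) i) (fun i => (lv_fact h hA i).1)
    hκ hρ hΛ h.meas j (by omega) hI
  rw [← hP, ← hO] at hOp
  have hpO : 0 ≤ P.real Oᶜ := measureReal_nonneg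
  have hpG0 : 0 ≤ P.real Gᶜ := measureReal_nonneg
  obtain ⟨g', hg'⟩ : ∃ g', g' = g0 - bq * (j + 1) := ⟨_, rfl⟩
  obtain ⟨g, hg⟩ : ∃ g, g = g' + 1 := ⟨_, rfl⟩
  have hg0 : g ≤ g0 := by omega
  have hgj : g ≤ g0 - bq * j := by omega
  have hgb : 2 ^ (g0 - bq * j) = 2 ^ g * 2 ^ (bq - 1) := by
    rw [← pow_add]
    congr 1
    omega
  have hrec := hRC g hg0 L μ lam h.lam0 z hz' O hOm (fun V hV => (om_next h hA hGG j hj V hV).1)
  rw [← hP] at hrec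
  have hXm0 : Measurable (XX lam (ze c0 κ ρ j) (0 : T d L)) :=
    (XX_cont lam (ze_pos hκ hρ j).ne' 0).measurable
  have hlow := interp P (XX lam (ze c0 κ ρ j) 0)
    (fun V => XX_nonneg lam (ze_pos hκ hρ j) 0 V) hXm0 (1 / (ze c0 κ ρ j).im)
    (fun V => XX_le lam (ze_pos hκ hρ j) 0 V) (A * lv d κ ρ (n0 + 1) j) (K0 g0) ub0 (3 * 2 ^ g) _
    (Nat.mul_le_mul_left 3 (Nat.pow_le_pow_right (by norm_num) hgj)) (hI j le_rfl)
  have hmom := next_mom h hA j (3 * 2 ^ g) (2 * K0 g0) (A * lv d κ ρ (n0 + 1) j) (hlow.trans (by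
    have : 0 ≤ (A * lv d κ ρ (n0 + 1) j) ^ (3 * 2 ^ g) := by positivity
    nlinarith))
  rw [← hP, ← hz] at hmom
  have hH3 := h.H3 j hj
  have hzim : z.im = κ ^ 2 * ρ ^ (j + 1) := ze_im _ _ _ _
  rw [← hzim] at hH3
  obtain ⟨b, hb⟩ : ∃ b, b = A * lv d κ ρ (n0 + 1) j := ⟨_, rfl⟩
  obtain ⟨c, hc⟩ : ∃ c, c = A * lv d κ ρ (n0 + 1) (j + 1) := ⟨_, rfl⟩
  rw [← hb] at hmom hH3 ub0 ub1 ub2 hbc
  rw [← hc] at hc0 hc1 hc2 hbc hmean
  rw [← hc]
  have hcent : ∫ V, (XX lam z 0 V - ∫ U, XX lam z 0 U ∂P) ^ (2 * 2 ^ g) ∂P ≤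
      c ^ (2 * 2 ^ g) := by
    refine hrec.trans ?_
    set m : ℕ := 2 ^ g with hm
    have hm1 : 1 ≤ m := Nat.one_le_two_pow
    have b1 : (lam ^ 2 / z.im) ^ m * ∫ V, XX lam z 0 V ^ (3 * m) ∂P ≤
        (2 * K0 g0) * c ^ (2 * m) * (lam ^ 2 * b / (ρ ^ 5 * z.im)) := by
      have hlam := h.lam0
      have c1 : lam ^ 2 * b / (ρ ^ 5 * z.im) ≤ 1 := by
        have h4 : 0 ≤ lam ^ 2 * b / (ρ ^ 5 * z.im) := by positivity
        have h5 : 1 ≤ Cs * (2 * K0 g0) := by nlinarith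
        nlinarith
      have c0' : 0 ≤ lam ^ 2 * b / (ρ ^ 5 * z.im) := by positivity
      calc (lam ^ 2 / z.im) ^ m * ∫ V, XX lam z 0 V ^ (3 * m) ∂P ≤
          (lam ^ 2 / z.im) ^ m * ((1 / ρ) ^ (3 * m) * ((2 * K0 g0) * b ^ (3 * m))) := by
            gcongr
        _ = (2 * K0 g0) * (b ^ (2 * m) * (ρ ^ (2 * m))) * (lam ^ 2 * b / (ρ ^ 5 * z.im)) ^ m := by
            have e1 : (lam ^ 2 * b / (ρ ^ 5 * z.im)) ^ m =
                (lam ^ 2) ^ m * b ^ m / (ρ ^ (5 * m) * z.im ^ m) := by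
              rw [div_pow, mul_pow, mul_pow, ← pow_mul ρ]
            have e2 : b ^ (3 * m) = b ^ (2 * m) * b ^ m := by
              rw [← pow_add]
              congr 1
              ring
            have e3 : ρ ^ (5 * m) = ρ ^ (2 * m) * ρ ^ (3 * m) := by
              rw [← pow_add]
              congr 1
              ring
            rw [e1, e2, e3, div_pow, div_pow, one_pow]
            field_simp
        _ ≤ (2 * K0 g0) * c ^ (2 * m) * (lam ^ 2 * b / (ρ ^ 5 * z.im)) := by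
            have f1 : b ^ (2 * m) * ρ ^ (2 * m) ≤ c ^ (2 * m) := by
              rw [← mul_pow]
              apply pow_le_pow_left₀ (by positivity)
              rw [le_div_iff₀ hρ] at hbc
              exact hbc
            have f2 : (lam ^ 2 * b / (ρ ^ 5 * z.im)) ^ m ≤ lam ^ 2 * b / (ρ ^ 5 * z.im) := by
              calc (lam ^ 2 * b / (ρ ^ 5 * z.im)) ^ m ≤ (lam ^ 2 * b / (ρ ^ 5 * z.im)) ^ 1 :=
                    pow_le_pow_of_le_one c0' c1 hm1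
                _ = _ := pow_one _
            gcongr
    have hx0 : 0 ≤ (L : ℝ) ^ d / η ^ 2 := by positivity
    have b2 : ((L : ℝ) ^ d * (1 / z.im) ^ 2) ^ m * P.real Oᶜ ≤
        ((L : ℝ) ^ d / η ^ 2) ^ (2 ^ g0) * P.real Gᶜ +
        c ^ (2 * m) * ((J + 1) * (L : ℝ) ^ d * K0 g0 / Λ ^ (2 ^ (bq - 1))) := by
      have c1 : (L : ℝ) ^ d * (1 / z.im) ^ 2 ≤ (L : ℝ) ^ d / η ^ 2 := by
        rw [one_div, inv_pow, ← div_eq_mul_inv]
        gcongr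
      have c2 : 1 ≤ (L : ℝ) ^ d / η ^ 2 := by
        rw [one_le_div (by positivity)]
        have h1 : η ≤ 1 := by
          have := ze_im c0 κ ρ (j + 1)
          have h2 : z.im ≤ κ ^ 2 := by
            rw [hz, ze_im]
            have : ρ ^ (j + 1) ≤ 1 := pow_le_one₀ hρ.le h.r1
            nlinarith [sq_nonneg κ]
          linarith
        have h2 : η ^ 2 ≤ 1 := pow_le_one₀ hη0.le h1
        have h3 : (1 : ℝ) ≤ (L : ℝ) ^ d := one_le_pow₀ hL1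
        linarith
      have c3 : ((L : ℝ) ^ d * (1 / z.im) ^ 2) ^ m ≤ ((L : ℝ) ^ d / η ^ 2) ^ m :=
        pow_le_pow_left₀ (by positivity) c1 m
      have c4 : ((L : ℝ) ^ d / η ^ 2) ^ m ≤ ((L : ℝ) ^ d / η ^ 2) ^ (2 ^ g0) :=
        pow_le_pow_right₀ c2 (Nat.pow_le_pow_right (by norm_num) hg0)
      have c5 : ((L : ℝ) ^ d / η ^ 2) ^ m ≤ c ^ (2 * m) * Λ ^ (2 ^ bq * m) := by
        have h4 : (L : ℝ) ^ d / η ^ 2 ≤ c ^ 2 * Λ ^ (2 ^ bq) := by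
          refine h.H4b.trans ?_
          gcongr
        have h5 := pow_le_pow_left₀ hx0 h4 m
        have e6 : (c ^ 2 * Λ ^ 2 ^ bq) ^ m = c ^ (2 * m) * Λ ^ (2 ^ bq * m) := by
          rw [mul_pow, ← pow_mul, ← pow_mul]
        exact h5.trans (le_of_eq e6)
      have e5 : Λ ^ (3 * 2 ^ (g0 - bq * j)) = Λ ^ (2 ^ bq * m) * Λ ^ (2 ^ (bq - 1) * m) := by
        rw [← pow_add, hgb]
        congr 1
        have : 2 ^ bq = 2 * 2 ^ (bq - 1) := by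
          rw [← pow_succ']
          congr 1
          omega
        rw [this]
        ring
      have c6 : Λ ^ (2 ^ (bq - 1)) ≤ Λ ^ (2 ^ (bq - 1) * m) :=
        pow_le_pow_right₀ hΛ (Nat.le_mul_of_pos_right _ (by omega))
      have hJL : 0 ≤ (J + 1) * (L : ℝ) ^ d * K0 g0 := by positivity
      have c7 : ((L : ℝ) ^ d / η ^ 2) ^ m *
          ((J + 1) * (L : ℝ) ^ d * K0 g0 / Λ ^ (3 * 2 ^ (g0 - bq * j))) ≤
          c ^ (2 * m) * ((J + 1) * (L : ℝ) ^ d * K0 g0 / Λ ^ (2 ^ (bq - 1))) := by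
        rw [e5]
        calc ((L : ℝ) ^ d / η ^ 2) ^ m * ((J + 1) * (L : ℝ) ^ d * K0 g0 /
              (Λ ^ (2 ^ bq * m) * Λ ^ (2 ^ (bq - 1) * m))) ≤
            (c ^ (2 * m) * Λ ^ (2 ^ bq * m)) * ((J + 1) * (L : ℝ) ^ d * K0 g0 /
              (Λ ^ (2 ^ bq * m) * Λ ^ (2 ^ (bq - 1) * m))) := by gcongr
          _ = c ^ (2 * m) * ((J + 1) * (L : ℝ) ^ d * K0 g0 / Λ ^ (2 ^ (bq - 1) * m)) := by
              field_simp
          _ ≤ _ := by gcongr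
      calc ((L : ℝ) ^ d * (1 / z.im) ^ 2) ^ m * P.real Oᶜ ≤
          ((L : ℝ) ^ d / η ^ 2) ^ m * (P.real Gᶜ +
            (J + 1) * (L : ℝ) ^ d * K0 g0 / Λ ^ (3 * 2 ^ (g0 - bq * j))) := by gcongr
        _ = ((L : ℝ) ^ d / η ^ 2) ^ m * P.real Gᶜ + ((L : ℝ) ^ d / η ^ 2) ^ m *
            ((J + 1) * (L : ℝ) ^ d * K0 g0 / Λ ^ (3 * 2 ^ (g0 - bq * j))) := by ring
        _ ≤ _ := by gcongr
    have h4 := h.H4a
    have h4c := h.H4c
    rw [← hη, ← hP] at h4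
    have hAp : 0 < c ^ (2 * m) := by positivity
    have h5 : (A * κ ^ (d - 2)) ^ (2 * 2 ^ g0) ≤ c ^ (2 * m) := by
      calc (A * κ ^ (d - 2)) ^ (2 * 2 ^ g0) ≤ c ^ (2 * 2 ^ g0) := by gcongr
        _ ≤ c ^ (2 * m) := by
            apply pow_le_pow_of_le_one hc0.le (hc1.trans h.k1)
            have : 2 ^ g ≤ 2 ^ g0 := Nat.pow_le_pow_right (by norm_num) hg0
            omega
    have hΛp : 0 < Λ ^ (2 ^ (bq - 1)) := by positivity
    have h6 : Cs * ((J + 1) * (L : ℝ) ^ d * K0 g0 / Λ ^ (2 ^ (bq - 1))) ≤ 1 / 4 := by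
      rw [← mul_div_assoc, div_le_iff₀ hΛp]
      exact h4c
    calc Cs * ((lam ^ 2 / z.im) ^ m * ∫ V, XX lam z 0 V ^ (3 * m) ∂P +
          ((L : ℝ) ^ d * (1 / z.im) ^ 2) ^ m * P.real Oᶜ) ≤
        Cs * ((2 * K0 g0) * c ^ (2 * m) * (lam ^ 2 * b / (ρ ^ 5 * z.im)) +
          (((L : ℝ) ^ d / η ^ 2) ^ (2 ^ g0) * P.real Gᶜ +
          c ^ (2 * m) * ((J + 1) * (L : ℝ) ^ d * K0 g0 / Λ ^ (2 ^ (bq - 1))))) := by gcongr
      _ = c ^ (2 * m) * (Cs * (2 * K0 g0) * (lam ^ 2 * b / (ρ ^ 5 * z.im))) +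
          Cs * ((L : ℝ) ^ d / η ^ 2) ^ (2 ^ g0) * P.real Gᶜ +
          c ^ (2 * m) * (Cs * ((J + 1) * (L : ℝ) ^ d * K0 g0 / Λ ^ (2 ^ (bq - 1)))) := by ring
      _ ≤ c ^ (2 * m) * (1 / 2) + 1 / 4 * (A * κ ^ (d - 2)) ^ (2 * 2 ^ g0) +
          c ^ (2 * m) * (1 / 4) := by gcongr
      _ ≤ c ^ (2 * m) * (1 / 2) + 1 / 4 * c ^ (2 * m) +
          c ^ (2 * m) * (1 / 4) := by gcongr
      _ = _ := by ring
  have hX0 : ∀ V : T d L → ℝ, 0 ≤ XX lam z 0 V := fun V => XX_nonneg lam hz' 0 V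
  have hXm : Measurable (XX lam z (0 : T d L)) := (XX_cont lam hz'.ne' 0).measurable
  have hXM : ∀ V : T d L → ℝ, XX lam z 0 V ≤ 1 / z.im := fun V => XX_le lam hz' 0 V
  have h6 := center P (XX lam z 0) hX0 hXm (1 / z.im) hXM c hc0 (2 ^ g) Nat.one_le_two_pow
    hmean hcent
  have h7 := interp P (XX lam z 0) hX0 hXm (1 / z.im) hXM c (2 ^ (2 * 2 ^ g + 1)) hc0
    (3 * 2 ^ g') (2 * 2 ^ g) (by rw [hg, pow_succ]; omega) h6
  rw [← hg']
  refine h7.trans ?_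
  have h8 : (2 : ℝ) ^ (2 * 2 ^ g + 1) + 1 ≤ K0 g0 := by
    unfold K0
    have h9 : 2 ^ g ≤ 2 ^ g0 := Nat.pow_le_pow_right (by norm_num) hg0
    have : (2 : ℝ) ^ (2 * 2 ^ g + 1) ≤ 2 ^ (2 * 2 ^ g0 + 1) := by
      apply pow_le_pow_right₀ (by norm_num)
      omega
    linarith
  gcongr

/-- **the descent, with the event** -/
theorem descent2 (h : Bl μ Cg Cs A g0 bq J n0 lam c0 θ mg κ ρ Λ ϑ δ T' s G) (hA : 10000 ≤ A)
    (hCs : 1 ≤ Cs) (hGG : GGb d Cg) (hIN : INb d A) (hRC : RCb d Cs g0) (hJ1 : 1 ≤ J) :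
    VarAt d L μ lam (ze c0 κ ρ J) s T' ∧
    ∃ O : Set (T d L → ℝ), MeasurableSet O ∧ (Measure.pi fun _ : T d L => μ).real Oᶜ ≤ δ ∧
      ∀ V ∈ O, (∀ x, |V x| ≤ 1) ∧ (∀ y, lam * ‖GG lam (ze c0 κ ρ J) y y V‖ ≤ 1 / 4) ∧
        ∀ y, XX lam (ze c0 κ ρ J) y V ≤ Λ * (A * lv d κ ρ (n0 + 1) (J - 1)) / ρ := by
  have hall : ∀ j ≤ J, ∀ i ≤ j, ∫ V, XX lam (ze c0 κ ρ i) 0 V ^ (3 * 2 ^ (g0 - bq * i))
      ∂(Measure.pi fun _ : T d L => μ) ≤
      K0 g0 * (A * lv d κ ρ (n0 + 1) i) ^ (3 * 2 ^ (g0 - bq * i)) := by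
    intro j
    induction j with
    | zero =>
      intro _ i hi
      have hi0 : i = 0 := by omega
      subst hi0
      rw [Nat.mul_zero, Nat.sub_zero]
      exact base h hA hIN
    | succ j ih =>
      intro hj i hi
      rcases Nat.lt_or_ge i (j + 1) with hlt | hge
      · exact ih (by omega) i (by omega)
      · have hi' : i = j + 1 := le_antisymm hi hge
        subst hi'
        exact next_I h hA hCs hGG hRC j hj (ih (by omega))
  obtain ⟨j, hj⟩ : ∃ j, J = j + 1 := ⟨J - 1, by omega⟩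
  have hI := hall j (by omega)
  have h1 := next_var h hA hGG j (by omega) hI
  rw [← hj] at h1
  refine ⟨h1, Oj lam c0 κ ρ (fun i => Λ * (A * lv d κ ρ (n0 + 1) i)) G j,
    Oj_meas h.k0 h.r0 _ h.meas j, ?_, ?_⟩
  · have hκ := h.k0
    have hρ := h.r0
    have hΛ := h.L1
    have hΛ0 : 0 < Λ := by linarith
    have hA0 : 0 < A := by linarith
    have hK := K0_ge g0
    have hL := L_pos (L := L)
    have hbj : bq * j + bq ≤ bq * J := by
      have := Nat.mul_le_mul_left bq (show j + 1 ≤ J by omega)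
      rwa [Nat.mul_add, Nat.mul_one] at this
    have hJ0 := h.hJ
    have hbg : 2 ^ bq ≤ 2 ^ (g0 - bq * j) := Nat.pow_le_pow_right (by norm_num) (by omega)
    refine (Oj_prob (J := J) (fun i => A * lv d κ ρ (n0 + 1) i) (fun i => (lv_fact h hA i).1)
      hκ hρ hΛ h.meas j (by omega) hI).trans (le_trans ?_ h.hδ)
    have h3 : 0 < (J + 1) * (L : ℝ) ^ d * K0 g0 := by positivity
    have h4 : Λ ^ (3 * 2 ^ bq) ≤ Λ ^ (3 * 2 ^ (g0 - bq * j)) := pow_le_pow_right₀ hΛ (by omega)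
    have h5 : (J + 1) * (L : ℝ) ^ d * K0 g0 / Λ ^ (3 * 2 ^ (g0 - bq * j)) ≤
        (J + 1) * (L : ℝ) ^ d * K0 g0 / Λ ^ (3 * 2 ^ bq) := by gcongr
    linarith
  · intro V hV
    obtain ⟨-, o1, o2, o3⟩ := om_next h hA hGG j (by omega) V hV
    rw [← hj] at o2 o3
    have e : J - 1 = j := by omega
    rw [e]
    exact ⟨o1, o2, o3⟩

end

end Pool.Agent.V8H95.LE
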