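import Pool.Agent.V8H95.LE.Oq

/-!
All approximate eigenfunctions at low energies, at fixed parameters.
-/

set_option autoImplicit false
set_option linter.unusedSectionVars false
set_option linter.unusedVariables false

open Complex MeasureTheory
open scoped BigOperators ComplexConjugate

namespace Pool.Agent.V8H95.LE

open Pool.Agent.H4R2.AE Pool.Agent.V8H99.AD Pool.Agent.V8H95.MF Pool.Agent.V8H95.BW
open Pool.Agent.V8H95.EF
open Pool.Agent.V8H95.NM hiding spec ze ze_im ze_pos XX_trans_int interp center RCb VarAt et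
open Pool.Agent.V8H95.ND (MX spec DD ze ze_im ze_pos XX_trans_int interp center RCb VarAt grid SPb
  low_pt_q)
open Pool.Agent.V8H95.NE (cube_mass)

/-- the choice of the number of the dyadic shells -/
theorem n0_choice (J : ℕ) (x κ : ℝ) (hx : 0 < x) (hJ : x ^ J ≤ κ) (hκ : κ ≤ 1 / 10000)
    (hs : (4 * (J : ℝ) + 2) ^ 2 * x ≤ 1) :
    ∃ n0 : ℕ, (1 / 2 : ℝ) ^ n0 ≤ κ ∧ 2 * κ * (n0 + 1) ≤ 1 ∧ ((n0 : ℝ) + 1) * x ≤ 1 := by
  have hκ0 : 0 < κ := lt_of_lt_of_le (by positivity) hJ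
  obtain ⟨n, hn1, hn2⟩ := exists_nat_pow_near_of_lt_one hκ0 (by linarith) (by norm_num)
    (by norm_num : (1 / 2 : ℝ) < 1)
  have h2n : (2 : ℝ) ^ n * κ ≤ 1 := by
    calc (2 : ℝ) ^ n * κ ≤ 2 ^ n * (1 / 2) ^ n := by gcongr
      _ = 1 := by rw [← mul_pow]; norm_num
  have hn4 : 4 ≤ n := by
    by_contra hc
    push Not at hc
    have h1 : (1 / 2 : ℝ) ^ 4 ≤ (1 / 2) ^ (n + 1) :=
      pow_le_pow_of_le_one (by norm_num) (by norm_num) (by omega)
    norm_num at h1
    linarith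
  have h2 : ∀ m : ℕ, 4 ≤ m → 2 * ((m : ℝ) + 2) ≤ 2 ^ m := by
    intro m hm
    induction m, hm using Nat.le_induction with
    | base => norm_num
    | succ m hm ih =>
      rw [pow_succ]
      push_cast
      linarith
  refine ⟨n + 1, hn1.le, ?_, ?_⟩
  · push_cast
    calc 2 * κ * ((n : ℝ) + 1 + 1) = 2 * ((n : ℝ) + 2) * κ := by ring
      _ ≤ 2 ^ n * κ := by
          have := h2 n hn4
          gcongr
      _ ≤ 1 := h2n
  · push_cast
    obtain ⟨y, hy⟩ : ∃ y, y = √x := ⟨_, rfl⟩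
    have hy0 : 0 < y := by rw [hy]; exact Real.sqrt_pos.2 hx
    have hyx : y ^ 2 = x := by rw [hy, Real.sq_sqrt hx.le]
    have hyC : (4 * (J : ℝ) + 2) * y ≤ 1 := by
      have h3 : ((4 * (J : ℝ) + 2) * y) ^ 2 ≤ 1 := by
        rw [mul_pow, hyx]
        exact hs
      have h4 : 0 ≤ (4 * (J : ℝ) + 2) * y := by positivity
      nlinarith
    have hJ0 : (0 : ℝ) ≤ J := by positivity
    have hy1 : y ≤ 1 := by nlinarith
    have h3 : (2 : ℝ) ^ n ≤ (1 / x) ^ J := by
      have h4 : (2 : ℝ) ^ n * x ^ J ≤ 1 := le_trans (by gcongr) h2n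
      rw [one_div, inv_pow, ← one_div, le_div_iff₀ (by positivity)]
      exact h4
    have h4 := Real.log_le_log (by positivity) h3
    rw [Real.log_pow, Real.log_pow] at h4
    have h5 : Real.log (1 / x) ≤ 2 * (1 / y) := by
      have e : 1 / x = (1 / y) ^ 2 := by rw [← hyx]; field_simp
      rw [e, Real.log_pow]
      have := Real.log_le_self (by positivity : 0 ≤ 1 / y)
      push_cast
      linarith
    have h6 : (1 / 2 : ℝ) ≤ Real.log 2 := by
      have := Real.log_two_gt_d9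
      linarith
    have h7 : (n : ℝ) ≤ 4 * J * (1 / y) := by
      have h8 : (n : ℝ) * (1 / 2) ≤ n * Real.log 2 := by gcongr
      have h9 : (J : ℝ) * Real.log (1 / x) ≤ J * (2 * (1 / y)) := by gcongr
      nlinarith
    calc ((n : ℝ) + 1 + 1) * x ≤ (4 * J * (1 / y) + 1 + 1) * y ^ 2 := by
          rw [hyx]
          gcongr
      _ = 4 * J * y + 2 * (y * y) := by
          field_simp
          ring
      _ ≤ 4 * J * y + 2 * (y * 1) := by gcongr
      _ = (4 * (J : ℝ) + 2) * y := by ring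
      _ ≤ 1 := hyC

theorem core {d L : ℕ} [NeZero L] (hd : 4 ≤ d) (μ : Measure ℝ) [IsProbabilityMeasure μ]
    (hμ : μ (Set.Icc (-1) 1)ᶜ = 0) {Cg Cs A C : ℝ} {g0 bq J Q N2 p q B b M P : ℕ}
    {lam c0 θ m x : ℝ} (G : Set (T d L → ℝ)) (hGm : MeasurableSet G)
    (hGd : ∀ V ∈ G, ∃ ψ : T d L → ℝ, Gd lam c0 θ m V ψ)
    (hGG : GGb d Cg) (hIN : INb d A) (hRC : RCb d Cs g0) (hC0 : 0 ≤ C) (hSP : SPb d C)
    (hA : 10000 ≤ A) (hlam : 0 < lam) (hxp : 0 < x) (hlx32 : lam ≤ x ^ 32)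
    (s12 : 5000 * x ≤ 1) (hb : b = 2 + B * (d - 3)) (hq : q = 2 + b * d)
    (hlamL : 2 ≤ lam ^ q * L)
    (hSm : ∀ κ : ℝ, lam ^ b ≤ κ → κ ≤ 1 / A → ∃ n0 : ℕ,
      Sl d L Cg Cs A g0 bq J Q N2 p q b n0 lam c0 θ m κ x
        ((Measure.pi fun _ : T d L => μ).real Gᶜ))
    (hM1 : 1 ≤ M) (s30 : (8 * A + 1 + 64 * (M : ℝ) ^ 2 * A) * x ≤ 1)
    (s31 : 32 * (M : ℝ) ^ 3 * (2 ^ M) ^ 2 * (1 + (J + 1) * K0 g0) * x ≤ 1)
    (hxb : x ^ M ≤ lam ^ (P + 1 + q + N2)) (hQ : 3 * N2 + M + (P + 1 + q) + 1 ≤ 6 * Q)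
    (hp : 2 * N2 + M + (P + 1 + q) + 1 ≤ p)
    (s40 : (2 * C * 2 ^ d + 2) * 3 ^ d * x ≤ 1)
    (s41 : (24 * 2 ^ d * (d : ℝ) ^ 2 * (8 * √(d : ℝ) + 1) + 48) * x ≤ 1) :
    ∃ S : Set (T d L → ℝ), MeasurableSet S ∧
      (Measure.pi fun _ : T d L => μ).real Sᶜ ≤ 6 * lam ^ (P + 1) ∧
      ∀ V ∈ G ∩ S, ∀ (ψ : XT d L) (E : ℝ), ‖ψ‖ = 1 →
        ‖HC lam V ψ - ((E : ℝ) : ℂ) • ψ‖ ≤ lam ^ (q + 1) → E - c0 ≤ (1 / A) ^ 2 →
        ∀ R : ℕ, (R : ℝ) ≤ x ^ 32 / lam ^ 2 / (max (lam ^ B) (√(E - c0))) ^ (d - 3) →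
        ∀ y0 : T d L, ‖rs (fun y => nn (y - y0) ≤ R) ψ‖ ^ 2 ≤ 50 * x := by
  have hAp : 0 < A := by linarith
  have hx1 : x ≤ 1 := by linarith
  have hpw : ∀ n m : ℕ, m ≤ n → x ^ n ≤ x ^ m := fun n m hnm =>
    pow_le_pow_of_le_one hxp.le hx1 hnm
  have hlx2 : lam ≤ x ^ 2 := hlx32.trans (hpw 32 2 (by norm_num))
  have hlx : lam ≤ x := by
    have := hlx32.trans (hpw 32 1 (by norm_num))
    rwa [pow_one] at this
  have hl1 : lam ≤ 1 := hlx.trans hx1
  have hlw : ∀ n m : ℕ, m ≤ n → lam ^ n ≤ lam ^ m := fun n m hnm =>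
    pow_le_pow_of_le_one hlam.le hl1 hnm
  obtain ⟨κm, hκm⟩ : ∃ κm : ℝ, κm = lam ^ b := ⟨_, rfl⟩
  have hκm0 : 0 < κm := by rw [hκm]; positivity
  have hκm1 : κm ≤ 1 := by rw [hκm]; exact pow_le_one₀ hlam.le hl1
  have hbd : 2 * b + 2 ≤ q := by
    have : b * 2 ≤ b * d := Nat.mul_le_mul_left _ (by omega)
    omega
  obtain ⟨n, hn⟩ : ∃ n : ℕ, n = ⌈2 / lam ^ q⌉₊ := ⟨_, rfl⟩
  have hn1 : 2 / lam ^ q ≤ (n : ℝ) := by rw [hn]; exact Nat.le_ceil _
  have hn2 : (n : ℝ) ≤ 3 / lam ^ q := by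
    have h1 : (n : ℝ) < 2 / lam ^ q + 1 := by
      rw [hn]
      exact Nat.ceil_lt_add_one (by positivity)
    have h2 : (1 : ℝ) ≤ 1 / lam ^ q := by
      rw [le_div_iff₀ (by positivity), one_mul]
      exact pow_le_one₀ hlam.le hl1
    have h3 : 3 / lam ^ q = 2 / lam ^ q + 1 / lam ^ q := by ring
    linarith
  have hA1 : 1 / A ≤ 1 := by
    rw [div_le_one hAp]
    linarith
  obtain ⟨S, hSm', hSP', hS⟩ := grid μ (κm ^ 2) ((1 / A) ^ 2) (lam ^ q / 2) (by positivity) n (by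
      refine lt_of_lt_of_le ?_ hn1
      rw [div_div_eq_mul_div]
      apply div_lt_div_of_pos_right _ (by positivity)
      have h1 : (1 / A) ^ 2 ≤ 1 := pow_le_one₀ (by positivity) hA1
      have h2 : 0 < κm ^ 2 := by positivity
      linarith) (2 * lam ^ (P + 1 + q)) (by positivity)
    (fun V t => κm ^ 2 ≤ t → ∀ ψ : XT d L, ‖HC lam V ψ - ((c0 + t : ℝ) : ℂ) • ψ‖ ≤ lam ^ (q + 1) →
      ‖ψ‖ = 1 → ∀ R : ℕ, (R : ℝ) ≤ x ^ 32 / lam ^ 2 / √t ^ (d - 3) →
      ∀ y0 : T d L, ‖rs (fun y => nn (y - y0) ≤ R) ψ‖ ^ 2 ≤ 50 * x) (by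
      intro e he1 he2
      have he0 : 0 < e := lt_of_lt_of_le (by positivity) he1
      have hκe : √e ^ 2 = e := Real.sq_sqrt he0.le
      have hκe0 : 0 < √e := Real.sqrt_pos.2 he0
      obtain ⟨n0, hsm⟩ := hSm (√e) (by
        rw [← hκm]
        exact Real.le_sqrt_of_sq_le he1) (by
        rw [Real.sqrt_le_left (by positivity)]
        exact he2)
      obtain ⟨S, h1, h2, h3⟩ := one_e μ hμ G hsm hGm hGd hGG hIN hRC M hM1 s30
      refine ⟨S, h1, h2.trans ?_, ?_⟩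
      · exact prob_bd hsm M (P + 1 + q) hM1 hxb hQ hp s31
      · intro V hV t ht hκt ψ hψ hψ1 R hR y0
        have hr : ‖HC lam V ψ - ((c0 + t : ℝ) : ℂ) • ψ‖ ≤ lam * et d lam (√e) x := by
          refine hψ.trans ?_
          have := hsm.et_ge
          calc lam ^ (q + 1) = lam * lam ^ q := by ring
            _ ≤ _ := by gcongr
        have h4 := h3 V hV ψ (c0 + t) lam hlam.le hr hψ1 (by
          rw [hκe]
          have e1 : c0 + t - (c0 + e) = t - e := by ring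
          rw [e1]
          refine ht.trans ?_
          have := hsm.et_ge
          linarith) R y0
        refine h4.trans ?_
        have hdd : d - 2 = (d - 3) + 1 := by omega
        have e2 : 8 * √(d : ℝ) * et d lam (√e) x / √e =
            8 * √(d : ℝ) * (lam ^ 2 * √e ^ (d - 3) / x ^ 8) := by
          unfold et
          rw [hdd]
          field_simp
          rw [pow_succ]
          ring
        rw [e2]
        have hse1 : √e ≤ 1 := hsm.kap1
        have h6 : 1 / (L : ℝ) ≤ lam ^ 2 * √e ^ (d - 3) / x ^ 8 := by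
          have hL := L_pos (L := L)
          have h7 : 1 / (L : ℝ) ≤ lam ^ q := by
            rw [div_le_iff₀ hL]
            linarith
          refine h7.trans ?_
          have h8 := hsm.et_ge
          refine h8.trans ?_
          unfold et
          have : √e ^ (d - 2) ≤ √e ^ (d - 3) := pow_le_pow_of_le_one hκe0.le hse1 (by omega)
          gcongr
        -- comparison of the energies
        have hte : √e ≤ 2 * √t := by
          have ht0 : 0 < t := lt_of_lt_of_le (by positivity) hκt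
          have h9 : e ≤ 4 * t := by
            have h10 : lam ^ q ≤ κm ^ 2 := by
              rw [hκm, ← pow_mul]
              exact hlw _ _ (by omega)
            have h11 := (abs_le.1 ht).1
            linarith
          have e4 : 2 * √t = √(4 * t) := by
            rw [Real.sqrt_mul (by norm_num), show (4 : ℝ) = 2 ^ 2 by norm_num, Real.sqrt_sq (by norm_num)]
          rw [e4]
          exact Real.sqrt_le_sqrt h9
        have hst0 : 0 < √t := Real.sqrt_pos.2 (lt_of_lt_of_le (by positivity) hκt)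
        have hRe : (R : ℝ) * √e ^ (d - 3) ≤ 2 ^ d * (x ^ 32 / lam ^ 2) := by
          have h12 : √e ^ (d - 3) ≤ 2 ^ d * √t ^ (d - 3) := by
            calc √e ^ (d - 3) ≤ (2 * √t) ^ (d - 3) := by gcongr
              _ = 2 ^ (d - 3) * √t ^ (d - 3) := mul_pow _ _ _
              _ ≤ 2 ^ d * √t ^ (d - 3) := by
                  have : (2 : ℝ) ^ (d - 3) ≤ 2 ^ d := pow_le_pow_right₀ (by norm_num) (by omega)
                  gcongr
          calc (R : ℝ) * √e ^ (d - 3) ≤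
              x ^ 32 / lam ^ 2 / √t ^ (d - 3) * (2 ^ d * √t ^ (d - 3)) := by gcongr
            _ = _ := by field_simp
        have hRe2 : (2 * (R : ℝ) + 1) * √e ^ (d - 3) ≤ 3 * (2 ^ d * (x ^ 32 / lam ^ 2)) := by
          have h13 : √e ^ (d - 3) ≤ 2 ^ d * (x ^ 32 / lam ^ 2) := by
            have h14 : √e ^ (d - 3) ≤ 1 := pow_le_one₀ hκe0.le hse1
            have h15 : 1 ≤ x ^ 32 / lam ^ 2 := by
              rw [le_div_iff₀ (by positivity)]
              calc 1 * lam ^ 2 = lam * lam := by ring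
                _ ≤ x ^ 32 * 1 := by gcongr
                _ = x ^ 32 := mul_one _
            have h16 : (1 : ℝ) ≤ 2 ^ d := one_le_pow₀ (by norm_num)
            calc √e ^ (d - 3) ≤ 1 * 1 := by linarith
              _ ≤ 2 ^ d * (x ^ 32 / lam ^ 2) := by gcongr
          rw [add_mul, one_mul, mul_assoc]
          linarith
        calc 8 * (d : ℝ) ^ 2 * ((2 * R + 1) *
              (8 * √(d : ℝ) * (lam ^ 2 * √e ^ (d - 3) / x ^ 8) + 1 / L)) + 48 * (x + lam ^ 2) ≤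
            8 * (d : ℝ) ^ 2 * ((2 * R + 1) * (8 * √(d : ℝ) * (lam ^ 2 * √e ^ (d - 3) / x ^ 8) +
              lam ^ 2 * √e ^ (d - 3) / x ^ 8)) + 48 * (x + (x ^ 2) ^ 2) := by gcongr
          _ = 8 * (d : ℝ) ^ 2 * (((2 * R + 1) * √e ^ (d - 3)) * ((8 * √(d : ℝ) + 1) *
              (lam ^ 2 / x ^ 8))) + 48 * (x + x ^ 4) := by ring
          _ ≤ 8 * (d : ℝ) ^ 2 * ((3 * (2 ^ d * (x ^ 32 / lam ^ 2))) * ((8 * √(d : ℝ) + 1) *
              (lam ^ 2 / x ^ 8))) + 48 * (x + x ^ 4) := by gcongr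
          _ = 24 * 2 ^ d * (d : ℝ) ^ 2 * (8 * √(d : ℝ) + 1) * x ^ 24 + 48 * (x + x ^ 4) := by
              field_simp
              ring
          _ ≤ 24 * 2 ^ d * (d : ℝ) ^ 2 * (8 * √(d : ℝ) + 1) * x ^ 2 + 48 * (x + x ^ 2) := by
              have := hpw 24 2 (by norm_num)
              have := hpw 4 2 (by norm_num)
              gcongr
          _ = ((24 * 2 ^ d * (d : ℝ) ^ 2 * (8 * √(d : ℝ) + 1) + 48) * x) * x + 48 * x := by ring
          _ ≤ 1 * x + 48 * x := by gcongr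
          _ ≤ 50 * x := by linarith)
  refine ⟨S, hSm', ?_, ?_⟩
  · refine hSP'.trans ?_
    calc (n : ℝ) * (2 * lam ^ (P + 1 + q)) ≤ 3 / lam ^ q * (2 * lam ^ (P + 1 + q)) := by gcongr
      _ = _ := by
          rw [pow_add lam (P + 1) q]
          field_simp
          ring
  · intro V hV ψ E hψ1 hψ hEk R hR y0
    obtain ⟨φ, hφ⟩ := hGd V hV.1
    rcases le_total (E - c0) (κm ^ 2) with hlow | hhigh
    · have h1 : ∀ y, ‖ψ y‖ ^ 2 ≤ (2 * C * 2 ^ d + 2) * κm ^ d := by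
        intro y
        have h1 := low_pt_q hC0 hSP hφ ψ hψ1 E κm hκm0 (by linarith) y
        refine h1.trans ?_
        have h2 : ‖HC lam V ψ - ((E : ℝ) : ℂ) • ψ‖ ^ 2 ≤ (lam ^ (q + 1)) ^ 2 := by gcongr
        have h3 : (lam ^ (q + 1)) ^ 2 ≤ κm ^ d * κm ^ 4 := by
          rw [hκm, ← pow_mul, ← pow_mul, ← pow_mul, ← pow_add]
          apply hlw
          have h5 : b * 4 ≤ b * d := Nat.mul_le_mul_left _ hd
          rw [hq]
          nlinarith
        have h4 : 2 * ‖HC lam V ψ - ((E : ℝ) : ℂ) • ψ‖ ^ 2 / κm ^ 4 ≤ 2 * κm ^ d := by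
          rw [div_le_iff₀ (by positivity)]
          have := h2.trans h3
          linarith
        have e : 2 * C * (2 * κm) ^ d = 2 * C * 2 ^ d * κm ^ d := by
          rw [mul_pow]
          ring
        rw [e]
        linarith
      have h2 := cube_mass ψ _ h1 R y0
      refine h2.trans ?_
      have hR1 : (R : ℝ) ≤ x ^ 32 / κm := by
        refine hR.trans ?_
        have h3 : lam ^ 2 * (lam ^ B) ^ (d - 3) = κm := by
          rw [hκm, hb, ← pow_mul, ← pow_add]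
        rw [← h3, div_div]
        have : lam ^ B ≤ max (lam ^ B) (√(E - c0)) := le_max_left _ _
        gcongr
      have hR2 : 2 * (R : ℝ) + 1 ≤ 3 * (x ^ 32 / κm) := by
        have h3 : 1 ≤ x ^ 32 / κm := by
          rw [le_div_iff₀ hκm0, one_mul]
          refine le_trans ?_ hlx32
          rw [hκm]
          calc lam ^ b ≤ lam ^ 1 := hlw _ _ (by omega)
            _ = lam := pow_one _
        linarith
      calc (2 * (R : ℝ) + 1) ^ d * ((2 * C * 2 ^ d + 2) * κm ^ d) ≤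
          (3 * (x ^ 32 / κm)) ^ d * ((2 * C * 2 ^ d + 2) * κm ^ d) := by gcongr
        _ = ((2 * C * 2 ^ d + 2) * 3 ^ d) * ((x ^ 32 / κm) * κm) ^ d := by
            rw [mul_pow, mul_pow]
            ring
        _ = ((2 * C * 2 ^ d + 2) * 3 ^ d) * (x ^ 32) ^ d := by
            have e : x ^ 32 / κm * κm = x ^ 32 := by
              field_simp
            rw [e]
        _ ≤ ((2 * C * 2 ^ d + 2) * 3 ^ d) * (x * x) := by
            have h3 : (x ^ 32) ^ d ≤ x * x := by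
              rw [← pow_mul, ← pow_two]
              exact pow_le_pow_of_le_one hxp.le hx1 (by omega)
            gcongr
        _ = ((2 * C * 2 ^ d + 2) * 3 ^ d * x) * x := by ring
        _ ≤ 1 * x := by gcongr
        _ ≤ 50 * x := by linarith
    · refine hS V hV.2 (E - c0) hhigh hEk hhigh ψ ?_ hψ1 R ?_ y0
      · have e5 : c0 + (E - c0) = E := by ring
        rw [e5]
        exact hψ
      · refine hR.trans ?_
        have h1 : 0 < √(E - c0) := Real.sqrt_pos.2 (lt_of_lt_of_le (by positivity) hhigh)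
        have h2 : √(E - c0) ≤ max (lam ^ B) (√(E - c0)) := le_max_right _ _
        gcongr

end Pool.Agent.V8H95.LE
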