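import Pool.Agent.V8H99.AD.Param
import Pool.Agent.V8H95.ND.Tev

/-!
The good event with a smaller mass, dimension at least four.
-/

set_option autoImplicit false
set_option linter.unusedSectionVars false
set_option linter.unusedVariables false

open scoped BigOperators
open MeasureTheory

namespace Pool.Agent.V8H95.LE

open Pool.Agent.H4R2.AE Pool.Agent.V8H99.AD Pool.Agent.V8H95.NM
open Pool.Agent.V8H95.ND (exp_poly)

/-- the exponents in dimension at least four -/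
theorem par_poly (d : ℕ) (hd : 4 ≤ d) (δ : ℝ) (hδ : 0 < δ) (hδ1 : δ ≤ 1 / 8) (N Bm : ℕ) :
    ∃ b lam0 : ℝ, 0 < b ∧ 0 < lam0 ∧ lam0 ≤ 1 ∧ ∀ lam : ℝ, 0 < lam → lam ≤ lam0 →
    ∀ (L : ℕ) [NeZero L], 1 / lam ^ Bm ≤ (L : ℝ) → (L : ℝ) ≤ 1 / lam ^ N →
    ∃ p R θ : ℝ, 1 < p ∧ 0 ≤ R ∧ 0 < θ ∧
      (∀ (u Gr : T d L → ℝ) (x0 : T d L), (∀ x, 1 / 2 ≤ u x) → (∀ x, 0 ≤ Gr x) →
      (∀ x, LapW u Gr x + lam ^ Bm * Real.exp (-(4 * δ)) * Gr x =
        if x = x0 then 1 else 0) →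
      ∀ θ : ℝ, 0 < θ → ∑ z, min ((θ * Gr z) ^ 2) (θ * Gr z) ≤ R * θ ^ p) ∧
      -(θ * δ) + R * (6 * lam * θ) ^ p / (p - 1) ≤ -b / lam := by
  have hk : ∀ lam : ℝ, 0 < lam → lam ≤ 1 → ∀ (L : ℕ) [NeZero L], 1 / lam ^ Bm ≤ (L : ℝ) →
      1 / (8 * (L : ℝ) ^ 2) ≤ lam ^ Bm * Real.exp (-(4 * δ)) := by
    intro lam hlam hl1 L _ hL
    have hL0 : (0 : ℝ) < L := by exact_mod_cast NeZero.pos L
    have he : (1 / 8 : ℝ) ≤ Real.exp (-(4 * δ)) := by
      have := Real.add_one_le_exp (-(4 * δ))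
      linarith
    have h1 : (1 / lam ^ Bm) ^ 2 ≤ (L : ℝ) ^ 2 := by gcongr
    have h2 : 1 / (L : ℝ) ^ 2 ≤ lam ^ Bm := by
      rw [div_le_iff₀ (by positivity)]
      have h3 : lam ^ Bm * (1 / lam ^ Bm) ^ 2 ≤ lam ^ Bm * (L : ℝ) ^ 2 := by gcongr
      have h4 : lam ^ Bm * (1 / lam ^ Bm) ^ 2 = 1 / lam ^ Bm := by
        field_simp
      have h5 : 1 ≤ 1 / lam ^ Bm := by
        rw [le_div_iff₀ (by positivity), one_mul]
        exact pow_le_one₀ hlam.le hl1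
      linarith
    calc 1 / (8 * (L : ℝ) ^ 2) = 1 / (L : ℝ) ^ 2 * (1 / 8) := by field_simp
      _ ≤ _ := by gcongr
  by_cases h4 : d = 4
  · subst h4
    obtain ⟨A, hA, HA⟩ := green4
    obtain ⟨b, hb, hb1, Hb⟩ := Arith2.site_four A δ hA hδ
    obtain ⟨c, hc⟩ : ∃ c : ℝ, c = b ^ (N + 1) / ((N + 1).factorial : ℝ) := ⟨_, rfl⟩
    have hfac : (0 : ℝ) < (N + 1).factorial := by exact_mod_cast Nat.factorial_pos _
    have hc0 : 0 < c := by rw [hc]; positivity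
    refine ⟨δ / 2, min b c, by positivity, by positivity, (min_le_left _ _).trans hb1, ?_⟩
    intro lam hlam hlam0 L _ hL1 hL2
    have hlb : lam ≤ b := hlam0.trans (min_le_left _ _)
    have hlc : lam ≤ c := hlam0.trans (min_le_right _ _)
    have hl1 : lam ≤ 1 := hlb.trans hb1
    have hLn : 1 ≤ L := NeZero.one_le
    have hLexp : (L : ℝ) ≤ Real.exp (b / lam) := by
      refine hL2.trans ?_
      have h1 := Real.pow_div_factorial_le_exp (b / lam) (by positivity) (N + 1)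
      refine le_trans ?_ h1
      rw [div_pow, div_div, div_le_div_iff₀ (by positivity) (by positivity), one_mul, pow_succ lam N]
      have h2 : lam * ((N + 1).factorial : ℝ) ≤ b ^ (N + 1) := by
        rw [hc, le_div_iff₀ hfac] at hlc
        exact hlc
      calc lam ^ N * lam * ((N + 1).factorial : ℝ) = lam ^ N * (lam * ((N + 1).factorial : ℝ)) := by
            ring
        _ ≤ lam ^ N * b ^ (N + 1) := by gcongr
        _ = _ := by ring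
    obtain ⟨θ, hθ, hθ2⟩ := Hb lam hlam hlb L hLn hLexp
    have hlog : 0 ≤ Real.log (L : ℝ) := Real.log_nonneg (by exact_mod_cast hLn)
    refine ⟨2, A * (1 + 4 * Real.log (L : ℝ)), θ, by norm_num, by positivity, hθ, ?_, ?_⟩
    · exact HA L _ (hk lam hlam hl1 L hL1)
    · exact hθ2
  · have hd5 : 5 ≤ d := by omega
    obtain ⟨R, hR, HR⟩ := green5 d hd5
    obtain ⟨b, hb, Hb⟩ := Arith2.site_five d hd5 R δ hR hδ
    refine ⟨b, 1, hb, one_pos, le_rfl, ?_⟩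
    intro lam hlam hl1 L _ hL1 hL2
    obtain ⟨θ, hθ, hθ2⟩ := Hb lam hlam
    refine ⟨Arith2.pe d, R, θ, Arith2.pe_gt_one d (by omega), hR, hθ, ?_, ?_⟩
    · exact HR L _ (hk lam hlam hl1 L hL1)
    · refine hθ2.trans ?_
      rw [neg_div, neg_div, neg_le_neg_iff]
      have h1 : scaleS d lam ≤ lam := by
        unfold scaleS
        rw [if_neg h4]
        have h2 : √lam ≤ 1 := Real.sqrt_le_one.2 hl1
        have h3 : √lam ^ d ≤ √lam ^ 2 := pow_le_pow_of_le_one (Real.sqrt_nonneg _) h2 (by omega)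
        rwa [Real.sq_sqrt hlam.le] at h3
      have h2 : 0 < scaleS d lam := Arith2.scaleS_pos d lam hlam
      gcongr

/-- **the good event** -/
theorem tev (d : ℕ) (hd : 4 ≤ d) (N p Bm : ℕ) (δ : ℝ) (hδ : 0 < δ) (hδ1 : δ ≤ 1 / 8) :
    ∃ lam0 : ℝ, 0 < lam0 ∧ ∀ (μ : Measure ℝ) [IsProbabilityMeasure μ], ∀ lam : ℝ, 0 < lam →
    lam ≤ lam0 → ∀ (L : ℕ) [NeZero L], 1 / lam ^ Bm ≤ (L : ℝ) → (L : ℝ) ≤ 1 / lam ^ N →
    ∃ E m : ℝ, |E| ≤ lam ∧ 1 / (L : ℝ) ^ 2 ≤ m ∧ m ≤ lam ^ Bm ∧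
      ∃ G : Set (T d L → ℝ), MeasurableSet G ∧
      (Measure.pi fun _ : T d L => μ).real Gᶜ ≤ lam ^ p ∧
      ∀ V ∈ G, (∀ x, |V x| ≤ 1) → ∃ w : T d L → ℝ, (∀ x, |w x| ≤ δ) ∧ MassEq lam E m V w := by
  obtain ⟨b, lam1, hb, hlam1, hlam11, H⟩ := par_poly d hd δ hδ hδ1 N Bm
  obtain ⟨M, hM⟩ : ∃ M : ℕ, M = N * d + (p + 1) := ⟨_, rfl⟩
  obtain ⟨C, hC⟩ : ∃ C : ℝ, C = 2 * (M.factorial : ℝ) / b ^ M := ⟨_, rfl⟩
  have hfac : (0 : ℝ) < M.factorial := by exact_mod_cast Nat.factorial_pos _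
  have hC0 : 0 < C := by rw [hC]; positivity
  refine ⟨min lam1 (1 / C), by positivity, ?_⟩
  intro μ _ lam hlam hlam0 L _ hL1 hL2
  have q1 : lam ≤ lam1 := hlam0.trans (min_le_left _ _)
  have q2 : lam ≤ 1 / C := hlam0.trans (min_le_right _ _)
  have hl1 : lam ≤ 1 := q1.trans hlam11
  obtain ⟨p', R, θ, hp', hR, hθ, hG, hnum⟩ := H lam hlam q1 L hL1 hL2
  obtain ⟨E, hE, G, hGm, hP, hw⟩ := Goodt.good d L (lam ^ Bm) (by positivity) p' R hp'
    hR μ lam δ hlam hδ hδ1 hG θ hθ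
  have hL0 : (0 : ℝ) < L := by exact_mod_cast NeZero.pos L
  refine ⟨E, lam ^ Bm, hE, ?_, le_rfl, G, hGm, ?_, ?_⟩
  · rw [div_le_iff₀ (by positivity)]
    have h1 : (1 / lam ^ Bm) ^ 2 ≤ (L : ℝ) ^ 2 := by gcongr
    have h3 : lam ^ Bm * (1 / lam ^ Bm) ^ 2 ≤ lam ^ Bm * (L : ℝ) ^ 2 := by gcongr
    have h4 : lam ^ Bm * (1 / lam ^ Bm) ^ 2 = 1 / lam ^ Bm := by
      field_simp
    have h5 : 1 ≤ 1 / lam ^ Bm := by
      rw [le_div_iff₀ (by positivity), one_mul]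
      exact pow_le_one₀ hlam.le hl1
    linarith
  · refine hP.trans ?_
    have h1 : (L : ℝ) ^ d ≤ 1 / lam ^ (N * d) := by
      calc (L : ℝ) ^ d ≤ (1 / lam ^ N) ^ d := by gcongr
        _ = _ := by rw [div_pow, one_pow, ← pow_mul]
    have h2 : Real.exp (-(θ * δ) + R * (6 * lam * θ) ^ p' / (p' - 1)) ≤
        (M.factorial : ℝ) / (b / lam) ^ M := by
      refine le_trans (Real.exp_le_exp.2 hnum) ?_
      rw [neg_div]
      exact exp_poly M (b / lam) (by positivity)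
    have h3 : C * lam ≤ 1 := by
      rw [le_div_iff₀ hC0] at q2
      linarith
    calc (L : ℝ) ^ d * (2 * Real.exp (-(θ * δ) + R * (6 * lam * θ) ^ p' / (p' - 1))) ≤
        1 / lam ^ (N * d) * (2 * ((M.factorial : ℝ) / (b / lam) ^ M)) := by gcongr
      _ = (C * lam) * lam ^ p := by
          rw [hC, div_pow]
          have e : lam ^ M = lam ^ (N * d) * (lam ^ p * lam) := by
            rw [hM, pow_add, pow_succ]
          rw [e]
          field_simp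
      _ ≤ 1 * lam ^ p := by gcongr
      _ = lam ^ p := one_mul _
  · intro V hV hV1
    obtain ⟨w, hw1, hw2⟩ := hw V hV hV1
    exact ⟨w, hw1, hw2⟩

end Pool.Agent.V8H95.LE
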