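import Pool.Agent.V8H95.LE.Par
import Pool.Agent.V8H95.ND.Grid

/-!
The event at one energy, low energies in dimension at least four.
-/

set_option autoImplicit false
set_option linter.unusedSectionVars false
set_option linter.unusedVariables false

open Complex MeasureTheory
open scoped BigOperators ComplexConjugate

namespace Pool.Agent.V8H95.LE

open Pool.Agent.H4R2.AE Pool.Agent.V8H99.AD Pool.Agent.V8H95.MF Pool.Agent.V8H95.BW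
open Pool.Agent.V8H95.EF
open Pool.Agent.V8H95.NM hiding spec ze ze_im ze_pos XX_trans_int interp center RCb VarAt et
open Pool.Agent.V8H95.ND (MX spec DD ze ze_im ze_pos XX_trans_int interp center RCb VarAt)
open Pool.Agent.V8H95.NE (conc eig_cube_q Fo Fo_cont Fo_sa Fo_norm Fo_var Fo_sf)

theorem one_e {d L : ℕ} [NeZero L] (μ : Measure ℝ) [IsProbabilityMeasure μ]
    (hμ : μ (Set.Icc (-1) 1)ᶜ = 0) {Cg Cs A : ℝ}
    {g0 bq J Q N2 p q B n0 : ℕ} {lam c0 θ mg κ x : ℝ} (G : Set (T d L → ℝ))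
    (h : Sl d L Cg Cs A g0 bq J Q N2 p q B n0 lam c0 θ mg κ x
      ((Measure.pi fun _ : T d L => μ).real Gᶜ))
    (hGm : MeasurableSet G) (hG : ∀ V ∈ G, ∃ ψ : T d L → ℝ, Gd lam c0 θ mg V ψ)
    (hGG : GGb d Cg) (hIN : INb d A) (hRC : RCb d Cs g0) (N : ℕ) (hN : 1 ≤ N)
    (z10 : (8 * A + 1 + 64 * (N : ℝ) ^ 2 * A) * x ≤ 1) :
    ∃ S : Set (T d L → ℝ), MeasurableSet S ∧ (Measure.pi fun _ : T d L => μ).real Sᶜ ≤
      ((L : ℝ) ^ d * (x ^ 4) ^ N + N * (32 * (N : ℝ) ^ 2 * ((L : ℝ) ^ d) ^ 2 * (2 ^ N) ^ 2 *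
        ((Measure.pi fun _ : T d L => μ).real Gᶜ +
          (J + 1) * (L : ℝ) ^ d * K0 g0 / (1 / x) ^ (3 * 2 ^ bq)))) / x ^ N ∧
      ∀ V ∈ S, ∀ (ψ : XT d L) (E r : ℝ), 0 ≤ r →
        ‖HC lam V ψ - ((E : ℝ) : ℂ) • ψ‖ ≤ r * et d lam κ x → ‖ψ‖ = 1 →
        |E - (c0 + κ ^ 2)| ≤ et d lam κ x / 2 → ∀ (R : ℕ) (x0 : T d L),
        ‖rs (fun y => nn (y - x0) ≤ R) ψ‖ ^ 2 ≤
          8 * (d : ℝ) ^ 2 * ((2 * R + 1) * (8 * √(d : ℝ) * et d lam κ x / κ + 1 / L)) +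
            48 * (x + r ^ 2) := by
  set P : Measure (T d L → ℝ) := Measure.pi fun _ : T d L => μ with hP
  have hx := h.x0
  have hx1 := h.x1
  have hκ := h.k0
  have hl := h.lam0
  have hA := h.A1
  have hA0 : 0 < A := by linarith
  have hη := h.et0
  obtain ⟨ρ, hρx, hρe, hB⟩ := bl_ok μ G h hGm hG
  have hρ0 := hB.r0
  have hρ1 := hB.r1
  obtain ⟨hvar, O, hOm, hOP, hO⟩ := descent2 hB hA h.Cs1 hGG hIN hRC h.J1
  have hcx := next_cx hB hA J le_rfl hvar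
  have hκ4 := kap_le hB hA
  set z := ze c0 κ ρ J with hzd
  have hzi : z.im = κ ^ 2 * ρ ^ J := ze_im _ _ _ _
  have hze : z.im = et d lam κ x := hzi.trans hρe
  have hzr : z.re = c0 + κ ^ 2 := zz_re _ _ _
  have hz0 : 0 < z.im := by rw [hze]; exact hη
  obtain ⟨s, hs⟩ : ∃ s, s = 8 * A * x ^ 5 := ⟨_, rfl⟩
  rw [← hs] at hvar hcx
  have hs0 : 0 < s := by
    rw [hs]
    positivity
  have hJ1 := h.J1
  have hJJ : J - 1 + 1 = J := by omega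
  have hlv := lv_pos (d := d) hκ hρ0 (by positivity : (0 : ℝ) < (n0 : ℝ) + 1) (J - 1)
  have hlr := h.lvr ρ hρx hρ1 hρe (J - 1) (by omega)
  rw [hJJ] at hlr
  have hlr0 : 0 ≤ lam ^ 2 * lv d κ ρ (n0 + 1) (J - 1) / (κ ^ 2 * ρ ^ J) := by positivity
  obtain ⟨K, hK⟩ : ∃ K, K = 16 * lam ^ 2 * (1 / x * (A * lv d κ ρ (n0 + 1) (J - 1)) / ρ) / z.im :=
    ⟨_, rfl⟩
  have hK0 : 0 ≤ K := by
    rw [hK]
    positivity
  have hK1 : K ≤ 32 * A * x ^ 5 := by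
    rw [hK, hzi]
    calc 16 * lam ^ 2 * (1 / x * (A * lv d κ ρ (n0 + 1) (J - 1)) / ρ) / (κ ^ 2 * ρ ^ J) =
        16 * A / (x * ρ) * (lam ^ 2 * lv d κ ρ (n0 + 1) (J - 1) / (κ ^ 2 * ρ ^ J)) := by
          field_simp
      _ ≤ 16 * A / (x * x) * (2 * x ^ 8) := by gcongr
      _ = 32 * A * x ^ 6 := by
          field_simp
          ring
      _ ≤ 32 * A * x ^ 5 := by
          have := h.xp 6 5 (by norm_num)
          gcongr
  have hxe : x * z.im ^ 2 ≤ x ^ 5 := by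
    rw [hze]
    have h1 := h.et_le
    have h2 : et d lam κ x ≤ x ^ 8 * 1 := by
      refine h1.trans ?_
      have : κ ^ 2 ≤ 1 := pow_le_one₀ hκ.le h.kap1
      gcongr
    calc x * et d lam κ x ^ 2 ≤ x * (x ^ 8 * 1) ^ 2 := by gcongr
      _ = x ^ 17 := by ring
      _ ≤ x ^ 5 := h.xp 17 5 (by norm_num)
  have hS := conc μ (Fo μ lam z) (Fo_cont μ lam hz0) (Fo_sa μ lam hz0) (Fo_norm μ lam hz0) hμ O hOm
    (s + x * z.im ^ 2) K (x ^ 4) (by positivity) hK0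
    (Fo_var μ lam hz0 s x hs0.le hx.le hvar)
    (fun V hV c hc u => by
      obtain ⟨o1, o2, o3⟩ := hO V hV
      rw [hK]
      exact Fo_sf μ lam hl.le hz0 V o1 o2 _ o3 c (abs_le.2 hc) u) N hN (by
      calc s + x * z.im ^ 2 + 2 * (N : ℝ) ^ 2 * K ≤
          8 * A * x ^ 5 + x ^ 5 + 2 * (N : ℝ) ^ 2 * (32 * A * x ^ 5) := by
            have := hs.le
            gcongr
        _ = ((8 * A + 1 + 64 * (N : ℝ) ^ 2 * A) * x) * x ^ 4 := by ring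
        _ ≤ 1 * x ^ 4 := by gcongr
        _ = x ^ 4 := one_mul _) (pow_le_one₀ hx.le hx1) (√x) (Real.sqrt_pos.2 hx)
  obtain ⟨S, hSm, hSP, hS⟩ := hS
  rw [Real.sq_sqrt hx.le] at hSP
  refine ⟨S, hSm, ?_, ?_⟩
  · refine hSP.trans ?_
    have := hOP
    gcongr
  · intro V hV ψ E r hr0 hE hψ hc R x0
    have hF := hS V hV ψ hψ
    rw [Real.sq_sqrt hx.le] at hF
    have hv := h.hv
    have hk1 := h.kap1
    have hkA := h.k1
    have hk3 : κ ≤ 1 / 10000 := by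
      rw [le_div_iff₀ (by norm_num)]
      nlinarith
    have h1 := eig_cube_q hcx hzi (by have := h.d4; omega) θ le_rfl (by linarith) h.hvd (by
        rw [hs]
        exact hB.H2) (by
        nlinarith) (by
        rw [hρe]
        have h1 := h.et_le
        have h2 : x ^ 8 ≤ 1 / 5000 := by
          calc x ^ 8 ≤ x ^ 1 := h.xp 8 1 (by norm_num)
            _ = x := pow_one x
            _ ≤ 1 / 5000 := by linarith [h.z11]
        have h3 : x ^ 8 * κ ^ 2 ≤ 1 / 5000 * κ ^ 2 := by gcongr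
        nlinarith [sq_nonneg κ]) κ hκ rfl V ψ E r hr0 (by rw [hρe]; exact hE) hψ (by
        rw [hzr, hρe]
        exact hc) x hF R x0
    rw [hρe] at h1
    exact h1

theorem prob_bd {d L : ℕ} {Cg Cs A : ℝ} {g0 bq J Q N2 p q B n0 : ℕ}
    {lam c0 θ mg κ x pG : ℝ}
    (h : Sl d L Cg Cs A g0 bq J Q N2 p q B n0 lam c0 θ mg κ x pG) (N P1 : ℕ) (hN : 1 ≤ N)
    (hxN : x ^ N ≤ lam ^ (P1 + N2)) (hQ : 3 * N2 + N + P1 + 1 ≤ 6 * Q)
    (hp : 2 * N2 + N + P1 + 1 ≤ p)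
    (z12 : 32 * (N : ℝ) ^ 3 * (2 ^ N) ^ 2 * (1 + (J + 1) * K0 g0) * x ≤ 1) :
    ((L : ℝ) ^ d * (x ^ 4) ^ N + N * (32 * (N : ℝ) ^ 2 * ((L : ℝ) ^ d) ^ 2 * (2 ^ N) ^ 2 *
        (pG + (J + 1) * (L : ℝ) ^ d * K0 g0 / (1 / x) ^ (3 * 2 ^ bq)))) / x ^ N ≤
      2 * lam ^ P1 := by
  have hx := h.x0
  have hx1 := h.x1
  have hl := h.lam0
  have hl1 := h.lam1
  have hlx := h.lx1
  obtain ⟨w1, w2⟩ := h.W
  obtain ⟨x1, x2⟩ := h.xbq
  have hK := K0_ge g0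
  have hpG := h.pG0
  have hxN0 : 0 < x ^ N := by positivity
  have hxN1 : x ^ N ≤ 1 := pow_le_one₀ hx.le hx1
  have t1 : (L : ℝ) ^ d * (x ^ 4) ^ N / x ^ N ≤ lam ^ P1 := by
    have e1 : (x ^ 4) ^ N = x ^ N * (x ^ N) ^ 2 * x ^ N := by
      rw [← pow_mul, ← pow_mul, ← pow_add, ← pow_add]
      congr 1
      ring
    have e2 : (L : ℝ) ^ d * (x ^ 4) ^ N / x ^ N = (L : ℝ) ^ d * (x ^ N * (x ^ N) ^ 2) := by
      rw [e1]
      field_simp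
    rw [e2]
    have e3 : (x ^ N) ^ 2 ≤ 1 := pow_le_one₀ hxN0.le hxN1
    calc (L : ℝ) ^ d * (x ^ N * (x ^ N) ^ 2) ≤
        1 / lam ^ (N2) * (lam ^ (P1 + N2) * 1) := by gcongr
      _ = lam ^ P1 := by
          rw [pow_add]
          field_simp
  have hx3 : x ^ (3 * 2 ^ bq) ≤ lam ^ (N2 + (2 * N2 + N + P1 + 1)) :=
    x1.trans (pow_le_pow_of_le_one hl.le hl1 (by omega))
  have e0 : ∀ y : ℝ, y / (1 / x) ^ (3 * 2 ^ bq) = y * x ^ (3 * 2 ^ bq) := by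
    intro y
    rw [one_div, inv_pow, div_inv_eq_mul]
  have hpO : pG + (J + 1) * (L : ℝ) ^ d * K0 g0 / (1 / x) ^ (3 * 2 ^ bq) ≤
      (1 + (J + 1) * K0 g0) * lam ^ (2 * N2 + N + P1 + 1) := by
    rw [e0]
    have y1 : pG ≤ lam ^ (2 * N2 + N + P1 + 1) :=
      h.pG1.trans (pow_le_pow_of_le_one hl.le hl1 hp)
    calc pG + (J + 1) * (L : ℝ) ^ d * K0 g0 * x ^ (3 * 2 ^ bq) ≤
        lam ^ (2 * N2 + N + P1 + 1) + (J + 1) * (1 / lam ^ (N2)) * K0 g0 *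
          lam ^ (N2 + (2 * N2 + N + P1 + 1)) := by gcongr
      _ = _ := by
          rw [pow_add lam (N2)]
          field_simp
  have hpO0 : 0 ≤ pG + (J + 1) * (L : ℝ) ^ d * K0 g0 / (1 / x) ^ (3 * 2 ^ bq) := by positivity
  have hL6 : ((L : ℝ) ^ d) ^ 2 ≤ 1 / lam ^ (2 * N2) := by
    calc ((L : ℝ) ^ d) ^ 2 ≤ (1 / lam ^ (N2)) ^ 2 := by gcongr
      _ = _ := by
          rw [div_pow, one_pow, ← pow_mul]
          congr 2
          ring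
  have hxl : lam ^ N ≤ x ^ N := by gcongr
  have t2 : N * (32 * (N : ℝ) ^ 2 * ((L : ℝ) ^ d) ^ 2 * (2 ^ N) ^ 2 *
        (pG + (J + 1) * (L : ℝ) ^ d * K0 g0 / (1 / x) ^ (3 * 2 ^ bq))) / x ^ N ≤ lam ^ P1 := by
    calc N * (32 * (N : ℝ) ^ 2 * ((L : ℝ) ^ d) ^ 2 * (2 ^ N) ^ 2 *
        (pG + (J + 1) * (L : ℝ) ^ d * K0 g0 / (1 / x) ^ (3 * 2 ^ bq))) / x ^ N ≤
        N * (32 * (N : ℝ) ^ 2 * (1 / lam ^ (2 * N2)) * (2 ^ N) ^ 2 *
        ((1 + (J + 1) * K0 g0) * lam ^ (2 * N2 + N + P1 + 1))) / lam ^ N := by gcongr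
      _ = (32 * (N : ℝ) ^ 3 * (2 ^ N) ^ 2 * (1 + (J + 1) * K0 g0) * lam) * lam ^ P1 := by
          rw [show 2 * N2 + N + P1 + 1 = 2 * N2 + (N + (P1 + 1)) by ring, pow_add lam (2 * N2),
            pow_add lam N, pow_succ]
          field_simp
          ring
      _ ≤ (32 * (N : ℝ) ^ 3 * (2 ^ N) ^ 2 * (1 + (J + 1) * K0 g0) * x) * lam ^ P1 := by gcongr
      _ ≤ 1 * lam ^ P1 := by gcongr
      _ = lam ^ P1 := one_mul _
  rw [add_div]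
  linarith

end Pool.Agent.V8H95.LE
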