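import Pool.Agent.V8H95.LE.Boot2

/-!
The numerical hypotheses of the descent at low energies.
-/

set_option autoImplicit false
set_option linter.unusedSectionVars false
set_option linter.unusedVariables false

open Complex MeasureTheory
open scoped BigOperators ComplexConjugate

namespace Pool.Agent.V8H95.LE

open Pool.Agent.H4R2.AE Pool.Agent.V8H99.AD Pool.Agent.V8H95.MF Pool.Agent.V8H95.BW
open Pool.Agent.V8H95.EF
open Pool.Agent.V8H95.NM hiding spec ze ze_im ze_pos XX_trans_int interp center RCb VarAt et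
open Pool.Agent.V8H95.ND (MX spec DD ze ze_im ze_pos XX_trans_int interp center RCb VarAt)

/-- relations between the small parameters -/
structure Sl (d L : ℕ) (Cg Cs A : ℝ) (g0 bq J Q N2 p q B n0 : ℕ)
    (lam c0 θ mg κ x pG : ℝ) : Prop where
  d4 : 4 ≤ d
  mx : MX d ≤ A
  lam0 : 0 < lam
  x0 : 0 < x
  lx : lam ≤ x ^ 16
  xJ : x ^ J ≤ lam ^ q
  xb : x ^ (2 ^ (bq - 1)) ≤ lam ^ Q
  hQ : 2 * N2 + 4 * q + 20 ≤ Q
  J1 : 1 ≤ J
  hg : bq * J ≤ g0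
  hb : 1 ≤ bq
  k0 : 0 < κ
  klo : lam ^ B ≤ κ
  k1 : A * κ ≤ 1
  nk : (1 / 2 : ℝ) ^ n0 ≤ κ
  kn : 2 * κ * (n0 + 1) ≤ 1
  nx : ((n0 : ℝ) + 1) * x ≤ 1
  qB : 2 + B * (d - 2) ≤ q
  Lhi : (L : ℝ) ^ d * lam ^ N2 ≤ 1
  Llo : 2 ≤ lam ^ q * L
  hp : (N2 + 4 * q + 40 + 12 * B) * 2 ^ g0 ≤ p
  pG0 : 0 ≤ pG
  pG1 : pG ≤ lam ^ p
  m0 : 0 ≤ mg
  hm : mg ≤ x ^ 3 * κ ^ 2
  c : |c0| ≤ 3
  Cg1 : 1 ≤ Cg
  Cs1 : 1 ≤ Cs
  A1 : 10000 ≤ A
  th0 : 0 < θ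
  hv : θ ≤ 1 / 3000
  hvd : θ * (1000 * (d : ℝ)) ≤ 1
  z3 : 4 * Cg * x ≤ 1
  z4 : 8 * (J + 2) * x ≤ 1
  z5 : 100 * ((d : ℝ) + 1) * x ≤ θ
  z6 : (4 * K0 g0 + 4 + 4 * (J + 1) * K0 g0) * x ≤ 1
  z7 : (8 * A + DD d) * x ≤ θ ^ 2
  z8 : 8 * Cs * K0 g0 * A * x ≤ 1
  z9 : 4 * Cs * (J + 1) * K0 g0 * x ≤ 1
  z11 : 5000 * x ≤ 1

/-- the final scale -/
noncomputable def et (d : ℕ) (lam κ x : ℝ) : ℝ := lam ^ 2 * κ ^ (d - 2) / x ^ 8

section
variable {d L : ℕ} {Cg Cs A : ℝ} {g0 bq J Q N2 p q B n0 : ℕ} {lam c0 θ mg κ x pG : ℝ}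

theorem Sl.x1 (h : Sl d L Cg Cs A g0 bq J Q N2 p q B n0 lam c0 θ mg κ x pG) : x ≤ 1 := by
  have := h.z11
  have := h.x0
  linarith

theorem Sl.xp (h : Sl d L Cg Cs A g0 bq J Q N2 p q B n0 lam c0 θ mg κ x pG) (n m : ℕ)
    (hnm : m ≤ n) : x ^ n ≤ x ^ m := pow_le_pow_of_le_one h.x0.le h.x1 hnm

theorem Sl.lx1 (h : Sl d L Cg Cs A g0 bq J Q N2 p q B n0 lam c0 θ mg κ x pG) : lam ≤ x := by
  have := h.xp 16 1 (by norm_num)
  rw [pow_one] at this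
  exact h.lx.trans this

theorem Sl.lam1 (h : Sl d L Cg Cs A g0 bq J Q N2 p q B n0 lam c0 θ mg κ x pG) : lam ≤ 1 :=
  h.lx1.trans h.x1

theorem Sl.kap1 (h : Sl d L Cg Cs A g0 bq J Q N2 p q B n0 lam c0 θ mg κ x pG) : κ ≤ 1 := by
  have h1 := h.k1
  have h2 := h.A1
  have h3 := h.k0
  nlinarith

theorem Sl.Bq (h : Sl d L Cg Cs A g0 bq J Q N2 p q B n0 lam c0 θ mg κ x pG) : B ≤ q := by
  have h1 := h.qB
  have h2 := h.d4
  have h3 : B * 1 ≤ B * (d - 2) := Nat.mul_le_mul_left _ (by omega)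
  omega

theorem Sl.kd (h : Sl d L Cg Cs A g0 bq J Q N2 p q B n0 lam c0 θ mg κ x pG) :
    lam ^ (B * (d - 2)) ≤ κ ^ (d - 2) := by
  rw [pow_mul]
  have := h.klo
  have := h.lam0
  gcongr

theorem Sl.kq (h : Sl d L Cg Cs A g0 bq J Q N2 p q B n0 lam c0 θ mg κ x pG) :
    lam ^ q ≤ κ ^ (d - 2) :=
  (pow_le_pow_of_le_one h.lam0.le h.lam1 (by have := h.qB; omega)).trans h.kd

theorem Sl.et0 (h : Sl d L Cg Cs A g0 bq J Q N2 p q B n0 lam c0 θ mg κ x pG) :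
    0 < et d lam κ x := by
  have := h.lam0
  have := h.x0
  have := h.k0
  unfold et
  positivity

theorem Sl.et_le (h : Sl d L Cg Cs A g0 bq J Q N2 p q B n0 lam c0 θ mg κ x pG) :
    et d lam κ x ≤ x ^ 8 * κ ^ 2 := by
  have hx := h.x0
  have hk := h.k0
  have hl := h.lam0
  unfold et
  rw [div_le_iff₀ (by positivity)]
  have h1 : κ ^ (d - 2) ≤ κ ^ 2 := pow_le_pow_of_le_one hk.le h.kap1 (by have := h.d4; omega)
  have h2 : lam ^ 2 ≤ x ^ 16 := by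
    calc lam ^ 2 ≤ lam ^ 1 := pow_le_pow_of_le_one hl.le h.lam1 (by norm_num)
      _ = lam := pow_one lam
      _ ≤ x ^ 16 := h.lx
  calc lam ^ 2 * κ ^ (d - 2) ≤ x ^ 16 * κ ^ 2 := by gcongr
    _ = _ := by ring

theorem Sl.et_ge1 (h : Sl d L Cg Cs A g0 bq J Q N2 p q B n0 lam c0 θ mg κ x pG) :
    lam ^ 2 * κ ^ (d - 2) ≤ et d lam κ x := by
  have hx := h.x0
  have hk := h.k0
  have hl := h.lam0
  unfold et
  rw [le_div_iff₀ (by positivity)]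
  have h1 : x ^ 8 ≤ 1 := pow_le_one₀ h.x0.le h.x1
  have h2 : 0 ≤ lam ^ 2 * κ ^ (d - 2) := by positivity
  nlinarith

theorem Sl.et_ge (h : Sl d L Cg Cs A g0 bq J Q N2 p q B n0 lam c0 θ mg κ x pG) :
    lam ^ q ≤ et d lam κ x := by
  refine le_trans ?_ h.et_ge1
  have hl := h.lam0
  calc lam ^ q ≤ lam ^ (2 + B * (d - 2)) := pow_le_pow_of_le_one hl.le h.lam1 h.qB
    _ = lam ^ 2 * lam ^ (B * (d - 2)) := pow_add _ _ _
    _ ≤ lam ^ 2 * κ ^ (d - 2) := by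
        have := h.kd
        gcongr

/-- the ratio of the scales -/
theorem Sl.rho (h : Sl d L Cg Cs A g0 bq J Q N2 p q B n0 lam c0 θ mg κ x pG) :
    ∃ ρ : ℝ, 0 < ρ ∧ ρ ≤ 1 ∧ x ≤ ρ ∧ κ ^ 2 * ρ ^ J = et d lam κ x := by
  have hx := h.x0
  have hk := h.k0
  have hl := h.lam0
  have hη := h.et0
  have hJ0 : J ≠ 0 := by have := h.J1; omega
  have hr0 : 0 < et d lam κ x / κ ^ 2 := by positivity
  set ρ := (et d lam κ x / κ ^ 2) ^ ((J : ℝ)⁻¹) with hρ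
  have hρ0 : 0 < ρ := Real.rpow_pos_of_pos hr0 _
  have hρJ : ρ ^ J = et d lam κ x / κ ^ 2 := Real.rpow_inv_natCast_pow hr0.le hJ0
  have hr1 : et d lam κ x / κ ^ 2 ≤ 1 := by
    rw [div_le_one (by positivity)]
    refine h.et_le.trans ?_
    have : x ^ 8 ≤ 1 := pow_le_one₀ hx.le h.x1
    have : 0 < κ ^ 2 := by positivity
    nlinarith
  refine ⟨ρ, hρ0, Real.rpow_le_one hr0.le hr1 (by positivity), ?_, ?_⟩
  · by_contra hc
    push Not at hc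
    have h3 : ρ ^ J < x ^ J := pow_lt_pow_left₀ hc hρ0.le hJ0
    have h4 : lam ^ q ≤ ρ ^ J := by
      rw [hρJ, le_div_iff₀ (by positivity)]
      have h5 : κ ^ 2 ≤ 1 := pow_le_one₀ hk.le h.kap1
      have h6 := h.et_ge
      have h7 : 0 < lam ^ q := by positivity
      nlinarith
    have := h.xJ
    linarith
  · rw [hρJ]
    field_simp

theorem Sl.W (h : Sl d L Cg Cs A g0 bq J Q N2 p q B n0 lam c0 θ mg κ x pG) :
    (L : ℝ) ^ d ≤ 1 / lam ^ (N2) ∧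
    (L : ℝ) ^ d / (et d lam κ x) ^ 2 ≤ 1 / lam ^ (N2 + 2 * q) := by
  have hl := h.lam0
  have hη := h.et0
  have h1 : (L : ℝ) ^ d ≤ 1 / lam ^ (N2) := by
    rw [le_div_iff₀ (by positivity)]
    exact h.Lhi
  refine ⟨h1, ?_⟩
  have h2 : (lam ^ q) ^ 2 ≤ (et d lam κ x) ^ 2 := by
    have := h.et_ge
    gcongr
  calc (L : ℝ) ^ d / (et d lam κ x) ^ 2 ≤ (1 / lam ^ (N2)) / (lam ^ q) ^ 2 := by gcongr
    _ = _ := by
        rw [pow_add, ← pow_mul, mul_comm q 2]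
        field_simp

theorem Sl.xbq (h : Sl d L Cg Cs A g0 bq J Q N2 p q B n0 lam c0 θ mg κ x pG) :
    x ^ (3 * 2 ^ bq) ≤ lam ^ (6 * Q) ∧ x ^ (2 ^ bq) ≤ lam ^ (2 * Q) := by
  have hb := h.hb
  have e1 : 2 ^ bq = 2 * 2 ^ (bq - 1) := by
    rw [← pow_succ']
    congr 1
    omega
  have h1 := h.xb
  have h0 : 0 ≤ x ^ (2 ^ (bq - 1)) := by
    have := h.x0
    positivity
  constructor
  · rw [e1]
    have h2 := pow_le_pow_left₀ h0 h1 6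
    rw [← pow_mul, ← pow_mul] at h2
    have e2 : 3 * (2 * 2 ^ (bq - 1)) = 2 ^ (bq - 1) * 6 := by ring
    rw [e2, mul_comm 6 Q]
    exact h2
  · rw [e1]
    have h2 := pow_le_pow_left₀ h0 h1 2
    rw [← pow_mul, ← pow_mul] at h2
    rw [mul_comm 2 (2 ^ (bq - 1)), mul_comm 2 Q]
    exact h2

/-- the levels compared with the scales -/
theorem Sl.lvr (h : Sl d L Cg Cs A g0 bq J Q N2 p q B n0 lam c0 θ mg κ x pG) (ρ : ℝ) (hρ : x ≤ ρ)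
    (hρ1 : ρ ≤ 1) (he : κ ^ 2 * ρ ^ J = et d lam κ x) (j : ℕ) (hj : j + 1 ≤ J) :
    lam ^ 2 * lv d κ ρ (n0 + 1) j / (κ ^ 2 * ρ ^ (j + 1)) ≤ 2 * x ^ 8 := by
  have hx := h.x0
  have hk := h.k0
  have hl := h.lam0
  have hρ0 : 0 < ρ := lt_of_lt_of_le hx hρ
  have hp : κ ^ 2 * ρ ^ J ≤ κ ^ 2 * ρ ^ (j + 1) := by
    have : ρ ^ J ≤ ρ ^ (j + 1) := pow_le_pow_of_le_one hρ0.le hρ1 hj
    gcongr
  rw [he] at hp
  have h1 : lam ^ 2 * κ ^ (d - 2) / (κ ^ 2 * ρ ^ (j + 1)) ≤ x ^ 8 := by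
    have hη := h.et0
    calc lam ^ 2 * κ ^ (d - 2) / (κ ^ 2 * ρ ^ (j + 1)) ≤
        lam ^ 2 * κ ^ (d - 2) / et d lam κ x := by gcongr
      _ = x ^ 8 := by
          unfold et
          field_simp
  have h2 : lam ^ 2 * (κ ^ 2 * ρ ^ j * (n0 + 1)) / (κ ^ 2 * ρ ^ (j + 1)) ≤ x ^ 8 := by
    have e : lam ^ 2 * (κ ^ 2 * ρ ^ j * (n0 + 1)) / (κ ^ 2 * ρ ^ (j + 1)) =
        lam ^ 2 * (n0 + 1) / ρ := by
      rw [pow_succ ρ j]
      field_simp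
    rw [e, div_le_iff₀ hρ0]
    have h3 : lam ^ 2 ≤ x ^ 16 * x ^ 16 := by
      calc lam ^ 2 = lam * lam := by ring
        _ ≤ x ^ 16 * x ^ 16 := by
            have := h.lx
            gcongr
    have h4 := h.nx
    have hn : (0 : ℝ) ≤ (n0 : ℝ) + 1 := by positivity
    calc lam ^ 2 * ((n0 : ℝ) + 1) ≤ x ^ 16 * x ^ 16 * ((n0 : ℝ) + 1) := by gcongr
      _ = x ^ 31 * (((n0 : ℝ) + 1) * x) := by ring
      _ ≤ x ^ 31 * 1 := by gcongr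
      _ = x ^ 31 := mul_one _
      _ ≤ x ^ 9 := h.xp 31 9 (by norm_num)
      _ = x ^ 8 * x := by ring
      _ ≤ x ^ 8 * ρ := by gcongr
  unfold lv
  rw [mul_add, add_div]
  linarith

theorem Sl.fHs (h : Sl d L Cg Cs A g0 bq J Q N2 p q B n0 lam c0 θ mg κ x pG) (ρ : ℝ) (hρ : x ≤ ρ)
    (hρ1 : ρ ≤ 1) (he : κ ^ 2 * ρ ^ J = et d lam κ x) (j : ℕ) (hj : j + 1 ≤ J) :
    4 * lam ^ 2 * (1 / x * (A * lv d κ ρ (n0 + 1) j) / ρ ^ 2) / (κ ^ 2 * ρ ^ (j + 1)) ≤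
      8 * A * x ^ 5 := by
  have hx := h.x0
  have hρ0 : 0 < ρ := lt_of_lt_of_le hx hρ
  have hA := h.A1
  have hA0 : 0 < A := by linarith
  have h1 := h.lvr ρ hρ hρ1 he j hj
  have h0 : 0 ≤ lam ^ 2 * lv d κ ρ (n0 + 1) j / (κ ^ 2 * ρ ^ (j + 1)) := by
    have := lv_pos (d := d) h.k0 hρ0 (by positivity : (0 : ℝ) < (n0 : ℝ) + 1) j
    have := h.k0
    positivity
  calc 4 * lam ^ 2 * (1 / x * (A * lv d κ ρ (n0 + 1) j) / ρ ^ 2) / (κ ^ 2 * ρ ^ (j + 1)) =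
      4 * A / (x * ρ ^ 2) * (lam ^ 2 * lv d κ ρ (n0 + 1) j / (κ ^ 2 * ρ ^ (j + 1))) := by
        have := h.k0
        field_simp
    _ ≤ 4 * A / (x * x ^ 2) * (2 * x ^ 8) := by gcongr
    _ = _ := by
        field_simp
        ring

theorem Sl.fH3 (h : Sl d L Cg Cs A g0 bq J Q N2 p q B n0 lam c0 θ mg κ x pG) (ρ : ℝ) (hρ : x ≤ ρ)
    (hρ1 : ρ ≤ 1) (he : κ ^ 2 * ρ ^ J = et d lam κ x) (j : ℕ) (hj : j + 1 ≤ J) :
    Cs * (2 * K0 g0) * (lam ^ 2 * (A * lv d κ ρ (n0 + 1) j) /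
    (ρ ^ 5 * (κ ^ 2 * ρ ^ (j + 1)))) ≤ 1 / 2 := by
  have hx := h.x0
  have hρ0 : 0 < ρ := lt_of_lt_of_le hx hρ
  have hA := h.A1
  have hA0 : 0 < A := by linarith
  have hCs := h.Cs1
  have hK := K0_ge g0
  have h1 := h.lvr ρ hρ hρ1 he j hj
  have h0 : 0 ≤ lam ^ 2 * lv d κ ρ (n0 + 1) j / (κ ^ 2 * ρ ^ (j + 1)) := by
    have := lv_pos (d := d) h.k0 hρ0 (by positivity : (0 : ℝ) < (n0 : ℝ) + 1) j
    have := h.k0
    positivity
  have h3 : x ^ 3 ≤ x := by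
    have := h.xp 3 1 (by norm_num)
    rwa [pow_one] at this
  calc Cs * (2 * K0 g0) * (lam ^ 2 * (A * lv d κ ρ (n0 + 1) j) /
      (ρ ^ 5 * (κ ^ 2 * ρ ^ (j + 1)))) =
      Cs * (2 * K0 g0) * (A / ρ ^ 5 * (lam ^ 2 * lv d κ ρ (n0 + 1) j / (κ ^ 2 * ρ ^ (j + 1)))) := by
        have := h.k0
        field_simp
    _ ≤ Cs * (2 * K0 g0) * (A / x ^ 5 * (2 * x ^ 8)) := by gcongr
    _ = 1 / 2 * (8 * Cs * K0 g0 * A * x ^ 3) := by
        field_simp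
        ring
    _ ≤ 1 / 2 * (8 * Cs * K0 g0 * A * x) := by gcongr
    _ ≤ 1 / 2 * 1 := by
        have := h.z8
        gcongr
    _ = 1 / 2 := by norm_num

theorem Sl.fH1 (h : Sl d L Cg Cs A g0 bq J Q N2 p q B n0 lam c0 θ mg κ x pG) (ρ : ℝ) (hρ : x ≤ ρ) :
    lam * (Cg * (n0 + 1) + 2 / ρ * ((J + 2) * (1 / x * (A * κ) / ρ))) ≤ 1 / 4 := by
  have hx := h.x0
  have hk := h.k0
  have hl := h.lam0
  have hA := h.A1
  have hCg := h.Cg1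
  have hA0 : 0 < A := by linarith
  have hρ0 : 0 < ρ := lt_of_lt_of_le hx hρ
  have hx2 : x ≤ 1 / 5000 := by linarith [h.z11]
  have hn : (0 : ℝ) ≤ (n0 : ℝ) + 1 := by positivity
  have a2 : lam * (Cg * (n0 + 1)) ≤ 1 / 8 := by
    have hx14 : x ^ 14 ≤ 1 / 2 := by
      calc x ^ 14 ≤ x ^ 1 := h.xp 14 1 (by norm_num)
        _ = x := pow_one x
        _ ≤ 1 / 2 := by linarith
    calc lam * (Cg * (n0 + 1)) ≤ x ^ 16 * (Cg * (n0 + 1)) := by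
          have := h.lx
          gcongr
      _ = (((n0 : ℝ) + 1) * x) * ((Cg * x) * x ^ 14) := by ring
      _ ≤ 1 * ((Cg * x) * (1 / 2)) := by
          have := h.nx
          gcongr
      _ ≤ 1 / 8 := by linarith [h.z3]
  have h3 : A * κ ≤ 1 := h.k1
  have hx12 : x ^ 12 ≤ 1 / 2 := by
    calc x ^ 12 ≤ x ^ 1 := h.xp 12 1 (by norm_num)
      _ = x := pow_one x
      _ ≤ 1 / 2 := by linarith
  have a3 : lam * (2 / ρ * ((J + 2) * (1 / x * (A * κ) / ρ))) ≤ 1 / 8 := by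
    calc lam * (2 / ρ * ((J + 2) * (1 / x * (A * κ) / ρ))) ≤
        x ^ 16 * (2 / x * ((J + 2) * (1 / x * 1 / x))) := by
          have := h.lx
          gcongr
      _ = (2 * (J + 2) * x) * x ^ 12 := by field_simp
      _ ≤ (2 * (J + 2) * x) * (1 / 2) := by gcongr
      _ ≤ 1 / 8 := by linarith [h.z4]
  rw [mul_add]
  linarith

theorem Sl.fHT (h : Sl d L Cg Cs A g0 bq J Q N2 p q B n0 lam c0 θ mg κ x pG) (ρ : ℝ) (hρ : x ≤ ρ) :
    4 * lam ^ 2 / (et d lam κ x) * ((L : ℝ) ^ d / (et d lam κ x) ^ 2 *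
    (1 / x * (A * κ) / ρ ^ 2 * K0 g0 / (1 / x) ^ (3 * 2 ^ bq))) +
    4 * (L : ℝ) ^ d / (et d lam κ x) ^ 2 *
      (pG + (J + 1) * (L : ℝ) ^ d * K0 g0 / (1 / x) ^ (3 * 2 ^ bq)) ≤ x := by
  have hx := h.x0
  have hk := h.k0
  have hl := h.lam0
  have hη := h.et0
  have hA := h.A1
  have hA0 : 0 < A := by linarith
  have hρ0 : 0 < ρ := lt_of_lt_of_le hx hρ
  have hK := K0_ge g0
  have hK0 : 0 < K0 g0 := by linarith
  obtain ⟨w1, w2⟩ := h.W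
  obtain ⟨x1, x2⟩ := h.xbq
  have hl1 := h.lam1
  have hk1 := h.k1
  have hb3 : 1 / x * (A * κ) / ρ ^ 2 ≤ 1 / lam := by
    calc 1 / x * (A * κ) / ρ ^ 2 ≤ 1 / x * 1 / x ^ 2 := by gcongr
      _ = 1 / x ^ 3 := by field_simp
      _ ≤ 1 / lam := by
          apply one_div_le_one_div_of_le hl
          exact h.lx.trans (h.xp 16 3 (by norm_num))
  have hQ := h.hQ
  have e0 : ∀ y : ℝ, y / (1 / x) ^ (3 * 2 ^ bq) = y * x ^ (3 * 2 ^ bq) := by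
    intro y
    rw [one_div, inv_pow, div_inv_eq_mul]
  rw [e0, e0]
  have hl2 : lam ^ 2 ≤ 1 := pow_le_one₀ hl.le hl1
  have t1 : 4 * lam ^ 2 / (et d lam κ x) * ((L : ℝ) ^ d / (et d lam κ x) ^ 2 *
      (1 / x * (A * κ) / ρ ^ 2 * K0 g0 * x ^ (3 * 2 ^ bq))) ≤ 4 * K0 g0 * lam := by
    calc 4 * lam ^ 2 / (et d lam κ x) * ((L : ℝ) ^ d / (et d lam κ x) ^ 2 *
        (1 / x * (A * κ) / ρ ^ 2 * K0 g0 * x ^ (3 * 2 ^ bq))) ≤
        4 * 1 / lam ^ q * (1 / lam ^ (N2 + 2 * q) *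
          (1 / lam * K0 g0 * lam ^ (q + (N2 + 2 * q) + 2))) := by
          have := h.et_ge
          have x3 : x ^ (3 * 2 ^ bq) ≤ lam ^ (q + (N2 + 2 * q) + 2) :=
            x1.trans (pow_le_pow_of_le_one hl.le hl1 (by omega))
          gcongr
      _ = 4 * K0 g0 * lam := by
          rw [pow_add lam (q + (N2 + 2 * q)) 2, pow_add lam q]
          field_simp
  have t2 : 4 * (L : ℝ) ^ d / (et d lam κ x) ^ 2 *
      (pG + (J + 1) * (L : ℝ) ^ d * K0 g0 * x ^ (3 * 2 ^ bq)) ≤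
      4 * lam + 4 * (J + 1) * K0 g0 * lam := by
    have hp := h.hp
    have hg1 : 1 ≤ 2 ^ g0 := Nat.one_le_two_pow
    have hp1 : N2 + 2 * q + 1 ≤ p := by
      have : (N2 + 4 * q + 40 + 12 * B) * 1 ≤ (N2 + 4 * q + 40 + 12 * B) * 2 ^ g0 :=
        Nat.mul_le_mul_left _ hg1
      omega
    have y1 : pG ≤ lam ^ (N2 + 2 * q + 1) := h.pG1.trans (pow_le_pow_of_le_one hl.le hl1 hp1)
    have y2 : x ^ (3 * 2 ^ bq) ≤ lam ^ (N2 + (N2 + 2 * q + 1)) :=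
      x1.trans (pow_le_pow_of_le_one hl.le hl1 (by omega))
    have e1 : 4 * (L : ℝ) ^ d / (et d lam κ x) ^ 2 = 4 * ((L : ℝ) ^ d / (et d lam κ x) ^ 2) := by
      ring
    have hpG := h.pG0
    rw [e1]
    calc 4 * ((L : ℝ) ^ d / (et d lam κ x) ^ 2) *
        (pG + (J + 1) * (L : ℝ) ^ d * K0 g0 * x ^ (3 * 2 ^ bq)) ≤
        4 * (1 / lam ^ (N2 + 2 * q)) * (lam ^ (N2 + 2 * q + 1) +
          (J + 1) * (1 / lam ^ (N2)) * K0 g0 * lam ^ (N2 + (N2 + 2 * q + 1))) := by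
          gcongr
      _ = 4 * (1 / lam ^ (N2 + 2 * q)) * (lam ^ (N2 + 2 * q + 1) +
          (J + 1) * K0 g0 * lam ^ (N2 + 2 * q + 1)) := by
          rw [pow_add lam (N2) (N2 + 2 * q + 1)]
          field_simp
      _ = _ := by
          rw [pow_add lam (N2 + 2 * q) 1]
          field_simp
  have hlx : lam ≤ x * x := by
    refine h.lx.trans ?_
    calc x ^ 16 ≤ x ^ 2 := h.xp 16 2 (by norm_num)
      _ = x * x := by ring
  have z6 := h.z6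
  calc _ ≤ 4 * K0 g0 * lam + (4 * lam + 4 * (J + 1) * K0 g0 * lam) := add_le_add t1 t2
    _ = (4 * K0 g0 + 4 + 4 * (J + 1) * K0 g0) * lam := by ring
    _ ≤ (4 * K0 g0 + 4 + 4 * (J + 1) * K0 g0) * (x * x) := by gcongr
    _ = ((4 * K0 g0 + 4 + 4 * (J + 1) * K0 g0) * x) * x := by ring
    _ ≤ 1 * x := by gcongr
    _ = x := one_mul x

theorem Sl.z9' (h : Sl d L Cg Cs A g0 bq J Q N2 p q B n0 lam c0 θ mg κ x pG) :
    4 * Cs * lam ≤ 1 := by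
  have h9 := h.z9
  have hCs := h.Cs1
  have hx := h.x0
  have hK := K0_ge g0
  have h3 := h.lx1
  have h4 : 1 ≤ ((J : ℝ) + 1) * K0 g0 := by
    have : (0 : ℝ) ≤ J := Nat.cast_nonneg J
    nlinarith
  calc 4 * Cs * lam ≤ 4 * Cs * x * 1 := by rw [mul_one]; gcongr
    _ ≤ 4 * Cs * x * (((J : ℝ) + 1) * K0 g0) := by gcongr
    _ = 4 * Cs * (J + 1) * K0 g0 * x := by ring
    _ ≤ 1 := h9

theorem Sl.fH4a (h : Sl d L Cg Cs A g0 bq J Q N2 p q B n0 lam c0 θ mg κ x pG) :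
    Cs * ((L : ℝ) ^ d / (et d lam κ x) ^ 2) ^ (2 ^ g0) * pG ≤
      1 / 4 * (A * κ ^ (d - 2)) ^ (2 * 2 ^ g0) := by
  have hx := h.x0
  have hl := h.lam0
  have hη := h.et0
  have hA := h.A1
  have hk := h.k0
  have hCs := h.Cs1
  obtain ⟨w1, w2⟩ := h.W
  have hl1 := h.lam1
  have hpG := h.pG0
  have hp := h.hp
  have hkq := h.kq
  obtain ⟨G, hG⟩ : ∃ G : ℕ, G = 2 ^ g0 := ⟨_, rfl⟩
  have hG1 : 1 ≤ G := by rw [hG]; exact Nat.one_le_two_pow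
  rw [← hG] at hp ⊢
  have hp1 : (N2 + 2 * q) * G + (q * (2 * G) + 1) ≤ p := by
    refine le_trans ?_ hp
    nlinarith
  have y1 : pG ≤ lam ^ ((N2 + 2 * q) * G + (q * (2 * G) + 1)) :=
    h.pG1.trans (pow_le_pow_of_le_one hl.le hl1 hp1)
  have y2 : lam ^ (q * (2 * G)) ≤ (A * κ ^ (d - 2)) ^ (2 * G) := by
    rw [pow_mul]
    have : lam ^ q ≤ A * κ ^ (d - 2) := by
      have : 0 < κ ^ (d - 2) := by positivity
      nlinarith
    gcongr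
  have z9 := h.z9'
  calc Cs * ((L : ℝ) ^ d / (et d lam κ x) ^ 2) ^ G * pG ≤
      Cs * (1 / lam ^ (N2 + 2 * q)) ^ G * lam ^ ((N2 + 2 * q) * G + (q * (2 * G) + 1)) := by
        gcongr
    _ = 1 / 4 * (4 * Cs * lam) * lam ^ (q * (2 * G)) := by
        rw [one_div_pow, ← pow_mul, pow_add lam ((N2 + 2 * q) * G), pow_add lam (q * (2 * G)) 1]
        field_simp
    _ ≤ 1 / 4 * 1 * (A * κ ^ (d - 2)) ^ (2 * G) := by gcongr
    _ = _ := by ring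

theorem Sl.fH4b (h : Sl d L Cg Cs A g0 bq J Q N2 p q B n0 lam c0 θ mg κ x pG) :
    (L : ℝ) ^ d / (et d lam κ x) ^ 2 ≤ (A * κ ^ (d - 2)) ^ 2 * (1 / x) ^ (2 ^ bq) := by
  have hx := h.x0
  have hl := h.lam0
  have hA := h.A1
  have hk := h.k0
  obtain ⟨w1, w2⟩ := h.W
  obtain ⟨x1, x2⟩ := h.xbq
  have hl1 := h.lam1
  have hQ := h.hQ
  have hkq := h.kq
  have x3 : x ^ (2 ^ bq) ≤ lam ^ (2 * q + (N2 + 2 * q)) :=
    x2.trans (pow_le_pow_of_le_one hl.le hl1 (by omega))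
  have y2 : lam ^ (2 * q) ≤ (A * κ ^ (d - 2)) ^ 2 := by
    have h3 : lam ^ q ≤ A * κ ^ (d - 2) := by
      have : 0 < κ ^ (d - 2) := by positivity
      nlinarith
    calc lam ^ (2 * q) = (lam ^ q) ^ 2 := by rw [← pow_mul, mul_comm q 2]
      _ ≤ _ := by gcongr
  refine w2.trans ?_
  rw [one_div_pow]
  calc 1 / lam ^ (N2 + 2 * q) = lam ^ (2 * q) * (1 / lam ^ (2 * q + (N2 + 2 * q))) := by
        rw [pow_add lam (2 * q)]
        field_simp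
    _ ≤ (A * κ ^ (d - 2)) ^ 2 * (1 / x ^ (2 ^ bq)) := by gcongr

theorem Sl.fH4c (h : Sl d L Cg Cs A g0 bq J Q N2 p q B n0 lam c0 θ mg κ x pG) :
    Cs * ((J + 1) * (L : ℝ) ^ d * K0 g0) ≤ 1 / 4 * (1 / x) ^ (2 ^ (bq - 1)) := by
  have hx := h.x0
  have hl := h.lam0
  have hCs := h.Cs1
  have hK := K0_ge g0
  obtain ⟨w1, w2⟩ := h.W
  have hl1 := h.lam1
  have hQ := h.hQ
  have hxb : x ^ (2 ^ (bq - 1)) ≤ lam ^ (N2 + 1) :=
    h.xb.trans (pow_le_pow_of_le_one hl.le hl1 (by omega))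
  have h3 := h.lx1
  have z9 : 4 * Cs * (J + 1) * K0 g0 * lam ≤ 1 := by
    refine le_trans ?_ h.z9
    gcongr
  rw [one_div_pow]
  have h5 : 1 / lam ^ (N2 + 1) ≤ 1 / x ^ (2 ^ (bq - 1)) := by gcongr
  calc Cs * ((J + 1) * (L : ℝ) ^ d * K0 g0) ≤ Cs * ((J + 1) * (1 / lam ^ (N2)) * K0 g0) := by
        gcongr
    _ = 1 / 4 * (4 * Cs * (J + 1) * K0 g0 * lam) * (1 / lam ^ (N2 + 1)) := by
        rw [pow_succ]
        field_simp
    _ ≤ 1 / 4 * 1 * (1 / x ^ (2 ^ (bq - 1))) := by gcongr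
    _ = _ := by ring

end

/-- **the hypotheses of the descent hold** -/
theorem bl_ok {d L : ℕ} [NeZero L] (μ : Measure ℝ) [IsProbabilityMeasure μ] {Cg Cs A : ℝ}
    {g0 bq J Q N2 p q B n0 : ℕ} {lam c0 θ mg κ x : ℝ} (G : Set (T d L → ℝ))
    (h : Sl d L Cg Cs A g0 bq J Q N2 p q B n0 lam c0 θ mg κ x
      ((Measure.pi fun _ : T d L => μ).real Gᶜ))
    (hGm : MeasurableSet G) (hG : ∀ V ∈ G, ∃ ψ : T d L → ℝ, Gd lam c0 θ mg V ψ) :
    ∃ ρ, x ≤ ρ ∧ κ ^ 2 * ρ ^ J = et d lam κ x ∧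
      Bl μ Cg Cs A g0 bq J n0 lam c0 θ mg κ ρ (1 / x) θ
      ((Measure.pi fun _ : T d L => μ).real Gᶜ +
        (J + 1) * (L : ℝ) ^ d * K0 g0 / (1 / x) ^ (3 * 2 ^ bq)) x (8 * A * x ^ 5) G := by
  obtain ⟨ρ, hρ0, hρ1, hρx, hρe⟩ := h.rho
  refine ⟨ρ, hρx, hρe, ?_⟩
  have hx := h.x0
  have hk := h.k0
  have hl := h.lam0
  have hη := h.et0
  have hA := h.A1
  have hA0 : 0 < A := by linarith
  have hK := K0_ge g0
  have hCs := h.Cs1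
  have hl1 := h.lam1
  have hθ0 := h.th0
  have hpp := h.hp
  have hg1 : 1 ≤ 2 ^ g0 := Nat.one_le_two_pow
  have hp2 : (N2 + 4 * q + 40 + 12 * B) * 1 ≤ (N2 + 4 * q + 40 + 12 * B) * 2 ^ g0 :=
    Nat.mul_le_mul_left _ hg1
  have hz5 : x ≤ θ := by
    have h1 := h.z5
    have h3 : (4 : ℝ) ≤ d := by exact_mod_cast h.d4
    nlinarith
  refine
    { d4 := h.d4
      mx := h.mx
      lam0 := hl.le
      lam1 := hl1
      meas := hGm
      good := hG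
      th0 := hθ0
      thv := le_rfl
      hv := h.hv
      hvd := h.hvd
      k0 := hk
      k1 := h.k1
      nk := h.nk
      kn := h.kn
      r0 := hρ0
      r1 := hρ1
      L1 := ?_
      hJ := h.hg
      hb := h.hb
      m0 := h.m0
      hm := ?_
      c := h.c
      pG := ?_
      yL := ?_
      kL := ?_
      hδ := le_rfl
      H0 := ?_
      H1 := h.fH1 ρ hρx
      HT := ?_
      Hs0 := by positivity
      Hs := fun j hj => h.fHs ρ hρx hρ1 hρe j hj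
      H2 := ?_
      H3 := fun j hj => h.fH3 ρ hρx hρ1 hρe j hj
      H4a := ?_
      H4b := ?_
      H4c := h.fH4c }
  · rw [one_le_div hx]
    exact h.x1
  · refine h.hm.trans ?_
    have h3 : x ^ 3 ≤ x := by
      have := h.xp 3 1 (by norm_num)
      rwa [pow_one] at this
    have : x ^ 3 ≤ θ := h3.trans hz5
    gcongr
  · rw [hρe]
    have y1 : (Measure.pi fun _ : T d L => μ).real Gᶜ ≤ lam ^ (1 + q * 2 + B * 2) := by
      refine h.pG1.trans (pow_le_pow_of_le_one hl.le hl1 ?_)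
      omega
    have h3 := h.lx1
    have h4 := h.et_ge
    have h5 := h.klo
    calc (Measure.pi fun _ : T d L => μ).real Gᶜ * (100 * ((d : ℝ) + 1)) ≤
        lam ^ (1 + q * 2 + B * 2) * (100 * ((d : ℝ) + 1)) := by gcongr
      _ = (100 * ((d : ℝ) + 1) * lam) * (lam ^ q) ^ 2 * (lam ^ B) ^ 2 := by
          rw [pow_add, pow_add, pow_mul, pow_mul, pow_one]
          ring
      _ ≤ θ * (et d lam κ x) ^ 2 * κ ^ 2 := by
          have : 100 * ((d : ℝ) + 1) * lam ≤ θ := by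
            refine le_trans ?_ h.z5
            gcongr
          gcongr
  · rw [hρe]
    have h3 := h.Llo
    have h4 := h.et_ge
    have hLp : (0 : ℝ) < L := by exact_mod_cast NeZero.pos L
    calc κ ≤ 1 := h.kap1
      _ ≤ lam ^ q * L := by linarith
      _ ≤ et d lam κ x * L := by gcongr
  · have h3 := h.Llo
    have hLp : (0 : ℝ) < L := by exact_mod_cast NeZero.pos L
    calc (2 : ℝ) ≤ lam ^ q * L := h3
      _ ≤ lam ^ B * L := by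
          have : lam ^ q ≤ lam ^ B := pow_le_pow_of_le_one hl.le hl1 h.Bq
          gcongr
      _ ≤ κ * L := by
          have := h.klo
          gcongr
  · refine h.pG1.trans ?_
    calc lam ^ p ≤ lam ^ (B * (12 * 2 ^ g0)) := by
          apply pow_le_pow_of_le_one hl.le hl1
          refine le_trans ?_ hpp
          nlinarith
      _ = (lam ^ B) ^ (12 * 2 ^ g0) := by rw [pow_mul]
      _ ≤ κ ^ (12 * 2 ^ g0) := by
          have := h.klo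
          gcongr
  · rw [hρe]
    exact h.fHT ρ hρx
  · have z7 := h.z7
    have h5 : x ^ 5 ≤ x := by
      have := h.xp 5 1 (by norm_num)
      rwa [pow_one] at this
    calc 8 * A * x ^ 5 + DD d * x ≤ 8 * A * x + DD d * x := by gcongr
      _ = (8 * A + DD d) * x := by ring
      _ ≤ _ := z7
  · rw [hρe]
    exact h.fH4a
  · rw [hρe]
    exact h.fH4b

end Pool.Agent.V8H95.LE
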