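import Pool.Agent.V8H95.ND.Boot2

/-!
Deterministic spectral bounds and the mean local density of states at low energies, `d ≥ 4`.
-/

set_option autoImplicit false
set_option linter.unusedSectionVars false
set_option linter.unusedVariables false

open Complex MeasureTheory
open scoped BigOperators ComplexConjugate

namespace Pool.Agent.V8H95.LE

open Pool.Agent.H4R2.AE Pool.Agent.V8H99.AD Pool.Agent.V8H95.MF Pool.Agent.V8H95.BW
open Pool.Agent.V8H95.EF Pool.Agent.V8H95.NM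
open Pool.Agent.V8H95.ND (MX spec DD)

/-- a dyadic decomposition with a logarithm -/
theorem dyl {ι : Type*} (s : Finset ι) (w h : ι → ℝ) (hw : ∀ i ∈ s, 0 ≤ w i) (n : ℕ) (C : ℝ)
    (hh : ∀ i ∈ s, (1 / 2 : ℝ) ^ n ≤ h i) (hT : ∑ i ∈ s, w i ≤ C)
    (hN : ∀ x, (1 / 2 : ℝ) ^ n ≤ x → (∑ i ∈ s, if h i ≤ x then w i else 0) ≤ C * x ^ 4) :
    ∑ i ∈ s, w i / h i ^ 4 ≤ 16 * C * (n + 1) := by
  classical
  have hpt : ∀ (n : ℕ) (t : ℝ), (1 / 2 : ℝ) ^ n ≤ t →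
      1 / t ^ 4 ≤ 1 + ∑ j ∈ Finset.range n, 16 ^ (j + 1) * (if t ≤ (1 / 2) ^ j then (1 : ℝ) else 0) := by
    intro n
    induction n with
    | zero =>
      intro t ht
      rw [pow_zero] at ht
      rw [Finset.range_zero, Finset.sum_empty, add_zero, div_le_one (by positivity)]
      exact one_le_pow₀ ht
    | succ n ih =>
      intro t ht
      rw [Finset.sum_range_succ]
      have h0 : 0 ≤ ∑ j ∈ Finset.range n, (16 : ℝ) ^ (j + 1) *
          (if t ≤ (1 / 2) ^ j then (1 : ℝ) else 0) :=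
        Finset.sum_nonneg fun j _ => by split_ifs <;> positivity
      rcases le_total ((1 / 2 : ℝ) ^ n) t with h1 | h1
      · have h2 := ih t h1
        have h3 : 0 ≤ (16 : ℝ) ^ (n + 1) * (if t ≤ (1 / 2) ^ n then (1 : ℝ) else 0) := by
          split_ifs <;> positivity
        linarith
      · rw [if_pos h1]
        have h2 : 0 < (1 / 2 : ℝ) ^ (n + 1) := by positivity
        have h3 : ((1 / 2 : ℝ) ^ (n + 1)) ^ 4 ≤ t ^ 4 := by gcongr
        have h4 : 1 / t ^ 4 ≤ 1 / ((1 / 2 : ℝ) ^ (n + 1)) ^ 4 :=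
          one_div_le_one_div_of_le (by positivity) h3
        have h5 : 1 / ((1 / 2 : ℝ) ^ (n + 1)) ^ 4 = 16 ^ (n + 1) := by
          rw [← pow_mul, mul_comm (n + 1) 4, pow_mul, one_div, ← inv_pow]
          norm_num
        rw [h5] at h4
        linarith
  have h1 : ∑ i ∈ s, w i / h i ^ 4 ≤ ∑ i ∈ s, (w i + ∑ j ∈ Finset.range n, 16 ^ (j + 1) *
      (if h i ≤ (1 / 2) ^ j then w i else 0)) := by
    refine Finset.sum_le_sum fun i hi => ?_
    have h2 := hpt n (h i) (hh i hi)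
    have h3 := hw i hi
    calc w i / h i ^ 4 = w i * (1 / h i ^ 4) := by ring
      _ ≤ w i * (1 + ∑ j ∈ Finset.range n, 16 ^ (j + 1) *
          (if h i ≤ (1 / 2) ^ j then (1 : ℝ) else 0)) := by gcongr
      _ = _ := by
          rw [mul_add, mul_one, Finset.mul_sum]
          congr 1
          refine Finset.sum_congr rfl fun j _ => ?_
          split_ifs <;> ring
  refine h1.trans ?_
  rw [Finset.sum_add_distrib, Finset.sum_comm]
  have h2 : ∀ j ∈ Finset.range n, ∑ i ∈ s, (16 : ℝ) ^ (j + 1) *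
      (if h i ≤ (1 / 2) ^ j then w i else 0) ≤ 16 * C := by
    intro j hj
    rw [← Finset.mul_sum]
    have hjn : j ≤ n := (Finset.mem_range.1 hj).le
    have h3 := hN ((1 / 2) ^ j) (pow_le_pow_of_le_one (by norm_num) (by norm_num) hjn)
    calc (16 : ℝ) ^ (j + 1) * ∑ i ∈ s, (if h i ≤ (1 / 2) ^ j then w i else 0) ≤
        16 ^ (j + 1) * (C * ((1 / 2) ^ j) ^ 4) := by gcongr
      _ = 16 * C * (16 ^ j * ((1 / 2) ^ j) ^ 4) := by ring
      _ = 16 * C := by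
          rw [← pow_mul, mul_comm j 4, pow_mul, ← mul_pow]
          norm_num
  have h3 := Finset.sum_le_sum h2
  rw [Finset.sum_const, Finset.card_range, nsmul_eq_mul] at h3
  have hC : 0 ≤ C := (Finset.sum_nonneg hw).trans hT
  nlinarith

/-- **the mean local density of states** -/
theorem mean_l {d L : ℕ} [NeZero L] (hd3 : 4 ≤ d) {μ : Measure ℝ} [IsProbabilityMeasure μ]
    {lam c0 θ mg : ℝ} {G : Set (T d L → ℝ)} {z : ℂ} {e y σ : ℝ}
    (h : Cx μ lam c0 θ mg G z e y σ) (ϑ : ℝ) (hϑ : θ ≤ ϑ) (hϑ3 : ϑ * (1000 * (d : ℝ)) ≤ 1)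
    (hθ : θ ≤ 1 / 1600)
    (hσ : σ ≤ ϑ ^ 2) (he : e ≤ 1 / 2) (κ : ℝ) (hκ : 0 < κ) (hκ2 : κ ^ 2 = e)
    (hκ1 : κ ≤ 1) (hyL : κ ≤ y * L)
    (hκL : 2 ≤ κ * L) (n0 : ℕ) (hn0 : (1 / 2 : ℝ) ^ n0 ≤ κ) :
    ∫ V, XX lam z (0 : T d L) V ∂(Measure.pi fun _ : T d L => μ) ≤
      MX d * (κ ^ (d - 2) + y * (n0 + 1)) := by
  classical
  have hne := h.ne
  have hy := h.y0
  have hL := L_pos (L := L)
  have he0 := h.e0
  have hd : 1 ≤ d := by omega
  obtain ⟨n, hn⟩ : ∃ n : ℕ, d = n + 3 := ⟨d - 3, by omega⟩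
  have hL3 : 0 < (L : ℝ) ^ d := by positivity
  obtain ⟨c1, hc1⟩ : ∃ c1 : ℝ, c1 = 12 * (d : ℝ) ^ 2 * 2 ^ (d - 1) := ⟨_, rfl⟩
  have hc10 : 0 ≤ c1 := by rw [hc1]; positivity
  have cnt : ∀ x : ℝ, x ≤ e / 4 → y ≤ x →
      (((Finset.univ : Finset (T d L)).filter fun k => ‖Fk μ lam z k‖ ≤ x).card : ℝ) ≤
      (c1 * κ ^ (d - 2) * (L : ℝ) ^ d) * x := by
    intro x hx hxy
    refine (cnt_shell h hd ϑ hϑ hθ hϑ3 hσ he x hx hxy κ hκ hκ2 hyL).trans ?_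
    have hx0 : 0 ≤ x := hy.le.trans hxy
    have e1 : 12 * (d : ℝ) ^ 2 * (x * L / κ) * (2 * (κ * L)) ^ (d - 1) =
        12 * (d : ℝ) ^ 2 * 2 ^ (d - 1) * (κ * κ ^ n) * (L : ℝ) ^ d * x := by
      have e2 : d - 1 = n + 2 := by omega
      rw [e2, hn]
      have e3 : (2 * (κ * (L : ℝ))) ^ (n + 2) = 2 ^ (n + 2) * κ ^ (n + 2) * (L : ℝ) ^ (n + 2) := by
        rw [mul_pow, mul_pow]
        ring
      rw [e3, show n + 3 = (n + 2) + 1 by ring, pow_succ (L : ℝ) (n + 2), pow_add κ n 2]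
      field_simp
    rw [e1, hc1]
    have h1 : κ * κ ^ n = κ ^ (d - 2) := by
      rw [show d - 2 = n + 1 by omega, pow_succ]
      ring
    rw [h1]
  have hFl : ∀ k : T d L, y ≤ ‖Fk μ lam z k‖ := F_lower h
  -- near the shell
  set Ne := (Finset.univ : Finset (T d L)).filter fun k => ‖Fk μ lam z k‖ ≤ e / 4 with hNe
  set Fa := (Finset.univ : Finset (T d L)).filter fun k => ¬ ‖Fk μ lam z k‖ ≤ e / 4 with hFa
  have h1 : ∑ k ∈ Ne, (1 : ℝ) / ‖Fk μ lam z k‖ ^ (1 + 1) ≤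
      2 ^ (1 + 1) * (c1 * κ ^ (d - 2) * (L : ℝ) ^ d) / y := by
    refine dyadic Ne (fun _ => (1 : ℝ)) (fun k => ‖Fk μ lam z k‖) (fun _ _ => zero_le_one) y
      (c1 * κ ^ (d - 2) * (L : ℝ) ^ d) 1 hy (fun k _ => hFl k) fun x hx => ?_
    rw [pow_one]
    rcases le_or_gt x (e / 4) with hc | hc
    · refine le_trans ?_ (cnt x hc hx)
      rw [← Finset.sum_filter, Finset.sum_const, nsmul_eq_mul, mul_one]
      have h9 : (Ne.filter fun k => ‖Fk μ lam z k‖ ≤ x) ⊆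
          (Finset.univ : Finset (T d L)).filter fun k => ‖Fk μ lam z k‖ ≤ x := by
        intro k hk
        rw [Finset.mem_filter] at hk ⊢
        exact ⟨Finset.mem_univ _, hk.2⟩
      exact_mod_cast Finset.card_le_card h9
    · rcases le_or_gt y (e / 4) with hc2 | hc2
      · have h2 := cnt (e / 4) le_rfl hc2
        have h3 : (∑ i ∈ Ne, if ‖Fk μ lam z i‖ ≤ x then (1 : ℝ) else 0) ≤ (Ne.card : ℝ) := by
          calc _ ≤ ∑ i ∈ Ne, (1 : ℝ) := Finset.sum_le_sum fun i _ => by split_ifs <;> norm_num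
            _ = _ := by simp
        refine h3.trans (h2.trans ?_)
        gcongr
      · have h3 : Ne = ∅ := by
          rw [hNe, Finset.filter_eq_empty_iff]
          intro k _ hk
          have := hFl k
          linarith
        rw [h3, Finset.sum_empty]
        have : 0 < x := lt_of_lt_of_le hy hx
        positivity
  -- away from the shell
  have h2 : ∑ k : T d L, (1 : ℝ) / (√(kq k + e)) ^ 4 ≤ 16 * (L : ℝ) ^ d * (n0 + 1) := by
    have hf : ∀ k : T d L, κ ≤ √(kq k + e) := fun k => by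
      apply Real.le_sqrt_of_sq_le
      rw [hκ2]
      have := kq_nonneg k
      linarith
    refine dyl Finset.univ (fun _ => (1 : ℝ)) (fun k => √(kq k + e))
      (fun _ _ => zero_le_one) n0 ((L : ℝ) ^ d) (fun k _ => hn0.trans (hf k)) ?_ fun x hx => ?_
    · rw [Finset.sum_const, Finset.card_univ, nsmul_eq_mul, mul_one, card_TdL]
    · have hx0 : 0 < x := lt_of_lt_of_le (by positivity) hx
      rw [← Finset.sum_filter, Finset.sum_const, nsmul_eq_mul, mul_one]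
      rcases le_total x 1 with hx1 | hx1
      · rcases le_or_gt κ x with hkx | hkx
        · have h3 := cntq_le (d := d) (L := L) x hx0 (hκL.trans (by gcongr))
          rw [mul_pow, mul_comm] at h3
          have h8 : (L : ℝ) ^ d * x ^ d ≤ (L : ℝ) ^ d * x ^ 4 := by
            have : x ^ d ≤ x ^ 4 := pow_le_pow_of_le_one hx0.le hx1 hd3
            gcongr
          refine le_trans ?_ (h3.trans h8)
          have h9 : ((Finset.univ : Finset (T d L)).filter fun k => √(kq k + e) ≤ x) ⊆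
              (Finset.univ : Finset (T d L)).filter fun k => kq k ≤ x ^ 2 := by
            intro k hk
            rw [Finset.mem_filter] at hk ⊢
            refine ⟨Finset.mem_univ _, ?_⟩
            have h4 := (Real.sqrt_le_left hx0.le).1 hk.2
            linarith
          exact_mod_cast Finset.card_le_card h9
        · have h3 : ((Finset.univ : Finset (T d L)).filter fun k => √(kq k + e) ≤ x) = ∅ := by
            rw [Finset.filter_eq_empty_iff]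
            intro k _ hk
            have := hf k
            linarith
          rw [h3, Finset.card_empty, Nat.cast_zero]
          positivity
      · have h8 : (((Finset.univ : Finset (T d L)).filter fun k => √(kq k + e) ≤ x).card : ℝ) ≤
            (L : ℝ) ^ d := by
          rw [← card_TdL (d := d) (L := L)]
          exact_mod_cast Finset.card_le_univ _
        refine h8.trans ?_
        have : 1 ≤ x ^ 4 := one_le_pow₀ hx1
        nlinarith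
  have h3 : ∑ k ∈ Fa, (1 : ℝ) / ‖Fk μ lam z k‖ ^ 2 ≤ 144 * (16 * (L : ℝ) ^ d * (n0 + 1)) := by
    calc ∑ k ∈ Fa, (1 : ℝ) / ‖Fk μ lam z k‖ ^ 2 ≤
        ∑ k ∈ Fa, 144 * ((1 : ℝ) / (√(kq k + e)) ^ 4) := by
          refine Finset.sum_le_sum fun k hk => ?_
          rw [hFa, Finset.mem_filter, not_le] at hk
          have h4 := off_shell h hθ k hk.2
          have hk0 := kq_nonneg k
          have e1 : (√(kq k + e)) ^ 4 = (kq k + e) ^ 2 := by
            have : (√(kq k + e)) ^ 4 = ((√(kq k + e)) ^ 2) ^ 2 := by ring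
            rw [this, Real.sq_sqrt (by linarith)]
          rw [e1]
          have h5 : 0 < kq k + e := by linarith
          have h6 : ((kq k + e) / 12) ^ 2 ≤ ‖Fk μ lam z k‖ ^ 2 :=
            pow_le_pow_left₀ (by positivity) h4 2
          calc 1 / ‖Fk μ lam z k‖ ^ 2 ≤ 1 / ((kq k + e) / 12) ^ 2 :=
                one_div_le_one_div_of_le (by positivity) h6
            _ = _ := by field_simp; norm_num
      _ ≤ ∑ k : T d L, 144 * ((1 : ℝ) / (√(kq k + e)) ^ 4) :=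
          Finset.sum_le_univ_sum_of_nonneg fun k => by positivity
      _ = 144 * ∑ k : T d L, ((1 : ℝ) / (√(kq k + e)) ^ 4) := by rw [Finset.mul_sum]
      _ ≤ _ := by gcongr
  have h4 : ∑ k : T d L, (mk μ lam z k).im ≤
      2 * y * (∑ k ∈ Ne, (1 : ℝ) / ‖Fk μ lam z k‖ ^ (1 + 1) +
        ∑ k ∈ Fa, (1 : ℝ) / ‖Fk μ lam z k‖ ^ 2) := by
    have e1 : ∑ k ∈ Ne, (1 : ℝ) / ‖Fk μ lam z k‖ ^ (1 + 1) +
        ∑ k ∈ Fa, (1 : ℝ) / ‖Fk μ lam z k‖ ^ 2 = ∑ k : T d L, (1 : ℝ) / ‖Fk μ lam z k‖ ^ 2 :=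
      Finset.sum_filter_add_sum_filter_not _ _ _
    rw [e1, Finset.mul_sum]
    refine Finset.sum_le_sum fun k _ => ?_
    refine (le_abs_self _).trans ((m_up h k).trans (le_of_eq (by ring)))
  rw [XX_mean μ lam hne]
  have h5 : ∑ k : T d L, (mk μ lam z k).im ≤ MX d * (κ ^ (d - 2) + y * (n0 + 1)) * (L : ℝ) ^ d := by
    refine h4.trans ?_
    have hn00 : (0 : ℝ) ≤ (n0 : ℝ) := Nat.cast_nonneg n0
    have hc1M : 8 * c1 ≤ MX d := by
      rw [hc1]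
      unfold MX
      nlinarith
    have hMX : 4608 ≤ MX d := by
      unfold MX
      have : 0 ≤ 96 * (d : ℝ) ^ 2 * 2 ^ (d - 1) := by positivity
      linarith
    calc 2 * y * (∑ k ∈ Ne, (1 : ℝ) / ‖Fk μ lam z k‖ ^ (1 + 1) +
        ∑ k ∈ Fa, (1 : ℝ) / ‖Fk μ lam z k‖ ^ 2) ≤
        2 * y * (2 ^ (1 + 1) * (c1 * κ ^ (d - 2) * (L : ℝ) ^ d) / y +
          144 * (16 * (L : ℝ) ^ d * (n0 + 1))) := by gcongr
      _ = (8 * c1 * κ ^ (d - 2) + 4608 * (y * (n0 + 1))) * (L : ℝ) ^ d := by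
          field_simp
          ring
      _ ≤ (MX d * κ ^ (d - 2) + MX d * (y * (n0 + 1))) * (L : ℝ) ^ d := by gcongr
      _ = _ := by ring
  rw [one_div, inv_mul_le_iff₀ hL3]
  linarith

/-- the same with the fourth power -/
theorem spec4 (d : ℕ) (hd : 4 ≤ d) : ∃ C : ℝ, 1 ≤ C ∧ ∀ (L : ℕ) [NeZero L] (lam c0 η m : ℝ)
    (V ψ : T d L → ℝ),
    Gd lam c0 η m V ψ → ∀ (b : OrthonormalBasis (T d L) ℂ (XT d L)) (E : T d L → ℝ),
    (∀ α, HC lam V (b α) = ((E α : ℝ) : ℂ) • b α) → ∀ (x : T d L) (r : ℝ), 0 < r →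
    (∑ α, if E α - c0 ≤ r ^ 2 then ‖(inner ℂ (b α) (es x) : ℂ)‖ ^ 2 else 0) ≤ C * r ^ 4 := by
  obtain ⟨C, hC, H⟩ := spec d (by omega)
  refine ⟨C, hC, ?_⟩
  intro L _ lam c0 η m V ψ h b E hb x r hr
  rcases le_total r 1 with hr1 | hr1
  · refine (H L lam c0 η m V ψ h b E hb x r hr).trans ?_
    have : r ^ d ≤ r ^ 4 := pow_le_pow_of_le_one hr.le hr1 hd
    gcongr
  · have h1 : (∑ α, if E α - c0 ≤ r ^ 2 then ‖(inner ℂ (b α) (es x) : ℂ)‖ ^ 2 else 0) ≤ 1 := by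
      rw [← wsum b E hb x]
      exact Finset.sum_le_sum fun α _ => by split_ifs; exacts [le_rfl, by positivity]
    have h2 : 1 ≤ r ^ 4 := one_le_pow₀ hr1
    nlinarith

/-- deterministic bounds at the initial scale -/
theorem ini (d : ℕ) (hd : 4 ≤ d) : ∃ C : ℝ, 1 ≤ C ∧ ∀ (L : ℕ) [NeZero L] (lam c0 η m : ℝ) (V ψ : T d L → ℝ),
    Gd lam c0 η m V ψ → ∀ (b : OrthonormalBasis (T d L) ℂ (XT d L)) (E : T d L → ℝ),
    (∀ α, HC lam V (b α) = ((E α : ℝ) : ℂ) • b α) → ∀ (x : T d L) (κ : ℝ), 0 < κ →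
    ∀ n0 : ℕ, (1 / 2 : ℝ) ^ n0 ≤ κ →
    ∑ α, ‖(inner ℂ (b α) (es x) : ℂ)‖ ^ 2 / (E α - c0 + κ ^ 2) ^ 2 ≤ C * (n0 + 1) := by
  obtain ⟨C, hC, H⟩ := spec4 d hd
  refine ⟨16 * C, by linarith, ?_⟩
  intro L _ lam c0 η m V ψ h b E hb x κ hκ n0 hn0
  have h1 := dyl (Finset.univ : Finset (T d L)) (fun α => ‖(inner ℂ (b α) (es x) : ℂ)‖ ^ 2)
    (fun α => √(E α - c0 + κ ^ 2)) (fun α _ => by positivity) n0 C (fun α _ => by
      refine hn0.trans ?_
      apply Real.le_sqrt_of_sq_le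
      have := E_ge b E hb h α
      linarith) (by rw [wsum b E hb x]; exact hC) (fun r hr => by
      have hr0 : 0 < r := lt_of_lt_of_le (by positivity) hr
      refine le_trans (Finset.sum_le_sum fun α _ => ?_) (H L lam c0 η m V ψ h b E hb x r hr0)
      by_cases h2 : √(E α - c0 + κ ^ 2) ≤ r
      · rw [if_pos h2, if_pos]
        have h3 := (Real.sqrt_le_left hr0.le).1 h2
        have : 0 ≤ κ ^ 2 := by positivity
        linarith
      · rw [if_neg h2]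
        split_ifs <;> positivity)
  have h2 : ∀ α, (√(E α - c0 + κ ^ 2)) ^ 4 = (E α - c0 + κ ^ 2) ^ 2 := by
    intro α
    have h3 := E_ge b E hb h α
    have : (√(E α - c0 + κ ^ 2)) ^ 4 = ((√(E α - c0 + κ ^ 2)) ^ 2) ^ 2 := by ring
    rw [this, Real.sq_sqrt (by nlinarith [sq_nonneg κ])]
  simp only [h2] at h1
  exact h1

/-- the initial bound of the local density of states -/
theorem XX_ini (d : ℕ) (hd : 4 ≤ d) : ∃ C : ℝ, 1 ≤ C ∧ ∀ (L : ℕ) [NeZero L] (lam c0 η m : ℝ) (V ψ : T d L → ℝ),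
    Gd lam c0 η m V ψ → ∀ (x : T d L) (κ : ℝ), 0 < κ → ∀ n0 : ℕ, (1 / 2 : ℝ) ^ n0 ≤ κ →
    XX lam (zz c0 (κ ^ 2) (κ ^ 2)) x V ≤ C * (κ ^ 2 * (n0 + 1)) := by
  obtain ⟨C, hC, H⟩ := ini d hd
  refine ⟨5 * C, by linarith, ?_⟩
  intro L _ lam c0 η m V ψ h x κ hκ n0 hn0
  obtain ⟨b, E, hb⟩ := exists_basis lam V
  have hz : (zz c0 (κ ^ 2) (κ ^ 2)).im ≠ 0 := by rw [zz_im]; positivity
  rw [XX_sum b E hb hz, zz_im]
  have h1 := H L lam c0 η m V ψ h b E hb x κ hκ n0 hn0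
  calc ∑ α, ‖(inner ℂ (b α) (es x) : ℂ)‖ ^ 2 *
        (κ ^ 2 / ‖((E α : ℝ) : ℂ) - zz c0 (κ ^ 2) (κ ^ 2)‖ ^ 2) ≤
      ∑ α, (5 * κ ^ 2) * (‖(inner ℂ (b α) (es x) : ℂ)‖ ^ 2 / (E α - c0 + κ ^ 2) ^ 2) := by
        refine Finset.sum_le_sum fun α _ => ?_
        rw [zz_norm]
        have hE := E_ge b E hb h α
        set t := E α - c0 with ht
        have ht0 : 0 ≤ t := by linarith
        have hκ2 : 0 < κ ^ 2 := by positivity
        have h2 : (t + κ ^ 2) ^ 2 ≤ 5 * ((t - κ ^ 2) ^ 2 + (κ ^ 2) ^ 2) := by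
          nlinarith [sq_nonneg (2 * t - 3 * κ ^ 2)]
        have h3 : κ ^ 2 / ((t - κ ^ 2) ^ 2 + (κ ^ 2) ^ 2) ≤ 5 * κ ^ 2 / (t + κ ^ 2) ^ 2 := by
          rw [div_le_div_iff₀ (by positivity) (by positivity)]
          nlinarith
        calc _ ≤ ‖(inner ℂ (b α) (es x) : ℂ)‖ ^ 2 * (5 * κ ^ 2 / (t + κ ^ 2) ^ 2) := by gcongr
          _ = _ := by ring
    _ = 5 * κ ^ 2 * ∑ α, ‖(inner ℂ (b α) (es x) : ℂ)‖ ^ 2 / (E α - c0 + κ ^ 2) ^ 2 := by
        rw [Finset.mul_sum]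
    _ ≤ 5 * κ ^ 2 * (C * (n0 + 1)) := by gcongr
    _ = _ := by ring

/-- off-diagonal bound -/
theorem GG_bound (d : ℕ) (hd : 4 ≤ d) : ∃ C : ℝ, 1 ≤ C ∧ ∀ (L : ℕ) [NeZero L] (lam c0 η m : ℝ) (V ψ : T d L → ℝ),
    Gd lam c0 η m V ψ → ∀ (κ : ℝ), 0 < κ → ∀ n0 : ℕ, (1 / 2 : ℝ) ^ n0 ≤ κ →
    ∀ ρ : ℝ, 0 < ρ → ρ ≤ 1 → ∀ (j : ℕ) (B : ℝ),
    (∀ (i : ℕ), i ≤ j → ∀ x, XX lam (zz c0 (κ ^ 2) (κ ^ 2 * ρ ^ i)) x V ≤ B) → ∀ x y,
    ‖GG lam (zz c0 (κ ^ 2) (κ ^ 2 * ρ ^ j)) x y V‖ ≤ C * (n0 + 1) + 2 / ρ * ((j + 1) * B) := by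
  obtain ⟨C, hC, H⟩ := ini d hd
  refine ⟨3 * C, by linarith, ?_⟩
  intro L _ lam c0 η m V ψ h κ hκ n0 hn0 ρ hρ hρ1 j B hB x y
  obtain ⟨b, E, hb⟩ := exists_basis lam V
  have hκ2 : 0 < κ ^ 2 := by positivity
  have hsc : ∀ i : ℕ, 0 < κ ^ 2 * ρ ^ i := fun i => by positivity
  have hz : ∀ i : ℕ, (zz c0 (κ ^ 2) (κ ^ 2 * ρ ^ i)).im ≠ 0 := fun i => by
    rw [zz_im]
    exact (hsc i).ne'
  set Z := zz c0 (κ ^ 2) (κ ^ 2 * ρ ^ j) with hZ
  -- pointwise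
  have hpt : ∀ α, 1 / ‖((E α : ℝ) : ℂ) - Z‖ ≤ 3 / (E α - c0 + κ ^ 2) +
      2 / ρ * ∑ i ∈ Finset.range (j + 1), (κ ^ 2 * ρ ^ i) /
        ‖((E α : ℝ) : ℂ) - zz c0 (κ ^ 2) (κ ^ 2 * ρ ^ i)‖ ^ 2 := by
    intro α
    have hE := E_ge b E hb h α
    have hnp : 0 < ‖((E α : ℝ) : ℂ) - Z‖ := by
      rw [norm_pos_iff]
      exact Ez_ne b E hb (hz j) α
    have hn2 : ‖((E α : ℝ) : ℂ) - Z‖ ^ 2 = (E α - c0 - κ ^ 2) ^ 2 + (κ ^ 2 * ρ ^ j) ^ 2 :=
      zz_norm _ _ _ _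
    have key := scale (E α - c0) (κ ^ 2) ρ _ j (by linarith) hκ2 hρ hρ1 hnp hn2
    simp only [zz_norm]
    exact key
  -- the diagonal sums
  have hS : ∀ x : T d L, ∑ α, ‖(inner ℂ (b α) (es x) : ℂ)‖ ^ 2 * (1 / ‖((E α : ℝ) : ℂ) - Z‖) ≤
      3 * C * (n0 + 1) + 2 / ρ * ((j + 1) * B) := by
    intro x
    set w : T d L → ℝ := fun α => ‖(inner ℂ (b α) (es x) : ℂ)‖ ^ 2 with hw
    have hw0 : ∀ α, 0 ≤ w α := fun α => by positivity
    have h1 : ∑ α, w α * (1 / ‖((E α : ℝ) : ℂ) - Z‖) ≤ ∑ α, (w α * (3 / (E α - c0 + κ ^ 2)) +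
        2 / ρ * ∑ i ∈ Finset.range (j + 1), w α * ((κ ^ 2 * ρ ^ i) /
        ‖((E α : ℝ) : ℂ) - zz c0 (κ ^ 2) (κ ^ 2 * ρ ^ i)‖ ^ 2)) := by
      refine Finset.sum_le_sum fun α _ => ?_
      calc w α * (1 / ‖((E α : ℝ) : ℂ) - Z‖) ≤ w α * (3 / (E α - c0 + κ ^ 2) +
            2 / ρ * ∑ i ∈ Finset.range (j + 1), (κ ^ 2 * ρ ^ i) /
              ‖((E α : ℝ) : ℂ) - zz c0 (κ ^ 2) (κ ^ 2 * ρ ^ i)‖ ^ 2) :=
            mul_le_mul_of_nonneg_left (hpt α) (hw0 α)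
        _ = _ := by
            rw [mul_add, ← Finset.mul_sum]
            ring
    refine h1.trans ?_
    rw [Finset.sum_add_distrib, ← Finset.mul_sum, Finset.sum_comm]
    have h2 : ∑ α, w α * (3 / (E α - c0 + κ ^ 2)) ≤ 3 * C * (n0 + 1) := by
      have h3 : ∑ α, √(w α) * (√(w α) / (E α - c0 + κ ^ 2)) ≤
          √(∑ α, √(w α) ^ 2) * √(∑ α, (√(w α) / (E α - c0 + κ ^ 2)) ^ 2) :=
        cs_P _ _ _
      have h4 : ∑ α, √(w α) ^ 2 = 1 := by
        rw [← wsum b E hb x]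
        exact Finset.sum_congr rfl fun α _ => Real.sq_sqrt (hw0 α)
      have h5 : ∑ α, (√(w α) / (E α - c0 + κ ^ 2)) ^ 2 ≤ C * (n0 + 1) := by
        refine le_trans (le_of_eq ?_) (H L lam c0 η m V ψ h b E hb x κ hκ n0 hn0)
        refine Finset.sum_congr rfl fun α _ => ?_
        rw [div_pow, Real.sq_sqrt (hw0 α)]
      rw [h4, Real.sqrt_one, one_mul] at h3
      calc ∑ α, w α * (3 / (E α - c0 + κ ^ 2)) =
          3 * ∑ α, √(w α) * (√(w α) / (E α - c0 + κ ^ 2)) := by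
            rw [Finset.mul_sum]
            refine Finset.sum_congr rfl fun α _ => ?_
            have := Real.mul_self_sqrt (hw0 α)
            calc w α * (3 / (E α - c0 + κ ^ 2)) =
                (√(w α) * √(w α)) * (3 / (E α - c0 + κ ^ 2)) := by rw [this]
              _ = _ := by ring
        _ ≤ 3 * √(C * (n0 + 1)) := by
            gcongr
            exact h3.trans (Real.sqrt_le_sqrt h5)
        _ ≤ 3 * (C * (n0 + 1)) := by
            gcongr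
            have hn00 : (0 : ℝ) ≤ (n0 : ℝ) := Nat.cast_nonneg n0
            have h6 : 1 ≤ C * (n0 + 1) := by nlinarith
            rw [Real.sqrt_le_left (by linarith)]
            nlinarith
        _ = 3 * C * (n0 + 1) := by ring
    have h3 : 2 / ρ * ∑ i ∈ Finset.range (j + 1), ∑ α, w α * ((κ ^ 2 * ρ ^ i) /
        ‖((E α : ℝ) : ℂ) - zz c0 (κ ^ 2) (κ ^ 2 * ρ ^ i)‖ ^ 2) ≤ 2 / ρ * ((j + 1) * B) := by
      gcongr
      calc ∑ i ∈ Finset.range (j + 1), ∑ α, w α * ((κ ^ 2 * ρ ^ i) /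
            ‖((E α : ℝ) : ℂ) - zz c0 (κ ^ 2) (κ ^ 2 * ρ ^ i)‖ ^ 2) ≤
          ∑ i ∈ Finset.range (j + 1), B := by
            refine Finset.sum_le_sum fun i hi => ?_
            have h4 := XX_sum b E hb (hz i) x
            rw [zz_im] at h4
            rw [← h4]
            exact hB i (by have := Finset.mem_range.1 hi; omega) x
        _ = (j + 1) * B := by
            rw [Finset.sum_const, Finset.card_range, nsmul_eq_mul]
            push_cast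
            ring
    exact add_le_add h2 h3
  refine (GG_sum b E hb (hz j) x y).trans ?_
  have h1 : ∑ α, ‖(inner ℂ (b α) (es x) : ℂ)‖ * ‖(inner ℂ (b α) (es y) : ℂ)‖ /
      ‖((E α : ℝ) : ℂ) - Z‖ ≤
      1 / 2 * ∑ α, ‖(inner ℂ (b α) (es x) : ℂ)‖ ^ 2 * (1 / ‖((E α : ℝ) : ℂ) - Z‖) +
      1 / 2 * ∑ α, ‖(inner ℂ (b α) (es y) : ℂ)‖ ^ 2 * (1 / ‖((E α : ℝ) : ℂ) - Z‖) := by
    rw [Finset.mul_sum, Finset.mul_sum, ← Finset.sum_add_distrib]
    refine Finset.sum_le_sum fun α _ => ?_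
    set p := ‖(inner ℂ (b α) (es x) : ℂ)‖
    set q := ‖(inner ℂ (b α) (es y) : ℂ)‖
    set n := 1 / ‖((E α : ℝ) : ℂ) - Z‖ with hn
    have hn0 : 0 ≤ n := by positivity
    have e1 : p * q / ‖((E α : ℝ) : ℂ) - Z‖ = p * q * n := by rw [hn]; ring
    rw [e1]
    nlinarith [mul_nonneg hn0 (sq_nonneg (p - q))]
  have h2 := hS x
  have h3 := hS y
  refine h1.trans ?_
  linarith

end Pool.Agent.V8H95.LE
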