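import Pool.Agent.V8H95.LE.All

/-!
One event for all centers and all sizes of the boxes.
-/

set_option autoImplicit false
set_option linter.unusedSectionVars false
set_option linter.unusedVariables false

open Complex MeasureTheory
open scoped BigOperators ComplexConjugate

namespace Pool.Agent.V8H95.LE

open Pool.Agent.H4R2.AE Pool.Agent.V8H99.AD Pool.Agent.V8H95.MF Pool.Agent.V8H95.BW
open Pool.Agent.V8H95.EF Pool.Agent.V8H95.NE

theorem shift_map {d : ℕ} (μ : Measure ℝ) [IsProbabilityMeasure μ] (y : Fin d → ℤ) :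
    (Measure.infinitePi fun _ : Fin d → ℤ => μ).map (fun ω z => ω (z + y)) =
      Measure.infinitePi fun _ : Fin d → ℤ => μ := by
  have h := Measure.infinitePi_map_piCongrLeft (μ := fun _ : Fin d → ℤ => μ) (Equiv.subRight y)
  have e : (⇑(MeasurableEquiv.piCongrLeft (fun _ : Fin d → ℤ => ℝ) (Equiv.subRight y)) :
      ((Fin d → ℤ) → ℝ) → ((Fin d → ℤ) → ℝ)) = fun ω z => ω (z + y) := by
    funext ω z
    have h1 := MeasurableEquiv.piCongrLeft_apply_apply (Equiv.subRight y)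
      (β := fun _ : Fin d → ℤ => ℝ) ω (z + y)
    rw [Equiv.subRight_apply, add_sub_cancel_right] at h1
    exact h1
  rw [e] at h
  exact h

theorem HF_shift {d : ℕ} (lam : ℝ) (ω : (Fin d → ℤ) → ℝ) (ψ : (Fin d → ℤ) → ℂ) (y x : Fin d → ℤ) :
    HF lam (fun z => ω (z + y)) (fun z => ψ (z + y)) x = HF lam ω ψ (x + y) := by
  unfold HF
  have h : ∀ i : Fin d, x + Pi.single i 1 + y = x + y + Pi.single i 1 := fun i => by
    rw [add_right_comm]
  have h' : ∀ i : Fin d, x - Pi.single i 1 + y = x + y - Pi.single i 1 := fun i => by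
    rw [sub_add_eq_add_sub]
  simp only [h, h']

theorem bm_shift {d : ℕ} (ψ : (Fin d → ℤ) → ℂ) (y : Fin d → ℤ) (r : ℕ) :
    bm (fun z => ψ (z + y)) 0 r = bm ψ y r := by
  unfold bm
  refine Finset.sum_nbij' (fun z => z + y) (fun z => z - y) ?_ ?_ ?_ ?_ ?_
  · intro z hz
    rw [mem_bx] at hz ⊢
    rwa [add_sub_cancel_right, ← sub_zero z]
  · intro z hz
    rw [mem_bx] at hz ⊢
    rwa [sub_zero]
  · intro z hz
    exact add_sub_cancel_right z y
  · intro z hz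
    exact sub_add_cancel z y
  · intro z hz
    rfl

theorem card_bx {d : ℕ} (M : ℕ) : (bx (0 : Fin d → ℤ) M).card = (2 * M + 1) ^ d := by
  unfold bx
  rw [Fintype.card_piFinset, Finset.prod_congr rfl (g := fun _ => 2 * M + 1)]
  · rw [Finset.prod_const, Finset.card_univ, Fintype.card_fin]
  · intro i _
    rw [Int.card_Icc, Pi.zero_apply]
    omega

/-- **one event for all centers and all boxes** -/
theorem local_all4 (d : ℕ) (hd : 3 ≤ d) (N P B : ℕ) (a : ℝ) (ha : 0 < a) (ha1 : a ≤ 1) :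
    ∃ k lam0 : ℝ, 0 < k ∧ 0 < lam0 ∧
    ∀ (μ : Measure ℝ) [IsProbabilityMeasure μ], μ (Set.Icc (-1) 1)ᶜ = 0 →
    ∀ lam : ℝ, 0 < lam → lam ≤ lam0 →
    ∃ e₀ e₁ : ℝ, |e₀| ≤ 3 * lam ∧ |e₁ - 4 * d| ≤ 3 * lam ∧
    ∃ G : Set ((Fin d → ℤ) → ℝ), MeasurableSet G ∧
      1 - lam ^ P ≤ (Measure.infinitePi fun _ : Fin d → ℤ => μ).real G ∧
      ∀ ω ∈ G, ∀ (x₀ : Fin d → ℤ), (nz x₀ : ℝ) ≤ 1 / lam ^ N → ∀ W : ℕ,
        1 / lam ^ (2 * d + 4 + B * d * (d - 3)) ≤ (W : ℝ) →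
        ∀ (ψ : (Fin d → ℤ) → ℂ) (E : ℝ),
        (∀ j : ℕ, 1 ≤ j → j < d → lam ^ (a / 128) ≤ |E - 4 * j|) →
        (∀ x, nz (x - x₀) ≤ W → HF lam ω ψ x = (E : ℂ) * ψ x) → ∀ κ : ℝ,
        κ = max (lam ^ B) (√(min |E - e₀| |E - e₁|)) →
        bm ψ x₀ ⌊lam ^ (a - 2) * (max 1 (k / κ)) ^ (d - 3)⌋₊ ≤
          lam ^ (a / 64) * bm ψ x₀ (W + 1) := by
  obtain ⟨q, hq⟩ : ∃ q : ℕ, q = 2 * d + 4 + B * d * (d - 3) := ⟨_, rfl⟩
  obtain ⟨k, lam1, hk, hlam1, H⟩ := local_all3 d hd (q + 1) (P + N * d + d) B a ha ha1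
  rw [← hq] at H ⊢
  refine ⟨k, min lam1 (1 / 3), hk, by positivity, ?_⟩
  intro μ _ hμ lam hlam hlamm
  have hl1 : lam ≤ lam1 := hlamm.trans (min_le_left _ _)
  have hl3 : lam ≤ 1 / 3 := hlamm.trans (min_le_right _ _)
  have hll : lam ≤ 1 := by linarith
  obtain ⟨W₀, hW₀⟩ : ∃ W₀ : ℕ, W₀ = ⌈1 / lam ^ q⌉₊ := ⟨_, rfl⟩
  have hW1 : 1 / lam ^ q ≤ (W₀ : ℝ) := by rw [hW₀]; exact Nat.le_ceil _
  have h1q : (1 : ℝ) ≤ 1 / lam ^ q := by
    rw [le_div_iff₀ (by positivity), one_mul]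
    exact pow_le_one₀ hlam.le hll
  have hW2 : (W₀ : ℝ) ≤ 1 / lam ^ (q + 1) := by
    have h1 : (W₀ : ℝ) < 1 / lam ^ q + 1 := by
      rw [hW₀]
      exact Nat.ceil_lt_add_one (by positivity)
    have h2 : 2 * (1 / lam ^ q) ≤ 1 / lam ^ (q + 1) := by
      have h3 : 2 ≤ 1 / lam := by
        rw [le_div_iff₀ hlam]
        linarith
      calc 2 * (1 / lam ^ q) ≤ 1 / lam * (1 / lam ^ q) := by gcongr
        _ = _ := by
            rw [pow_succ]
            field_simp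
    linarith
  obtain ⟨e₀, e₁, he₀, he₁, G, hGm, hGP, hG⟩ := H μ hμ lam hlam hl1 W₀ hW1 hW2
  obtain ⟨M, hM⟩ : ∃ M : ℕ, M = ⌊1 / lam ^ N⌋₊ := ⟨_, rfl⟩
  have hMr : (M : ℝ) ≤ 1 / lam ^ N := by
    rw [hM]
    exact Nat.floor_le (by positivity)
  have hmeas : ∀ y : Fin d → ℤ, Measurable (fun (ω : (Fin d → ℤ) → ℝ) (z : Fin d → ℤ) => ω (z + y)) :=
    fun y => by fun_prop
  set Pr : Measure ((Fin d → ℤ) → ℝ) := Measure.infinitePi fun _ : Fin d → ℤ => μ with hPr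
  have hpre : ∀ y : Fin d → ℤ,
      Pr.real ((fun (ω : (Fin d → ℤ) → ℝ) (z : Fin d → ℤ) => ω (z + y)) ⁻¹' G)ᶜ ≤
        lam ^ (P + N * d + d) := by
    intro y
    have h1 := probReal_add_probReal_compl (μ := Pr) (hmeas y hGm)
    have h2 : Pr.real ((fun (ω : (Fin d → ℤ) → ℝ) (z : Fin d → ℤ) => ω (z + y)) ⁻¹' G) =
        Pr.real G := by
      rw [← map_measureReal_apply (hmeas y) hGm, hPr, shift_map μ y]
    linarith
  refine ⟨e₀, e₁, he₀, he₁, ⋂ y ∈ bx (0 : Fin d → ℤ) M,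
    (fun (ω : (Fin d → ℤ) → ℝ) (z : Fin d → ℤ) => ω (z + y)) ⁻¹' G,
    Finset.measurableSet_biInter _ fun y _ => hmeas y hGm, ?_, ?_⟩
  · have h1 := probReal_add_probReal_compl (μ := Pr)
      (Finset.measurableSet_biInter (bx (0 : Fin d → ℤ) M) fun y _ => hmeas y hGm)
    rw [Set.compl_iInter₂] at h1
    have h2 : Pr.real (⋃ y ∈ bx (0 : Fin d → ℤ) M,
        ((fun (ω : (Fin d → ℤ) → ℝ) (z : Fin d → ℤ) => ω (z + y)) ⁻¹' G)ᶜ) ≤ lam ^ P := by
      refine (measureReal_biUnion_finset_le _ _).trans ?_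
      refine (Finset.sum_le_sum fun y _ => hpre y).trans ?_
      rw [Finset.sum_const, card_bx, nsmul_eq_mul]
      push_cast
      have h3 : 2 * (M : ℝ) + 1 ≤ 3 * (1 / lam ^ N) := by
        have : (1 : ℝ) ≤ 1 / lam ^ N := by
          rw [le_div_iff₀ (by positivity), one_mul]
          exact pow_le_one₀ hlam.le hll
        linarith
      calc (2 * (M : ℝ) + 1) ^ d * lam ^ (P + N * d + d) ≤
          (3 * (1 / lam ^ N)) ^ d * lam ^ (P + N * d + d) := by gcongr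
        _ = (3 * lam) ^ d * lam ^ P := by
            rw [pow_add, pow_add, mul_pow, mul_pow, pow_mul, one_div, inv_pow]
            field_simp
        _ ≤ 1 * lam ^ P := by
            have : (3 * lam) ^ d ≤ 1 := pow_le_one₀ (by positivity) (by linarith)
            gcongr
        _ = _ := one_mul _
    linarith
  intro ω hω x₀ hx₀ W hW ψ E hE hψ κ hκ
  have hWW : W₀ ≤ W := by
    rw [hW₀]
    exact Nat.ceil_le.2 hW
  have hxM : x₀ ∈ bx (0 : Fin d → ℤ) M := by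
    rw [mem_bx, sub_zero, hM]
    exact Nat.le_floor hx₀
  have hωG : (fun z => ω (z + x₀)) ∈ G := Set.mem_iInter₂.1 hω x₀ hxM
  have h1 := hG _ hωG 0 (by
    rw [nz_le]
    intro i
    simp) (fun z => ψ (z + x₀)) E hE (by
    intro x hx
    rw [HF_shift]
    refine hψ _ ?_
    rw [add_sub_cancel_right]
    rw [sub_zero] at hx
    omega) κ hκ
  rw [bm_shift, bm_shift] at h1
  refine h1.trans ?_
  have h2 := bm_mono ψ x₀ (W₀ + 1) (W + 1) (by omega)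
  gcongr

end Pool.Agent.V8H95.LE
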